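import Pool.Agent.Q44.BN.Fin

/-!
# Scaling of the equations
-/

set_option autoImplicit false

open scoped Classical

namespace Q44.BP

open Finset
open Q44.TI (SelS Loc)
open Q44.BN

theorem Loc_scale {F : Type} [Field F] {A B z s : ℤ} (hs : (s : F) ≠ 0) :
    Loc F (A * s ^ 2) (B * s ^ 4) z ↔ Loc F A B z := by
  constructor
  · rintro ⟨x, y, r, h1, h2, h3⟩
    refine ⟨x / s ^ 2, y / s ^ 3, r / s, div_ne_zero h1 (pow_ne_zero 2 hs), ?_, ?_⟩
    · push_cast at h2
      field_simp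
      linear_combination h2
    · rw [h3]
      field_simp
  · rintro ⟨x, y, r, h1, h2, h3⟩
    refine ⟨x * s ^ 2, y * s ^ 3, r * s, mul_ne_zero h1 (pow_ne_zero 2 hs), ?_, ?_⟩
    · push_cast
      linear_combination (s : F) ^ 6 * h2
    · rw [h3]
      ring

theorem SelS_scale {A B s : ℤ} (hs : s ≠ 0) : SelS (A * s ^ 2) (B * s ^ 4) = SelS A B := by
  ext z
  unfold SelS
  simp only [Set.mem_ofPred_eq]
  refine and_congr_right fun _ => and_congr ?_ (Loc_scale (by exact_mod_cast hs))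
  exact forall_congr' fun p => forall_congr' fun hp => Loc_scale (by exact_mod_cast hs)

theorem im_scale {K : Type} [Field K] {A B s : ℤ} (hs : (s : K) ≠ 0) :
    im K (A * s ^ 2) (B * s ^ 4) = im K A B := by
  ext c
  constructor
  · rintro ⟨x, y, h, rfl⟩
    refine ⟨Units.mk0 ((x : K) / s ^ 2) (div_ne_zero x.ne_zero (pow_ne_zero 2 hs)), y / s ^ 3, ?_, ?_⟩
    · rw [Units.val_mk0]
      push_cast at h
      field_simp
      linear_combination h
    · rw [mk_eq, Units.val_mk0]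
      exact ⟨x / s, by field_simp⟩
  · rintro ⟨x, y, h, rfl⟩
    refine ⟨Units.mk0 ((x : K) * s ^ 2) (mul_ne_zero x.ne_zero (pow_ne_zero 2 hs)), y * s ^ 3, ?_, ?_⟩
    · rw [Units.val_mk0]
      push_cast
      linear_combination (s : K) ^ 6 * h
    · rw [mk_eq, Units.val_mk0]
      exact ⟨x * s, by ring⟩

theorem imc_scale {A B s : ℤ} (hs : s ≠ 0) (p : ℕ) : imc (A * s ^ 2) (B * s ^ 4) p = imc A B p := by
  by_cases hp : p.Prime
  · have : Fact p.Prime := ⟨hp⟩
    rw [imc_pos, imc_pos, im_scale (by exact_mod_cast hs)]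
  · unfold imc
    rw [dif_neg hp, dif_neg hp]

theorem tm_scale (S : Finset ℕ) {A B s : ℤ} (hs : s ≠ 0) :
    tm S (A * s ^ 2) (B * s ^ 4) = tm S A B := by
  unfold tm
  rw [im_scale (K := ℝ) (by exact_mod_cast hs), prod_congr rfl fun p _ => imc_scale hs p]

end Q44.BP
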