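import Pool.Agent.Q44.BN.Ex2
import Pool.Agent.Q44.BP.Sc

/-!
# Local images of order two
-/

set_option autoImplicit false

open scoped Classical

namespace Q44.BP

open Finset
open Pool.Agent.W313.BMX (Splits splits_mul_sq splits_neg_mul)
open Pool.Agent.W928.BMX (splits_comm splits_sq splits_real)
open Q44.TI (Loc padic_sq padic_sq2 Loc_of_sq Loc_real nz_of)
open Q44.BN

section field

variable {K : Type} [Field K]

theorem loc_cls {A B z z' : ℤ} (hz : (z : K) ≠ 0) (hz' : (z' : K) ≠ 0)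
    (h : IsSquare ((z : K) * z')) (hL : Loc K A B z) : Loc K A B z' := by
  rw [← mem_im hz'] 
  rw [← mem_im hz] at hL
  have e : (QuotientGroup.mk (Units.mk0 (z : K) hz) : SQ K) =
      QuotientGroup.mk (Units.mk0 (z' : K) hz') := mk_eq.2 h
  rw [← e]
  exact hL

end field

variable {p : ℕ} [hp : Fact p.Prime]

/-- two uniformizers -/
theorem sp_pp (hp2 : p ≠ 2) {m f : ℤ} (hm : ¬ (p : ℤ) ∣ m) (hf : ¬ (p : ℤ) ∣ f) :
    Splits ((p * m : ℤ) : ℚ_[p]) ((p * f : ℤ) : ℚ_[p]) ↔ legendreSym p (-(m * f)) = 1 := by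
  have hp0 : (p : ℤ) ≠ 0 := by exact_mod_cast hp.out.ne_zero
  have hf0 : f ≠ 0 := by
    rintro rfl
    exact hf (dvd_zero _)
  have hfK : (f : ℚ_[p]) ≠ 0 := by exact_mod_cast hf0
  have hpf : ((p * f : ℤ) : ℚ_[p]) ≠ 0 := by exact_mod_cast mul_ne_zero hp0 hf0
  have hmf : ¬ (p : ℤ) ∣ -(m * f) := by
    rw [dvd_neg]
    exact fun h => ((Nat.prime_iff_prime_int.1 hp.out).dvd_or_dvd h).elim hm hf
  have e : ((p * m : ℤ) : ℚ_[p]) =
      -(((-(m * f) : ℤ) : ℚ_[p])) * ((p * f : ℤ) : ℚ_[p]) * (1 / (f : ℚ_[p])) ^ 2 := by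
    push_cast
    field_simp
  rw [e, splits_mul_sq (one_div_ne_zero hfK), splits_neg_mul hpf, splits_comm]
  exact Pool.Agent.W335.BMX.odd3 p hp2 f _ hf hmf

/-- an element of `ℚ_p` in terms of an integer -/
theorem rep_z (x : ℚ_[p]) (hx : x ≠ 0) : ∃ (t : ℕ) (m : ℤ) (c : ℚ_[p]), t ≤ 1 ∧ ¬ (p : ℤ) ∣ m ∧
    c ≠ 0 ∧ x = (((p : ℤ) ^ t * m : ℤ) : ℚ_[p]) * c ^ 2 := by
  obtain ⟨t, m, c, h1, h2, h3, h4⟩ := Pool.Agent.W310.BMX.odd4 p x hx
  exact ⟨t, m, c, h1, h2, h3, h4⟩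

theorem pm_ne {t : ℕ} {m : ℤ} (hm : ¬ (p : ℤ) ∣ m) : ((p : ℤ) ^ t * m) ≠ 0 := by
  have hp0 : (p : ℤ) ≠ 0 := by exact_mod_cast hp.out.ne_zero
  refine mul_ne_zero (pow_ne_zero _ hp0) ?_
  rintro rfl
  exact hm (dvd_zero _)

theorem sq_unit (hp2 : p ≠ 2) {m : ℤ} (hm : ¬ (p : ℤ) ∣ m) (h : legendreSym p m = 1) :
    IsSquare ((m : ℤ) : ℚ_[p]) :=
  padic_sq hp2 hm ((legendreSym.eq_one_iff _ (nz_of hm)).1 h)

theorem leg_neg {m : ℤ} (hm : ¬ (p : ℤ) ∣ m) (h : legendreSym p m ≠ 1) : legendreSym p m = -1 :=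
  (legendreSym.eq_one_or_neg_one p (nz_of hm)).resolve_left h

/-- the elements orthogonal to a nonsquare -/
theorem perp (hp2 : p ≠ 2) {t s u : ℕ} {m e f : ℤ} (ht : t ≤ 1) (hs : s ≤ 1) (hu : u ≤ 1)
    (hm : ¬ (p : ℤ) ∣ m) (he : ¬ (p : ℤ) ∣ e) (hf : ¬ (p : ℤ) ∣ f)
    (h1 : Splits (((p : ℤ) ^ t * m : ℤ) : ℚ_[p]) (((p : ℤ) ^ u * f : ℤ) : ℚ_[p]))
    (h2 : Splits (((p : ℤ) ^ s * e : ℤ) : ℚ_[p]) (((p : ℤ) ^ u * f : ℤ) : ℚ_[p]))
    (hz : ¬ IsSquare (((p : ℤ) ^ s * e : ℤ) : ℚ_[p]))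
    (hw : ¬ IsSquare (((p : ℤ) ^ u * f : ℤ) : ℚ_[p])) :
    IsSquare (((p : ℤ) ^ t * m : ℤ) : ℚ_[p]) ∨
      IsSquare ((((p : ℤ) ^ t * m) * ((p : ℤ) ^ s * e) : ℤ) : ℚ_[p]) := by
  have hme : ¬ (p : ℤ) ∣ m * e := fun h =>
    ((Nat.prime_iff_prime_int.1 hp.out).dvd_or_dvd h).elim hm he
  interval_cases u
  · rw [pow_zero, one_mul] at h1 h2 hw
    have hlf : legendreSym p f ≠ 1 := fun h => hw (sq_unit hp2 hf h)
    have ht0 : t = 0 := by
      interval_cases t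
      · rfl
      · exfalso
        rw [pow_one] at h1
        exact hlf ((Pool.Agent.W335.BMX.odd3 p hp2 m f hm hf).1 h1)
    have hs0 : s = 0 := by
      interval_cases s
      · rfl
      · exfalso
        rw [pow_one] at h2
        exact hlf ((Pool.Agent.W335.BMX.odd3 p hp2 e f he hf).1 h2)
    subst ht0 hs0
    rw [pow_zero, one_mul, one_mul] at *
    have hle : legendreSym p e ≠ 1 := fun h => hz (sq_unit hp2 he h)
    by_cases hlm : legendreSym p m = 1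
    · exact Or.inl (sq_unit hp2 hm hlm)
    · right
      refine sq_unit hp2 hme ?_
      rw [legendreSym.mul, leg_neg hm hlm, leg_neg he hle]
      norm_num
  · rw [pow_one] at h1 h2 hw
    interval_cases t
    · left
      rw [pow_zero, one_mul] at h1 ⊢
      rw [splits_comm] at h1
      exact sq_unit hp2 hm ((Pool.Agent.W335.BMX.odd3 p hp2 f m hf hm).1 h1)
    · rw [pow_one] at h1
      interval_cases s
      · exfalso
        rw [pow_zero, one_mul] at h2 hz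
        rw [splits_comm] at h2
        exact hz (sq_unit hp2 he ((Pool.Agent.W335.BMX.odd3 p hp2 f e hf he).1 h2))
      · right
        rw [pow_one] at h2 ⊢
        have k1 := (sp_pp hp2 hm hf).1 h1
        have k2 := (sp_pp hp2 he hf).1 h2
        have k3 : legendreSym p (m * e) = 1 := by
          have k4 : legendreSym p (-(m * f) * -(e * f)) = 1 := by
            rw [legendreSym.mul, k1, k2, one_mul]
          have k5 : -(m * f) * -(e * f) = (m * e) * f ^ 2 := by ring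
          rw [k5, legendreSym.mul, legendreSym.sq_one' p (nz_of hf), mul_one] at k4
          exact k4
        obtain ⟨q, hq⟩ := sq_unit hp2 hme k3
        refine ⟨p * q, ?_⟩
        push_cast at hq ⊢
        linear_combination (p : ℚ_[p]) ^ 2 * hq

/-- **local images of order two** -/
theorem card_two_p (hp2 : p ≠ 2) {A B z w : ℤ} (hB : B ≠ 0) (hC : A ^ 2 - 4 * B ≠ 0)
    (hz0 : z ≠ 0) (hw0 : w ≠ 0) (hz : Loc ℚ_[p] A B z)
    (hw : Loc ℚ_[p] (-2 * A) (A ^ 2 - 4 * B) w) (hzn : ¬ IsSquare ((z : ℤ) : ℚ_[p]))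
    (hwn : ¬ IsSquare ((w : ℤ) : ℚ_[p])) : Nat.card (im ℚ_[p] A B) = 2 := by
  have hzK : ((z : ℤ) : ℚ_[p]) ≠ 0 := by exact_mod_cast hz0
  have hwK : ((w : ℤ) : ℚ_[p]) ≠ 0 := by exact_mod_cast hw0
  obtain ⟨s, e, c, hs, he, hc, hze⟩ := rep_z (z : ℚ_[p]) hzK
  obtain ⟨u, f, d, hu, hf, hd, hwf⟩ := rep_z (w : ℚ_[p]) hwK
  have hsq : ∀ {x y k : ℚ_[p]}, k ≠ 0 → x = y * k ^ 2 → (IsSquare x ↔ IsSquare y) := by
    intro x y k hk hxy
    constructor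
    · rintro ⟨q, hq⟩
      refine ⟨q / k, ?_⟩
      field_simp
      rw [← hxy, hq]
      ring
    · rintro ⟨q, hq⟩
      exact ⟨q * k, by rw [hxy, hq]; ring⟩
  have hzn' : ¬ IsSquare (((p : ℤ) ^ s * e : ℤ) : ℚ_[p]) := fun h => hzn ((hsq hc hze).2 h)
  have hwn' : ¬ IsSquare (((p : ℤ) ^ u * f : ℤ) : ℚ_[p]) := fun h => hwn ((hsq hd hwf).2 h)
  have hzL : Loc ℚ_[p] A B ((p : ℤ) ^ s * e) := loc_cls hzK (by exact_mod_cast pm_ne he)
    ⟨(((p : ℤ) ^ s * e : ℤ) : ℚ_[p]) * c, by rw [hze]; ring⟩ hz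
  have hwL : Loc ℚ_[p] (-2 * A) (A ^ 2 - 4 * B) ((p : ℤ) ^ u * f) :=
    loc_cls hwK (by exact_mod_cast pm_ne hf)
    ⟨(((p : ℤ) ^ u * f : ℤ) : ℚ_[p]) * d, by rw [hwf]; ring⟩ hw
  have h2 : (2 : ℚ_[p]) ≠ 0 := two_ne_zero
  have hk2 := orth h2 hzL hwL
  have hz1 : (p : ℤ) ^ s * e ≠ 1 := by
    intro h
    apply hzn'
    rw [h]
    exact ⟨1, by norm_num⟩
  rw [card_im_of {1, (p : ℤ) ^ s * e}]
  · rw [card_insert_of_notMem, card_singleton]
    rw [mem_singleton]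
    exact fun h => hz1 h.symm
  · intro x hx
    simp only [mem_insert, mem_singleton] at hx
    rcases hx with rfl | rfl
    · norm_num
    · exact_mod_cast pm_ne he
  · intro x hx
    simp only [mem_insert, mem_singleton] at hx
    rcases hx with rfl | rfl
    · exact Loc_of_sq hB hC (by norm_num) p (Or.inl ⟨1, by norm_num⟩)
    · exact hzL
  · refine rep_p fun t m ht hm hL => ?_
    rcases perp hp2 ht hs hu hm he hf (orth h2 hL hwL) hk2 hzn' hwn' with h | h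
    · refine ⟨1, by simp, ?_⟩
      rw [mul_one]
      exact h
    · exact ⟨(p : ℤ) ^ s * e, by simp, h⟩
  · intro x hx y hy h
    simp only [mem_insert, mem_singleton] at hx hy
    rcases hx with rfl | rfl <;> rcases hy with rfl | rfl
    · rfl
    · exfalso
      apply hzn'
      rw [Int.cast_one, one_mul] at h
      exact h
    · exfalso
      apply hzn'
      rw [Int.cast_one, mul_one] at h
      exact h
    · rfl

/-- the same for the dual image -/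
theorem card_two_p' (hp2 : p ≠ 2) {A B z w : ℤ} (hB : B ≠ 0) (hC : A ^ 2 - 4 * B ≠ 0)
    (hz0 : z ≠ 0) (hw0 : w ≠ 0) (hz : Loc ℚ_[p] A B z)
    (hw : Loc ℚ_[p] (-2 * A) (A ^ 2 - 4 * B) w) (hzn : ¬ IsSquare ((z : ℤ) : ℚ_[p]))
    (hwn : ¬ IsSquare ((w : ℤ) : ℚ_[p])) :
    Nat.card (im ℚ_[p] (-2 * A) (A ^ 2 - 4 * B)) = 2 := by
  have e1 : (-2 * A) ^ 2 - 4 * (A ^ 2 - 4 * B) = B * 2 ^ 4 := by ring
  have e2 : -2 * (-2 * A) = A * 2 ^ 2 := by ring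
  refine card_two_p hp2 hC ?_ hw0 hz0 hw ?_ hwn hzn
  · rw [e1]
    exact mul_ne_zero hB (by norm_num)
  · rw [e1, e2]
    exact (Loc_scale (s := 2) (by norm_num)).2 hz

/-- the class of the abscissa of a point -/
theorem loc_pt {A B : ℤ} {x y : ℚ_[p]} (hx : x ≠ 0)
    (h : y ^ 2 = x ^ 3 + (A : ℚ_[p]) * x ^ 2 + (B : ℚ_[p]) * x) (hn : ¬ IsSquare x) :
    ∃ z : ℤ, z ≠ 0 ∧ Loc ℚ_[p] A B z ∧ ¬ IsSquare ((z : ℤ) : ℚ_[p]) := by
  obtain ⟨t, m, c, ht, hm, hc, hxe⟩ := rep_z x hx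
  refine ⟨(p : ℤ) ^ t * m, pm_ne hm, ⟨x, y, c, hx, h, hxe⟩, ?_⟩
  rintro ⟨q, hq⟩
  apply hn
  exact ⟨q * c, by rw [hxe, hq]; ring⟩

/-- an element of norm `1 / p` is not a square -/
theorem nsq_norm {x : ℚ_[p]} (h : ‖x‖ = (p : ℝ)⁻¹) : ¬ IsSquare x := by
  rintro ⟨s, hs⟩
  have hp1 : (1 : ℝ) < p := by exact_mod_cast hp.out.one_lt
  have hx0 : x ≠ 0 := by
    rintro rfl
    rw [norm_zero] at h
    have : (0 : ℝ) < (p : ℝ)⁻¹ := inv_pos.2 (by linarith)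
    linarith
  have hs0 : s ≠ 0 := by
    rintro rfl
    rw [mul_zero] at hs
    exact hx0 hs
  rw [hs, norm_mul, Padic.norm_eq_zpow_neg_valuation hs0, ← zpow_add₀ (by linarith), ← zpow_neg_one] at h
  have h1 := zpow_right_injective₀ (by linarith : (0 : ℝ) < p) hp1.ne' h
  omega

end Q44.BP
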