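import Pool.Agent.Q44.BM.ASY
import Pool.Agent.Q44.BM.FEW
import Pool.Agent.Q44.BP.Key

/-!
# The final asymptotics with many large primes in every class (after `Pool.Agent.Q44.BM.ASY`)
-/

set_option autoImplicit false

open scoped Classical
open Finset Filter

namespace Q44.BP

open Q44.BM (Fam SS RR Nd HM Ok sml_many sml_cut sml_coll sml_bad cmp2 FF mem_FF sml_small sml_few0)
open Pool.Agent.Y703.CX (sm la jj XX eL zz kk S_SIE eL_tendsto logX_eq rpow_eL HH NN ev_eL one_le_exp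
  HH_ge HH_le HH_pos kk_ge kk_le X_pos one_add_log lin_le kap zz_ge zz_pos kap_nonneg kap_pow kap_le)
open Pool.Agent.Y703.CQ (Sml sml_of sml_add sml_rpow)
open Pool.Agent.Y687.JQ (sml_mainJ sml_sum)

/-- the labels are not degenerate and there are many primes in the classes, a large multiple of the
number of the small primes -/
def NdK (Φ : Fam) {I : Type} (cl : I → ℕ → Prop) (R : ℕ) (S₀ S₁ : Finset ℕ) : Prop :=
  Nd Φ S₀ S₁ ∧ ∀ i, R * (S₀.card + 1) ≤ (S₁.filter fun p => cl i p).card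

/-- **few sets have few large primes of a class with many primes** -/
theorem sml_fewK {Φ : Fam} {δ : ℝ} (hΦ : Ok Φ δ) {w : ℕ → Prop} (hw : ∀ p, w p → Φ.P p)
    (hm : HM w) (R : ℕ) : Sml (1 - δ) fun X => (((SS Φ X).filter fun S =>
      ((la (zz X) S).filter fun p => w p).card < R * ((sm (zz X) S).card + 1)).card : ℝ) := by
  obtain ⟨θ, C₀, hθ, hm⟩ := hm
  have hR1 : (0 : ℝ) < R + 1 := by positivity
  have h1 := sml_add (sml_small Φ hΦ.pos (η := θ / (12 * (R + 1))) (by positivity))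
    (sml_few0 hΦ hw hθ hm)
  intro ε hε
  filter_upwards [h1 ε hε, eL_tendsto.eventually (eventually_ge_atTop (max 2 (12 * R / θ)))]
    with X hX h8
  have h9 : 2 ≤ eL X := (le_max_left _ _).trans h8
  have h10 : 12 * R / θ ≤ eL X := (le_max_right _ _).trans h8
  rw [div_le_iff₀ hθ] at h10
  refine le_trans ?_ hX
  have h11 : ((SS Φ X).filter fun S => ((la (zz X) S).filter fun p => w p).card <
      R * ((sm (zz X) S).card + 1)) ⊆
      ((SS Φ X).filter fun S => θ / (12 * (R + 1)) * eL X < ((sm (zz X) S).card : ℝ)) ∪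
        FF Φ.P (fun S => ((la (zz X) S).filter fun p => w p).card ≤ ⌊θ / 4 * eL X⌋₊) X := by
    intro S hS
    rw [mem_filter] at hS
    rw [mem_union, mem_filter]
    by_cases hc : θ / (12 * (R + 1)) * eL X < ((sm (zz X) S).card : ℝ)
    · exact Or.inl ⟨hS.1, hc⟩
    · right
      rw [not_lt] at hc
      have h2 := hS.1
      unfold SS at h2
      rw [mem_filter, mem_powerset] at h2
      rw [mem_FF]
      refine ⟨h2.1, h2.2.1, h2.2.2, ?_⟩
      apply Nat.le_floor
      have h12 : ((((la (zz X) S).filter fun p => w p).card : ℕ) : ℝ) ≤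
          R * (((sm (zz X) S).card : ℝ) + 1) := by
        exact_mod_cast hS.2.le
      have h13 : (R : ℝ) * ((sm (zz X) S).card : ℝ) ≤ θ / 12 * eL X := by
        calc (R : ℝ) * ((sm (zz X) S).card : ℝ) ≤ (R + 1) * (θ / (12 * (R + 1)) * eL X) := by
              have h0 : (0 : ℝ) ≤ ((sm (zz X) S).card : ℝ) := Nat.cast_nonneg _
              nlinarith
          _ = θ / 12 * eL X := by
              field_simp
      linarith
  exact_mod_cast (card_le_card h11).trans (card_union_le _ _)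

/-- the sets with few large primes of a class -/
noncomputable def few (Φ : Fam) (X z R : ℕ) (w : ℕ → Prop) : Finset (Finset ℕ) :=
  (SS Φ X).filter fun S => ((la z S).filter fun p => w p).card < R * ((sm z S).card + 1)

/-- the sets outside the regular part -/
theorem out_sub {I : Type} [Fintype I] (Φ : Fam) (cl : I → ℕ → Prop) (X z H k R : ℕ) :
    SS Φ X \ ((RR Φ X z H k).filter fun S => NdK Φ cl R (sm z S) (la z S)) ⊆
      (((((SS Φ X).filter fun S => k < S.card) ∪
      ((SS Φ X).filter fun S => S.card ≤ k ∧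
        X < (∏ p ∈ sm z S, p) * ∏ p ∈ la z S, XX H (jj H p))) ∪
      ((SS Φ X).filter fun S => ¬ Set.InjOn (jj H) (la z S : Set ℕ))) ∪
      ((SS Φ X).filter fun S => S.card ≤ k ∧ ¬ Nd Φ (sm z S ∪ ∅) (la z S))) ∪
      univ.biUnion fun e => few Φ X z R (cl e) := by
  intro S hS
  rw [Finset.mem_sdiff, Finset.mem_filter] at hS
  obtain ⟨h1, h2⟩ := hS
  by_contra hc
  rw [mem_union, mem_union, mem_union, mem_union] at hc
  simp only [few, mem_filter, mem_biUnion] at hc
  push Not at hc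
  obtain ⟨⟨⟨⟨c1, c2⟩, c3⟩, c5⟩, c6⟩ := hc
  have d1 : S.card ≤ k := c1 h1
  have d2 := c2 h1 d1
  have d3 := c3 h1
  have d5 := c5 h1 d1
  rw [union_empty] at d5
  apply h2
  refine ⟨?_, d5, fun i => c6 i (mem_univ _) h1⟩
  unfold RR
  rw [mem_filter]
  exact ⟨h1, d3, d1, d2⟩

/-- **the law on the sets of primes** -/
theorem t_DQ {Φ : Fam} {δ : ℝ} (hΦ : Ok Φ δ) {I : Type} [Fintype I] (cl : I → ℕ → Prop)
    (hcl : ∀ i p, cl i p → Φ.P p) (hHM : ∀ i, HM (cl i)) (G1 Gd : Finset ℕ → Prop) (c : ℝ) (K : ℕ)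
    (hBX : ∀ ε : ℝ, 0 < ε → ∃ R, BX Φ (NdK Φ cl R) G1 Gd c ε K) :
    Tendsto (fun X : ℕ => ((((SS Φ X).filter fun S => G1 S ∧ Gd S).card : ℝ) -
      c * (((SS Φ X).filter G1).card : ℝ)) / ((SS Φ X).card : ℝ)) atTop (nhds 0) := by
  obtain ⟨c₀, X₀, hc, hlow⟩ := hΦ.low
  have hdp := hΦ.pos
  rw [Metric.tendsto_nhds]
  intro ε hε
  obtain ⟨C, hC1, hkey⟩ := t_KEY
  obtain ⟨R, hR⟩ := hBX (ε / 4) (by linarith)
  have s1 := sml_many Φ (t := 1 - δ) (by linarith)
  have s2 := sml_cut Φ (t := 1 - δ) (by linarith)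
  have s3 := sml_coll Φ (t := 1 - δ) (by linarith)
  have s5 := sml_bad hΦ (E := ∅) fun u hu => absurd hu (Finset.notMem_empty u)
  have s6 := sml_mainJ hC1 (t := 1 - δ) (by linarith)
  have s7 : Sml (1 - δ) fun X => ∑ e ∈ (univ : Finset I),
      ((few Φ X (zz X) R (cl e)).card : ℝ) := by
    refine sml_sum _ _ fun e he => ?_
    exact sml_fewK hΦ (hcl e) (hHM e) R
  have s := sml_add (sml_add (sml_add (sml_add s1 s2) s3) s5) s7
  have hc1 : 0 < 1 + |c| := by positivity
  have hδ : (0 : ℝ) < c₀ * ε / (4 * (1 + |c|)) := by positivity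
  have hδ' : (0 : ℝ) < c₀ * ε / 4 := by positivity
  have hkt : ∀ n : ℕ, ∀ᶠ X : ℕ in atTop, n ≤ kk X := by
    intro n
    filter_upwards [ev_eL (n + 1)] with X hX
    have h2 := kk_ge X
    have h0 : (0 : ℝ) ≤ n := Nat.cast_nonneg _
    have : (n : ℝ) ≤ kk X := by linarith
    exact_mod_cast this
  filter_upwards [s _ hδ, s6 _ hδ', ev_eL 1, eventually_ge_atTop X₀, hkt K] with X hX hX6 hl hX0 hkK
  have hl0 : 0 < eL X := by linarith
  have hlo := hlow X hX0
  have e00 : (-1 + δ : ℝ) = -(1 - δ) := by ring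
  rw [e00, rpow_eL hl0] at hlo
  have hXp := X_pos hl0
  have hXp' : (0 : ℝ) < X := by exact_mod_cast hXp
  have hSpos : (0 : ℝ) < ((SS Φ X).card : ℝ) := by
    refine lt_of_lt_of_le ?_ hlo
    positivity
  have hN : (HH X : ℝ) * Real.log X < NN X := by
    unfold NN
    push_cast
    exact Nat.lt_floor_add_one _
  have hmain := hkey Φ (NdK Φ cl R) G1 Gd c (ε / 4) K (by linarith) hR X (zz X) (HH X) (kk X) (NN X)
    (kap C X) hkK hXp (HH_pos hl0) (zz_pos hl) (kap_nonneg hC1 X) (kap_pow hC1 hl) hN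
  set T := (RR Φ X (zz X) (HH X) (kk X)).filter fun S =>
    NdK Φ cl R (sm (zz X) S) (la (zz X) S) with hT
  have hTG : (RR Φ X (zz X) (HH X) (kk X)).filter
      (fun S => (NdK Φ cl R (sm (zz X) S) (la (zz X) S) ∧ G1 S) ∧ Gd S) =
        T.filter fun S => G1 S ∧ Gd S := by
    rw [hT, filter_filter]
    refine filter_congr fun S _ => ?_
    tauto
  have hTG2 : (RR Φ X (zz X) (HH X) (kk X)).filter
      (fun S => NdK Φ cl R (sm (zz X) S) (la (zz X) S) ∧ G1 S) = T.filter G1 := by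
    rw [hT, filter_filter]
  rw [hTG, hTG2] at hmain
  have hTS : T ⊆ SS Φ X := (filter_subset _ _).trans (filter_subset _ _)
  have hRS : ((RR Φ X (zz X) (HH X) (kk X)).card : ℝ) ≤ ((SS Φ X).card : ℝ) := by
    exact_mod_cast card_le_card (filter_subset _ _)
  have hcmp := cmp2 (P := fun S => G1 S ∧ Gd S) (Q := G1) T (SS Φ X) hTS c
  have hout : ((SS Φ X \ T).card : ℝ) ≤
      ((((SS Φ X).filter fun S => kk X < S.card).card : ℝ) +
      (((SS Φ X).filter fun S => S.card ≤ kk X ∧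
        X < (∏ p ∈ sm (zz X) S, p) * ∏ p ∈ la (zz X) S, XX (HH X) (jj (HH X) p)).card : ℝ) +
      (((SS Φ X).filter fun S => ¬ Set.InjOn (jj (HH X)) (la (zz X) S : Set ℕ)).card : ℝ) +
      (((SS Φ X).filter fun S => S.card ≤ kk X ∧
        ¬ Nd Φ (sm (zz X) S ∪ ∅) (la (zz X) S)).card : ℝ)) +
      ∑ e ∈ (univ : Finset I), ((few Φ X (zz X) R (cl e)).card : ℝ) := by
    have g := card_le_card (out_sub Φ cl X (zz X) (HH X) (kk X) R)
    rw [← hT] at g
    have g3 := Finset.card_biUnion_le (s := (univ : Finset I))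
      (t := fun e => few Φ X (zz X) R (cl e))
    have g2 := ((g.trans (card_union_le _ _)).trans (Nat.add_le_add_right
      ((card_union_le _ _).trans (Nat.add_le_add_right ((card_union_le _ _).trans
      (Nat.add_le_add_right (card_union_le _ _) _)) _)) _)).trans (Nat.add_le_add_left g3 _)
    exact_mod_cast g2
  have hout' : (1 + |c|) * ((SS Φ X \ T).card : ℝ) ≤
      c₀ * ε / 4 * (X * Real.exp (-(1 - δ) * eL X)) := by
    have g1 := mul_le_mul_of_nonneg_left (hout.trans hX) hc1.le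
    refine g1.trans (le_of_eq ?_)
    field_simp
  have htot : |(((SS Φ X).filter fun S => G1 S ∧ Gd S).card : ℝ) -
      c * (((SS Φ X).filter G1).card : ℝ)| ≤
      ε / 4 * ((SS Φ X).card : ℝ) +
        2 * (c₀ * ε / 4 * (X * Real.exp (-(1 - δ) * eL X))) := by
    have g1 : ε / 4 * ((RR Φ X (zz X) (HH X) (kk X)).card : ℝ) ≤
        ε / 4 * ((SS Φ X).card : ℝ) := mul_le_mul_of_nonneg_left hRS (by positivity)
    linarith
  rw [Real.dist_eq, sub_zero, abs_div, abs_of_pos hSpos, div_lt_iff₀ hSpos]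
  refine lt_of_le_of_lt htot ?_
  have g2 : c₀ * ε / 4 * (X * Real.exp (-(1 - δ) * eL X)) ≤ ε / 4 * ((SS Φ X).card : ℝ) := by
    calc c₀ * ε / 4 * (X * Real.exp (-(1 - δ) * eL X)) =
          ε / 4 * (c₀ * X * Real.exp (-(1 - δ) * eL X)) := by ring
      _ ≤ _ := mul_le_mul_of_nonneg_left hlo (by linarith)
  have g4 : 0 < ε * ((SS Φ X).card : ℝ) := by positivity
  linarith

end Q44.BP
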