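import Pool.Agent.Q44.BC.LA2

/-!
# A joint law is determined by the joint moments
-/

set_option autoImplicit false

open scoped Classical

namespace Q44.BP

open Finset Filter Topology
open Pool.Agent.Y697.PQ
open Q283.GM (ij_self cf_le_one ij_self_pos qq qq_even qq_odd)
open Q44.BC (lam gx summ_gx ij_self_ge)

/-- the coefficients of the polynomial -/
noncomputable def qc (r j : ℕ) : ℝ := (-1) ^ j * cf j * (2 ^ (r * j))⁻¹ / ij r (2 ^ r)

theorem qq_qc (r I : ℕ) (x : ℝ) : qq r I x = ∑ j ∈ range (I + 1), qc r j * ij (r + j) x := by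
  unfold qq qc
  rw [Finset.sum_div]
  exact Finset.sum_congr rfl fun j _ => by ring

theorem qc_le (r j : ℕ) : |qc r j| ≤ 1 := by
  have hij := ij_self_ge r
  have hcj := cf_pos j
  have hp : (0 : ℝ) < (2 ^ (r * j))⁻¹ := by positivity
  unfold qc
  rw [abs_div, abs_mul, abs_mul, abs_pow, abs_neg, abs_one, one_pow, one_mul,
    abs_of_pos hcj, abs_of_pos hp, abs_of_pos (show 0 < ij r (2 ^ r) by linarith),
    div_le_one (by linarith)]
  refine le_trans ?_ hij
  refine mul_le_one₀ (cf_le_one j) hp.le ?_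
  exact inv_le_one_of_one_le₀ (one_le_pow₀ (by norm_num))

/-- the mean of the polynomial -/
noncomputable def Qm (t : ℝ) (r I : ℕ) : ℝ := ∑ j ∈ range (I + 1), qc r j * t ^ (r + j)

theorem Qm_tendsto (t : ℝ) (r : ℕ) : Tendsto (fun I => Qm t r I) atTop (𝓝 (lam t r)) := by
  have h1 := (summ_gx (t / 2 ^ r)).hasSum.tendsto_sum_nat
  have h2 := (h1.comp (tendsto_add_atTop_nat 1)).const_mul (t ^ r / ij r (2 ^ r))
  refine h2.congr fun I => ?_
  unfold Qm
  rw [Function.comp_apply, Finset.mul_sum]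
  refine Finset.sum_congr rfl fun j _ => ?_
  unfold qc
  rw [div_pow, ← pow_mul, pow_add]
  have h3 : ij r (2 ^ r) ≠ 0 := by linarith [ij_self_ge r]
  field_simp

variable {K : Type} [Fintype K]

/-- the sum of a product of polynomials -/
theorem sum_prod {α : Type} (s : Finset α) (x : K → α → ℝ) (t : K → ℝ) (r I : K → ℕ) {J : ℕ}
    {δ : ℝ} (hI : ∀ k, r k + I k ≤ J)
    (h : ∀ j : K → ℕ, (∀ k, j k ≤ J) →
      |∑ a ∈ s, ∏ k, ij (j k) (x k a) - (∏ k, t k ^ j k) * s.card| ≤ δ) :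
    |∑ a ∈ s, ∏ k, qq (r k) (I k) (x k a) - (∏ k, Qm (t k) (r k) (I k)) * s.card| ≤
      (J + 1) ^ Fintype.card K * δ := by
  have hδ : 0 ≤ δ := (abs_nonneg _).trans (h (fun _ => 0) fun _ => Nat.zero_le _)
  have e1 : ∀ a, ∏ k, qq (r k) (I k) (x k a) =
      ∑ j ∈ Fintype.piFinset fun k => range (I k + 1),
        (∏ k, qc (r k) (j k)) * ∏ k, ij (r k + j k) (x k a) := by
    intro a
    rw [Finset.prod_congr rfl fun k _ => qq_qc (r k) (I k) (x k a), Finset.prod_univ_sum]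
    exact Finset.sum_congr rfl fun j _ => Finset.prod_mul_distrib
  have e2 : (∏ k, Qm (t k) (r k) (I k)) = ∑ j ∈ Fintype.piFinset fun k => range (I k + 1),
        (∏ k, qc (r k) (j k)) * ∏ k, t k ^ (r k + j k) := by
    unfold Qm
    rw [Finset.prod_univ_sum]
    exact Finset.sum_congr rfl fun j _ => Finset.prod_mul_distrib
  have e3 : ∑ a ∈ s, ∏ k, qq (r k) (I k) (x k a) =
      ∑ j ∈ Fintype.piFinset fun k => range (I k + 1),
        (∏ k, qc (r k) (j k)) * ∑ a ∈ s, ∏ k, ij (r k + j k) (x k a) := by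
    rw [Finset.sum_congr rfl fun a _ => e1 a, Finset.sum_comm]
    exact Finset.sum_congr rfl fun j _ => (Finset.mul_sum _ _ _).symm
  rw [e3, e2, Finset.sum_mul, ← Finset.sum_sub_distrib]
  refine (Finset.abs_sum_le_sum_abs _ _).trans ?_
  have e4 : ∀ j ∈ Fintype.piFinset fun k => range (I k + 1),
      |(∏ k, qc (r k) (j k)) * ∑ a ∈ s, ∏ k, ij (r k + j k) (x k a) -
        (∏ k, qc (r k) (j k)) * (∏ k, t k ^ (r k + j k)) * s.card| ≤ δ := by
    intro j hj
    rw [Fintype.mem_piFinset] at hj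
    have h1 := h (fun k => r k + j k) fun k => by
      have := hj k
      rw [Finset.mem_range] at this
      have := hI k
      show r k + j k ≤ J
      omega
    rw [mul_assoc, ← mul_sub, abs_mul]
    have h2 : |∏ k, qc (r k) (j k)| ≤ 1 := by
      rw [Finset.abs_prod]
      exact Finset.prod_le_one (fun k _ => abs_nonneg _) fun k _ => qc_le _ _
    calc _ ≤ 1 * δ := mul_le_mul h2 h1 (abs_nonneg _) zero_le_one
      _ = δ := one_mul _
  refine (Finset.sum_le_sum e4).trans ?_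
  rw [Finset.sum_const, nsmul_eq_mul]
  refine mul_le_mul_of_nonneg_right ?_ hδ
  rw [Fintype.card_piFinset]
  push_cast
  calc ∏ k, (((range (I k + 1)).card : ℕ) : ℝ) ≤ ∏ _k : K, ((J : ℝ) + 1) := by
        refine Finset.prod_le_prod (fun k _ => Nat.cast_nonneg _) fun k _ => ?_
        rw [Finset.card_range]
        have : (I k : ℝ) ≤ J := by exact_mod_cast (show I k ≤ J by have := hI k; omega)
        push_cast
        linarith
    _ = ((J : ℝ) + 1) ^ Fintype.card K := by rw [Finset.prod_const, Finset.card_univ]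

/-- the product between the products of the bounds -/
theorem prod_low {K : Type} [DecidableEq K] (S : Finset K) (u L U : K → ℝ) (h0 : ∀ k, 0 ≤ u k)
    (h1 : ∀ k, L k ≤ u k) (h2 : ∀ k, u k ≤ U k) :
    ∏ k ∈ S, U k - ∏ k ∈ S, u k ≤ ∑ k ∈ S, (U k - L k) * ∏ l ∈ S.erase k, U l := by
  induction S using Finset.induction_on with
  | empty => simp
  | insert m S hm ih =>
    rw [Finset.prod_insert hm, Finset.prod_insert hm, Finset.sum_insert hm,
      Finset.erase_insert hm]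
    have hU0 : 0 ≤ U m := (h0 m).trans (h2 m)
    have e1 : ∑ k ∈ S, (U k - L k) * ∏ l ∈ (insert m S).erase k, U l =
        U m * ∑ k ∈ S, (U k - L k) * ∏ l ∈ S.erase k, U l := by
      rw [Finset.mul_sum]
      refine Finset.sum_congr rfl fun k hk => ?_
      have hkm : k ≠ m := fun h => hm (h ▸ hk)
      rw [Finset.erase_insert_of_ne hkm.symm, Finset.prod_insert (fun h => hm (Finset.mem_erase.1 h).2)]
      ring
    rw [e1]
    have h3 := mul_le_mul_of_nonneg_left ih hU0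
    have h4 : ∏ k ∈ S, u k ≤ ∏ k ∈ S, U k := Finset.prod_le_prod (fun k _ => h0 k) fun k _ => h2 k
    have h5 : 0 ≤ ∏ k ∈ S, u k := Finset.prod_nonneg fun k _ => h0 k
    have h6 : (U m - u m) * ∏ k ∈ S, u k ≤ (U m - L m) * ∏ k ∈ S, U k := by
      refine mul_le_mul ?_ h4 h5 ?_
      · linarith [h1 m]
      · linarith [h1 m, h2 m]
    nlinarith

theorem prod_upd (U L : K → ℝ) (k : K) :
    ∏ l, (if l = k then L l else U l) = L k * ∏ l ∈ univ.erase k, U l := by
  rw [← Finset.mul_prod_erase univ _ (mem_univ k), if_pos rfl]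
  congr 1
  refine Finset.prod_congr rfl fun l hl => ?_
  rw [if_neg (Finset.mem_erase.1 hl).1]

/-- **the joint law is determined by the joint moments** -/
theorem jlaw (t : K → ℝ) (r : K → ℕ) {ε : ℝ} (hε : 0 < ε) :
    ∃ (J : ℕ) (δ : ℝ), 0 < δ ∧ ∀ (α : Type) (s : Finset α) (d : K → α → ℕ),
      (∀ j : K → ℕ, (∀ k, j k ≤ J) →
        |∑ a ∈ s, ∏ k, ij (j k) (2 ^ d k a) - (∏ k, t k ^ j k) * s.card| ≤ δ * s.card) →
      |((s.filter fun a => ∀ k, d k a = r k).card : ℝ) - (∏ k, lam (t k) (r k)) * s.card| ≤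
        ε * s.card := by
  set Λ : ℝ := ∏ k, lam (t k) (r k) with hΛ
  -- the limits
  have hQ : ∀ k, Tendsto (fun I => Qm (t k) (r k) I) atTop (𝓝 (lam (t k) (r k))) :=
    fun k => Qm_tendsto (t k) (r k)
  have hQ1 : ∀ k, Tendsto (fun I => Qm (t k) (r k) (I + 1)) atTop (𝓝 (lam (t k) (r k))) :=
    fun k => (hQ k).comp (tendsto_add_atTop_nat 1)
  have hup : Tendsto (fun I => ∏ k, Qm (t k) (r k) (I + 1)) atTop (𝓝 Λ) :=
    tendsto_finsetProd _ fun k _ => hQ1 k
  have hlo : Tendsto (fun I => ∑ k, ∏ l, (if l = k then Qm (t l) (r l) I else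
      Qm (t l) (r l) (I + 1)) - ((Fintype.card K : ℝ) - 1) * ∏ k, Qm (t k) (r k) (I + 1))
      atTop (𝓝 Λ) := by
    have h1 : Tendsto (fun I => ∑ k, ∏ l, (if l = k then Qm (t l) (r l) I else
      Qm (t l) (r l) (I + 1))) atTop (𝓝 (∑ _k : K, Λ)) := by
      refine tendsto_finsetSum _ fun k _ => tendsto_finsetProd _ fun l _ => ?_
      by_cases hlk : l = k
      · simp only [hlk, if_true]
        exact hQ k
      · simp only [hlk, if_false]
        exact hQ1 l
    have h2 := h1.sub (hup.const_mul ((Fintype.card K : ℝ) - 1))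
    have h3 : ∑ _k : K, Λ - ((Fintype.card K : ℝ) - 1) * Λ = Λ := by
      rw [Finset.sum_const, Finset.card_univ, nsmul_eq_mul]
      ring
    rwa [h3] at h2
  have hev := (hup.eventually (Metric.ball_mem_nhds Λ (half_pos hε))).and
    (hlo.eventually (Metric.ball_mem_nhds Λ (half_pos hε)))
  obtain ⟨n₀, hn₀⟩ := eventually_atTop.1 hev
  set I₀ : ℕ := 2 * n₀ + 1 with hI₀
  have hIo : Odd I₀ := ⟨n₀, hI₀⟩
  have hIe : Even (I₀ + 1) := hIo.add_one
  obtain ⟨hu0, hl0⟩ := hn₀ I₀ (by omega)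
  rw [Real.dist_eq] at hu0 hl0
  set J : ℕ := ∑ k, r k + I₀ + 1 with hJ
  have hrJ : ∀ k, r k ≤ ∑ k, r k := fun k => Finset.single_le_sum (fun _ _ => Nat.zero_le _) (mem_univ k)
  set C : ℝ := (J + 1) ^ Fintype.card K with hC
  have hC0 : 0 < C := by positivity
  set δ : ℝ := ε / (2 * (2 * Fintype.card K + 2) * C) with hδ
  have hδ0 : 0 < δ := by positivity
  refine ⟨J, δ, hδ0, ?_⟩
  intro α s d hm
  set n : ℝ := (s.card : ℝ) with hn
  have hn0 : 0 ≤ n := Nat.cast_nonneg _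
  have key := fun I : K → ℕ => fun hI : ∀ k, r k + I k ≤ J =>
    sum_prod s (fun k a => (2 : ℝ) ^ d k a) t r I hI hm
  have hmainU := key (fun _ => I₀ + 1) fun k => by
    have := hrJ k
    show r k + (I₀ + 1) ≤ J
    omega
  have hmainL := fun m : K => key (fun k => if k = m then I₀ else I₀ + 1) fun k => by
    have := hrJ k
    show r k + (if k = m then I₀ else I₀ + 1) ≤ J
    split_ifs <;> omega
  have hcnt : ((s.filter fun a => ∀ k, d k a = r k).card : ℝ) =
      ∑ a ∈ s, ∏ k, (if d k a = r k then (1 : ℝ) else 0) := by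
    rw [Finset.card_filter]
    push_cast
    refine Finset.sum_congr rfl fun a _ => ?_
    by_cases h : ∀ k, d k a = r k
    · rw [if_pos h, Finset.prod_eq_one fun k _ => if_pos (h k)]
    · rw [if_neg h]
      push Not at h
      obtain ⟨k, hk⟩ := h
      rw [Finset.prod_eq_zero (mem_univ k) (if_neg hk)]
  -- upper bound
  have hU : ∀ a, ∏ k, (if d k a = r k then (1 : ℝ) else 0) ≤ ∏ k, qq (r k) (I₀ + 1) (2 ^ d k a) := by
    intro a
    refine Finset.prod_le_prod (fun k _ => ?_) fun k _ => qq_even hIe _ _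
    split_ifs <;> norm_num
  have hL : ∀ a, ∑ m, ∏ k, qq (r k) (if k = m then I₀ else I₀ + 1) (2 ^ d k a) -
      ((Fintype.card K : ℝ) - 1) * ∏ k, qq (r k) (I₀ + 1) (2 ^ d k a) ≤
      ∏ k, (if d k a = r k then (1 : ℝ) else 0) := by
    intro a
    have h1 := prod_low (univ : Finset K) (fun k => if d k a = r k then (1 : ℝ) else 0)
      (fun k => qq (r k) I₀ (2 ^ d k a)) (fun k => qq (r k) (I₀ + 1) (2 ^ d k a))
      (fun k => by split_ifs <;> norm_num) (fun k => qq_odd hIo _ _) (fun k => qq_even hIe _ _)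
    have h2 : ∀ m : K, ∏ k, qq (r k) (if k = m then I₀ else I₀ + 1) (2 ^ d k a) =
        qq (r m) I₀ (2 ^ d m a) * ∏ l ∈ univ.erase m, qq (r l) (I₀ + 1) (2 ^ d l a) := by
      intro m
      rw [← prod_upd (fun k => qq (r k) (I₀ + 1) (2 ^ d k a)) (fun k => qq (r k) I₀ (2 ^ d k a)) m]
      refine Finset.prod_congr rfl fun k _ => ?_
      by_cases h : k = m
      · rw [if_pos h, if_pos h]
      · rw [if_neg h, if_neg h]
    have h3 : ∀ m : K, ∏ k, qq (r k) (I₀ + 1) (2 ^ d k a) =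
        qq (r m) (I₀ + 1) (2 ^ d m a) * ∏ l ∈ univ.erase m, qq (r l) (I₀ + 1) (2 ^ d l a) :=
      fun m => (Finset.mul_prod_erase univ _ (mem_univ m)).symm
    have h4 : ∑ m : K, (qq (r m) (I₀ + 1) (2 ^ d m a) - qq (r m) I₀ (2 ^ d m a)) *
        ∏ l ∈ univ.erase m, qq (r l) (I₀ + 1) (2 ^ d l a) =
        (Fintype.card K : ℝ) * ∏ k, qq (r k) (I₀ + 1) (2 ^ d k a) -
        ∑ m, ∏ k, qq (r k) (if k = m then I₀ else I₀ + 1) (2 ^ d k a) := by
      rw [Finset.sum_congr rfl fun m _ => show (qq (r m) (I₀ + 1) (2 ^ d m a) -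
        qq (r m) I₀ (2 ^ d m a)) * ∏ l ∈ univ.erase m, qq (r l) (I₀ + 1) (2 ^ d l a) =
        ∏ k, qq (r k) (I₀ + 1) (2 ^ d k a) -
        ∏ k, qq (r k) (if k = m then I₀ else I₀ + 1) (2 ^ d k a) by rw [h2 m, h3 m]; ring,
        Finset.sum_sub_distrib, Finset.sum_const, Finset.card_univ, nsmul_eq_mul]
    simp only at h1
    rw [h4] at h1
    linarith
  have hsU := Finset.sum_le_sum fun a (_ : a ∈ s) => hU a
  have hsL := Finset.sum_le_sum fun a (_ : a ∈ s) => hL a
  rw [Finset.sum_sub_distrib, Finset.sum_comm, ← Finset.mul_sum] at hsL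
  rw [hcnt]
  set W := ∑ a ∈ s, ∏ k, (if d k a = r k then (1 : ℝ) else 0) with hW
  set P1 := ∑ a ∈ s, ∏ k, qq (r k) (I₀ + 1) (2 ^ d k a) with hP1
  set Q1 := ∏ k, Qm (t k) (r k) (I₀ + 1) with hQ1'
  have hsum : |∑ m, ∑ a ∈ s, ∏ k, qq (r k) (if k = m then I₀ else I₀ + 1) (2 ^ d k a) -
      (∑ m, ∏ l, (if l = m then Qm (t l) (r l) I₀ else Qm (t l) (r l) (I₀ + 1))) * n| ≤
      Fintype.card K * (C * (δ * n)) := by
    rw [Finset.sum_mul, ← Finset.sum_sub_distrib]
    refine (Finset.abs_sum_le_sum_abs _ _).trans ?_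
    have h5 : ∀ m ∈ (univ : Finset K), |∑ a ∈ s, ∏ k, qq (r k) (if k = m then I₀ else I₀ + 1) (2 ^ d k a) -
        (∏ l, (if l = m then Qm (t l) (r l) I₀ else Qm (t l) (r l) (I₀ + 1))) * n| ≤
        C * (δ * n) := by
      intro m _
      refine le_trans (le_of_eq ?_) (hmainL m)
      congr 3
      refine Finset.prod_congr rfl fun l _ => ?_
      by_cases h : l = m
      · rw [if_pos h, if_pos h]
      · rw [if_neg h, if_neg h]
    refine (Finset.sum_le_sum h5).trans (le_of_eq ?_)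
    rw [Finset.sum_const, Finset.card_univ, nsmul_eq_mul]
  have hδC : ((2 : ℝ) * Fintype.card K + 2) * (C * (δ * n)) = ε / 2 * n := by
    rw [hδ]
    field_simp
  have hK0 : (0 : ℝ) ≤ Fintype.card K := Nat.cast_nonneg _
  have hCδ : 0 ≤ C * (δ * n) := by positivity
  rw [abs_lt] at hu0 hl0
  rw [abs_le] at hmainU hsum ⊢
  set SQ := ∑ m, ∏ l, (if l = m then Qm (t l) (r l) I₀ else Qm (t l) (r l) (I₀ + 1)) with hSQ
  set SP := ∑ m, ∑ a ∈ s, ∏ k, qq (r k) (if k = m then I₀ else I₀ + 1) (2 ^ d k a) with hSP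
  have hu1 : Q1 * n ≤ (Λ + ε / 2) * n := mul_le_mul_of_nonneg_right (by linarith) hn0
  have hl1 : (Λ - ε / 2) * n ≤ (SQ - ((Fintype.card K : ℝ) - 1) * Q1) * n :=
    mul_le_mul_of_nonneg_right (by linarith) hn0
  have hprod1 : |((Fintype.card K : ℝ) - 1) * (P1 - Q1 * n)| ≤
      (Fintype.card K + 1) * (C * (δ * n)) := by
    rw [abs_mul]
    refine mul_le_mul ?_ (abs_le.2 hmainU) (abs_nonneg _) (by positivity)
    rw [abs_le]
    constructor <;> linarith
  rw [abs_le] at hprod1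
  constructor
  · nlinarith [hprod1.2, hsum.1, hsL, hl1, hδC]
  · nlinarith [hmainU.2, hsU, hu1, hδC, mul_nonneg hK0 hCδ]

end Q44.BP
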