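import Pool.Agent.Q44.BC.LA6

/-!
# The moments of one block system, as means over the coefficients
-/

set_option autoImplicit false
set_option linter.unusedSectionVars false

open scoped Classical

namespace Q44.BP

open Finset Module
open Pool.Agent.Y697.PP (Nd YY mem_YY)
open Pool.Agent.Y697.PQ
open Pool.Agent.Y703.CQ (prs)
open Pool.Agent.Y219.CQ (bf bf_apply bf_l bf_symm mL mL_symm pa pa_surj)
open Q44.BC

/-- the mean of a function of the image of a surjective homomorphism -/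
theorem push_sum {A B : Type} [AddCommGroup A] [AddCommGroup B] [Fintype A] [Fintype B]
    (φ : A →+ B) (hφ : Function.Surjective φ) (f : B → ℝ) :
    (∑ a, f (φ a)) / (Fintype.card A : ℝ) = (∑ b, f b) / (Fintype.card B : ℝ) := by
  set n := (univ.filter fun a => φ a = 0).card with hn
  have h1 : ∀ b, (univ.filter fun a => φ a = b).card = n := fun b =>
    AddMonoidHom.card_fiber_eq_of_mem_range φ (hφ b) (hφ 0)
  have h2 : ∑ a, f (φ a) = n * ∑ b, f b := by
    rw [← Finset.sum_fiberwise_of_maps_to (g := φ) (t := univ) (fun a _ => mem_univ _), Finset.mul_sum]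
    refine Finset.sum_congr rfl fun b _ => ?_
    rw [Finset.sum_congr rfl fun a ha => by rw [(mem_filter.1 ha).2], Finset.sum_const, h1,
      nsmul_eq_mul]
  have h3 : (Fintype.card A : ℝ) = n * Fintype.card B := by
    have h4 : Fintype.card A = n * Fintype.card B := by
      rw [← Finset.card_univ, Finset.card_eq_sum_card_fiberwise (f := φ) (t := univ)
        (fun a _ => mem_coe.2 (mem_univ _)), Finset.sum_congr rfl fun b _ => h1 b,
        Finset.sum_const, Finset.card_univ, smul_eq_mul, mul_comm]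
    exact_mod_cast h4
  have hn0 : (n : ℝ) ≠ 0 := by
    have : 0 < n := Finset.card_pos.2 ⟨0, mem_filter.2 ⟨mem_univ _, map_zero φ⟩⟩
    exact_mod_cast this.ne'
  have hB : (Fintype.card B : ℝ) ≠ 0 := by
    have : 0 < Fintype.card B := Fintype.card_pos_iff.2 ⟨0⟩
    exact_mod_cast this.ne'
  rw [h2, h3, mul_div_mul_left _ _ hn0]

variable {G F : Type} [AddCommGroup G] [Module (ZMod 2) G] [AddCommGroup F] [Module (ZMod 2) F]
  [Finite G] [Finite F]

variable (G F) in
/-- the moments, as means over the coefficients -/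
theorem mom_beta {t : ℝ} (ht : 0 < t) (Jm : ℕ) {δ : ℝ} (hδ : 0 < δ) : ∃ R : ℕ,
    ∀ (U J : Type) [Fintype U] [Fintype J] [LinearOrder J] (D : Dt U J G F), D.Ok →
    (∃ l, l ∉ D.J1) → (Nat.card D.𝓛 : ℝ) = t * Nat.card F →
    2 * Fintype.card U + R ≤ D.J3.card → ∀ j ≤ Jm,
    |(∑ β : prs D.J1 → ZMod 2, ij j (2 ^ finrank (ZMod 2) (D.So β))) /
        2 ^ (prs D.J1).card - t ^ j| ≤ δ := by
  set q : ℝ := Nat.card F * Nat.card G with hq
  have hF0 : (0 : ℝ) < Nat.card F := by exact_mod_cast Nat.card_pos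
  have hG0 : (0 : ℝ) < Nat.card G := by exact_mod_cast Nat.card_pos
  have hF1 : (1 : ℝ) ≤ Nat.card F := by exact_mod_cast Nat.card_pos
  have hq0 : 0 < q := mul_pos hF0 hG0
  set c : ℕ → ℝ := fun j => t ^ j * ((j + 1) * 2 ^ j * 2 ^ (j * (j - 1) / 2)) with hc
  have hc0 : ∀ j, 0 ≤ c j := fun j => by positivity
  set M : ℝ := ∑ j ∈ range (Jm + 1), c j with hM
  have hM0 : 0 ≤ M := Finset.sum_nonneg fun j _ => hc0 j
  have hcM : ∀ j ≤ Jm, c j ≤ M := fun j hj =>
    Finset.single_le_sum (fun i _ => hc0 i) (Finset.mem_range.2 (Nat.lt_succ_of_le hj))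
  obtain ⟨R₀, hR₀⟩ := pow_unbounded_of_one_lt (M * (4 * q / t) / δ) (one_lt_two : (1 : ℝ) < 2)
  refine ⟨R₀ + Jm, ?_⟩
  intro U J _ _ _ D hok hl hcard hJ
  have hf1 : Module.Finite (ZMod 2) G := Module.Finite.of_finite
  have hf2 : Module.Finite (ZMod 2) F := Module.Finite.of_finite
  have hfE : Finite D.E := by
    have : Finite (U → ZMod 2) := Finite.of_fintype _
    have : Finite (D.J1 → ZMod 2) := Finite.of_fintype _
    infer_instance
  have hfN : Fintype D.NN := Fintype.ofFinite _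
  have hfD : Finite (D.J1 → ZMod 2) := Finite.of_fintype _
  have hJ31 : D.J3.card ≤ D.J1.card := Finset.card_filter_le _ _
  have hjf : finrank (ZMod 2) (D.J1 → ZMod 2) = D.J1.card := by
    rw [finrank_fintype_fun_eq_card, Fintype.card_coe]
  set T : ℝ := 2 ^ finrank (ZMod 2) D.NN with hT
  have hT0 : 0 < T := by positivity
  have hratio : T / 2 ^ D.J1.card = t := by
    have h1 := Dt.finrank_NN hok
    have h2 : T * (2 : ℝ) ^ finrank (ZMod 2) F = 2 ^ D.J1.card * 2 ^ finrank (ZMod 2) D.𝓛 := by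
      rw [hT, ← pow_add, ← pow_add, h1]
    have h3 : ((2 : ℝ) ^ finrank (ZMod 2) F) = Nat.card F := by
      rw [Module.natCard_eq_pow_finrank (K := ZMod 2) (V := F), Nat.card_zmod]
      push_cast
      rfl
    have h4 : ((2 : ℝ) ^ finrank (ZMod 2) D.𝓛) = Nat.card D.𝓛 := by
      rw [Module.natCard_eq_pow_finrank (K := ZMod 2) (V := D.𝓛), Nat.card_zmod]
      push_cast
      rfl
    rw [h3, h4, hcard] at h2
    rw [div_eq_iff (by positivity)]
    have h5 : T * Nat.card F = t * 2 ^ D.J1.card * Nat.card F := by linarith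
    exact mul_right_cancel₀ hF0.ne' h5
  -- the exceptional set
  set Z : Finset D.NN := (univ.filter fun w => D.π w = 0) ∪
    (univ.filter fun w => ∀ w', Om D.π D.z w w' = 0) with hZ
  have hZc : (Z.card : ℝ) / T ≤ 4 * q / t / 2 ^ R₀ := by
    have h1 : ((univ.filter fun w : D.NN => D.π w = 0).card : ℝ) ≤
        2 ^ Fintype.card U * Nat.card G := by
      have h2 := D.card_W
      rw [Nat.card_eq_fintype_card, Fintype.card_subtype] at h2
      exact_mod_cast h2
    have h2 : ((univ.filter fun w : D.NN => ∀ w', Om D.π D.z w w' = 0).card : ℝ) *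
        2 ^ D.J3.card ≤ 2 ^ (2 * Fintype.card U + 1 + D.J1.card) * q := by
      have h3 := D.card_rad
      rw [Nat.card_eq_fintype_card, Fintype.card_subtype] at h3
      rw [hq]
      exact_mod_cast h3
    have h3 : (Z.card : ℝ) ≤ (univ.filter fun w : D.NN => D.π w = 0).card +
        (univ.filter fun w : D.NN => ∀ w', Om D.π D.z w w' = 0).card := by
      exact_mod_cast Finset.card_union_le _ _
    have h4 : T = t * 2 ^ D.J1.card := by
      rw [← hratio]
      field_simp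
    have h5 : ((univ.filter fun w : D.NN => ∀ w', Om D.π D.z w w' = 0).card : ℝ) ≤
        2 * q * 2 ^ D.J1.card / 2 ^ R₀ := by
      rw [le_div_iff₀ (by positivity)]
      have h6 : (2 : ℝ) ^ (2 * Fintype.card U) * 2 ^ R₀ ≤ 2 ^ D.J3.card := by
        rw [← pow_add]
        exact pow_le_pow_right₀ (by norm_num) (by omega)
      have h7 : ((univ.filter fun w : D.NN => ∀ w', Om D.π D.z w w' = 0).card : ℝ) *
          (2 ^ (2 * Fintype.card U) * 2 ^ R₀) ≤ 2 ^ (2 * Fintype.card U + 1 + D.J1.card) * q :=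
        (mul_le_mul_of_nonneg_left h6 (Nat.cast_nonneg _)).trans h2
      have h8 : (2 : ℝ) ^ (2 * Fintype.card U + 1 + D.J1.card) * q =
          (2 * q * 2 ^ D.J1.card) * 2 ^ (2 * Fintype.card U) := by
        rw [pow_add, pow_add]
        ring
      rw [h8] at h7
      have h9 : (0 : ℝ) < 2 ^ (2 * Fintype.card U) := by positivity
      have h10 : (((univ.filter fun w : D.NN => ∀ w', Om D.π D.z w w' = 0).card : ℝ) * 2 ^ R₀) *
          2 ^ (2 * Fintype.card U) ≤ (2 * q * 2 ^ D.J1.card) * 2 ^ (2 * Fintype.card U) := by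
        linarith
      exact le_of_mul_le_mul_right h10 h9
    have h6 : (2 : ℝ) ^ Fintype.card U * Nat.card G ≤ q * 2 ^ D.J1.card / 2 ^ R₀ := by
      rw [le_div_iff₀ (by positivity)]
      have h7 : (2 : ℝ) ^ Fintype.card U * 2 ^ R₀ ≤ 2 ^ D.J1.card := by
        rw [← pow_add]
        exact pow_le_pow_right₀ (by norm_num) (by omega)
      have h8 : (Nat.card G : ℝ) ≤ q := by
        rw [hq]
        exact le_mul_of_one_le_left hG0.le hF1
      calc (2 : ℝ) ^ Fintype.card U * Nat.card G * 2 ^ R₀ =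
          Nat.card G * (2 ^ Fintype.card U * 2 ^ R₀) := by ring
        _ ≤ q * 2 ^ D.J1.card := mul_le_mul h8 h7 (by positivity) hq0.le
    have h7 : (Z.card : ℝ) ≤ 4 * q * 2 ^ D.J1.card / 2 ^ R₀ := by
      have h8 : (4 : ℝ) * q * 2 ^ D.J1.card / 2 ^ R₀ = 3 * (q * 2 ^ D.J1.card / 2 ^ R₀) +
          q * 2 ^ D.J1.card / 2 ^ R₀ := by ring
      have h9 : (2 : ℝ) * q * 2 ^ D.J1.card / 2 ^ R₀ = 2 * (q * 2 ^ D.J1.card / 2 ^ R₀) := by
        ring
      have h10 : 0 ≤ q * 2 ^ D.J1.card / 2 ^ R₀ := by positivity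
      rw [h9] at h5
      rw [h8]
      linarith
    rw [div_le_iff₀ hT0, h4]
    refine h7.trans (le_of_eq ?_)
    field_simp
  have hmom : ∀ j ≤ Jm, |∑ Y ∈ YY (⊥ : Submodule (ZMod 2) (D.J1 → ZMod 2)),
      ij j (2 ^ finrank (ZMod 2) (Kr D.π D.z Y)) -
      t ^ j * (YY (⊥ : Submodule (ZMod 2) (D.J1 → ZMod 2))).card| ≤
      δ * (YY (⊥ : Submodule (ZMod 2) (D.J1 → ZMod 2))).card := by
    intro j hj
    have h1 := moment (π := D.π) (z := D.z) (Z := Z) (fun x => Dt.ker0 hok x)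
      (fun x hx => by
        rw [hZ, Finset.mem_union, Finset.mem_filter, Finset.mem_filter]
        exact Or.inr ⟨mem_univ _, hx⟩)
      (fun x hx => by
        rw [hZ, Finset.mem_union, Finset.mem_filter, Finset.mem_filter]
        exact Or.inl ⟨mem_univ _, hx⟩)
      (j := j) (by rw [hjf]; omega)
    rw [hjf, hratio] at h1
    refine h1.trans ?_
    set N : ℝ := ((YY (⊥ : Submodule (ZMod 2) (D.J1 → ZMod 2))).card : ℝ) with hN
    have hN0 : 0 ≤ N := Nat.cast_nonneg _
    have h2 : t ^ j * N * ((j + 1) * 2 ^ j * 2 ^ (j * (j - 1) / 2) * (Z.card / T)) =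
        c j * (Z.card / T) * N := by
      rw [hc]
      ring
    rw [h2]
    apply mul_le_mul_of_nonneg_right _ hN0
    calc c j * (Z.card / T) ≤ M * (4 * q / t / 2 ^ R₀) :=
          mul_le_mul (hcM j hj) hZc (by positivity) hM0
      _ ≤ δ := by
          rw [mul_div_assoc', div_le_iff₀ (by positivity)]
          rw [div_lt_iff₀ hδ] at hR₀
          linarith
  intro j hj
  have h1 := hmom j hj
  have hpos : 0 < ((YY (⊥ : Submodule (ZMod 2) (D.J1 → ZMod 2))).card : ℝ) := by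
    rw [Nat.cast_pos, Finset.card_pos]
    refine ⟨0, mem_YY.2 ⟨fun _ _ => rfl, fun _ _ => rfl⟩⟩
  have h2 : |(∑ Y ∈ YY (⊥ : Submodule (ZMod 2) (D.J1 → ZMod 2)),
      ij j (2 ^ finrank (ZMod 2) (Kr D.π D.z Y))) /
      ((YY (⊥ : Submodule (ZMod 2) (D.J1 → ZMod 2))).card : ℝ) - t ^ j| ≤ δ := by
    rw [div_sub' hpos.ne', abs_div, abs_of_pos hpos, div_le_iff₀ hpos, mul_comm _ (t ^ j)]
    exact h1
  have hmem : ∀ S : LinearMap.BilinForm (ZMod 2) (D.J1 → ZMod 2),
      S ∈ YY (⊥ : Submodule (ZMod 2) (D.J1 → ZMod 2)) ↔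
        S ∈ Pool.Agent.Y219.CQ.Sy (D.J1 → ZMod 2) := by
    intro S
    rw [mem_YY]
    constructor
    · rintro ⟨h, -⟩
      exact h
    · intro h
      refine ⟨h, fun w hw => ?_⟩
      rw [Submodule.mem_bot] at hw
      rw [hw, map_zero]
  have hfS : Finite (Pool.Agent.Y219.CQ.Sy (D.J1 → ZMod 2)) :=
    Finite.of_surjective (pa D.J1) (pa_surj D.J1 hl)
  have hfS' : Fintype (Pool.Agent.Y219.CQ.Sy (D.J1 → ZMod 2)) := Fintype.ofFinite _
  have h3 := push_sum (pa D.J1) (pa_surj D.J1 hl)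
    fun Y => ij j (2 ^ finrank (ZMod 2) (Kr D.π D.z Y.1))
  have hY : YY (⊥ : Submodule (ZMod 2) (D.J1 → ZMod 2)) =
      (univ : Finset (Pool.Agent.Y219.CQ.Sy (D.J1 → ZMod 2))).image Subtype.val := by
    ext S
    rw [hmem, Finset.mem_image]
    exact ⟨fun h => ⟨⟨S, h⟩, mem_univ _, rfl⟩, fun ⟨Y, _, h⟩ => h ▸ Y.2⟩
  have h4 : ∑ Y ∈ YY (⊥ : Submodule (ZMod 2) (D.J1 → ZMod 2)),
      ij j (2 ^ finrank (ZMod 2) (Kr D.π D.z Y)) =
      ∑ Y : Pool.Agent.Y219.CQ.Sy (D.J1 → ZMod 2),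
        ij j (2 ^ finrank (ZMod 2) (Kr D.π D.z Y.1)) := by
    rw [hY, Finset.sum_image fun _ _ _ _ h => Subtype.ext h]
  have h5 : ((YY (⊥ : Submodule (ZMod 2) (D.J1 → ZMod 2))).card : ℝ) =
      Fintype.card (Pool.Agent.Y219.CQ.Sy (D.J1 → ZMod 2)) := by
    rw [hY, Finset.card_image_of_injective _ Subtype.val_injective, Finset.card_univ]
  have h6 : (Fintype.card (prs D.J1 → ZMod 2) : ℝ) = 2 ^ (prs D.J1).card := by
    rw [Fintype.card_fun, ZMod.card, Fintype.card_coe]
    push_cast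
    rfl
  rw [h4, h5, ← h3, h6] at h2
  refine le_trans (le_of_eq ?_) h2
  congr 3
  exact Finset.sum_congr rfl fun β _ => by rw [D.finrank_So β]

end Q44.BP
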