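import Pool.Agent.Q44.BP.Fct
import Pool.Agent.Q44.BP.Mar
import Pool.Agent.Q44.BP.Jm

/-!
# The joint law of block systems with common random coefficients
-/

set_option autoImplicit false
set_option linter.unusedSectionVars false
set_option linter.unusedVariables false

open scoped Classical

namespace Q44.BP

open Finset Module Filter Topology
open Pool.Agent.Y697.PQ
open Pool.Agent.Y703.CQ (prs)
open Q44.BC

variable {ι : Type} [Fintype ι] [LinearOrder ι]

/-- the coefficients of one system -/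
noncomputable def gam {J1 : Finset ι} (σ : prs J1 → ZMod 2)
    (α : prs (univ : Finset ι) → ZMod 2) : prs J1 → ZMod 2 :=
  fun e => Pool.Agent.Y703.CQ.ext α e.1.1 e.1.2 + σ e

theorem ext_add_univ (α β : prs (univ : Finset ι) → ZMod 2) (a b : ι) :
    Pool.Agent.Y703.CQ.ext (α + β) a b =
      Pool.Agent.Y703.CQ.ext α a b + Pool.Agent.Y703.CQ.ext β a b := by
  unfold Pool.Agent.Y703.CQ.ext
  split_ifs
  · rfl
  · rfl
  · rw [add_zero]

/-- the linear part -/
noncomputable def gl (J1 : Finset ι) : (prs (univ : Finset ι) → ZMod 2) →+ (prs J1 → ZMod 2) where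
  toFun α := fun e => Pool.Agent.Y703.CQ.ext α e.1.1 e.1.2
  map_zero' := by
    funext e
    unfold Pool.Agent.Y703.CQ.ext
    split_ifs <;> rfl
  map_add' α β := by
    funext e
    exact ext_add_univ α β _ _

theorem mem_prs {J1 : Finset ι} {a b : ι} : (a, b) ∈ prs J1 ↔ a ∈ J1 ∧ b ≠ a ∧ (b ∈ J1 → a < b) := by
  unfold prs
  rw [mem_filter]
  simp

theorem gl_apply (J1 : Finset ι) (α : prs (univ : Finset ι) → ZMod 2) (e : prs J1) :
    gl J1 α e = Pool.Agent.Y703.CQ.ext α e.1.1 e.1.2 := rfl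

theorem gl_surj (J1 : Finset ι) : Function.Surjective (gl J1) := by
  intro β
  refine ⟨fun e => if h : (e.1.1, e.1.2) ∈ prs J1 then β ⟨_, h⟩ else
    if h' : (e.1.2, e.1.1) ∈ prs J1 then β ⟨_, h'⟩ else 0, ?_⟩
  funext ⟨⟨a, b⟩, he⟩
  have he' := mem_prs.1 he
  rw [gl_apply]
  rcases lt_trichotomy a b with h | h | h
  · rw [(ext_univ _ h).1]
    simp only
    rw [dif_pos he]
  · exact absurd h.symm he'.2.1
  · rw [(ext_univ _ h).2]
    simp only
    have h1 : ¬ (b, a) ∈ prs J1 := fun h' => by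
      have h2 := mem_prs.1 h'
      exact absurd (he'.2.2 h2.1) h.asymm
    rw [dif_neg h1, dif_pos he]

/-- the mean of a function of the coefficients of one system -/
theorem mean_gam {J1 : Finset ι} (σ : prs J1 → ZMod 2) (f : (prs J1 → ZMod 2) → ℝ) :
    (∑ α : prs (univ : Finset ι) → ZMod 2, f (gam σ α)) / 2 ^ (prs (univ : Finset ι)).card =
      (∑ β : prs J1 → ZMod 2, f β) / 2 ^ (prs J1).card := by
  have h1 := push_sum (gl J1) (gl_surj J1) fun β => f (β + σ)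
  have h2 : ∀ S : Finset (ι × ι), (Fintype.card (S → ZMod 2) : ℝ) = 2 ^ S.card := by
    intro S
    rw [Fintype.card_fun, ZMod.card, Fintype.card_coe]
    push_cast
    rfl
  rw [h2, h2] at h1
  have h3 : ∑ β : prs J1 → ZMod 2, f (β + σ) = ∑ β : prs J1 → ZMod 2, f β :=
    Fintype.sum_equiv (Equiv.addRight σ) _ _ fun _ => rfl
  rw [h3] at h1
  exact h1

theorem ext_gam {J1 : Finset ι} (σ : prs J1 → ZMod 2) (α : prs (univ : Finset ι) → ZMod 2)
    {a : ι} (ha : a ∈ J1) (b : ι) : Pool.Agent.Y703.CQ.ext (gam σ α) a b =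
      Pool.Agent.Y703.CQ.ext α a b + Pool.Agent.Y703.CQ.ext σ a b := by
  by_cases h : (a, b) ∈ prs J1
  · have e1 : Pool.Agent.Y703.CQ.ext (gam σ α) a b = gam σ α ⟨(a, b), h⟩ := dif_pos h
    have e2 : Pool.Agent.Y703.CQ.ext σ a b = σ ⟨(a, b), h⟩ := dif_pos h
    rw [e1, e2]
    rfl
  · rcases lt_trichotomy a b with hab | hab | hab
    · exact absurd (mem_prs.2 ⟨ha, hab.ne', fun _ => hab⟩) h
    · subst hab
      have e : ∀ (J : Finset ι) (β : prs J → ZMod 2), Pool.Agent.Y703.CQ.ext β a a = 0 := by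
        intro J β
        have h1 : ¬ (a, a) ∈ prs J := fun h' => (mem_prs.1 h').2.1 rfl
        unfold Pool.Agent.Y703.CQ.ext
        rw [dif_neg h1, dif_neg fun h => h1 h.1]
      rw [e, e, e, add_zero]
    · have hb : b ∈ J1 := by
        by_contra hb
        exact h (mem_prs.2 ⟨ha, hab.ne, fun h' => absurd h' hb⟩)
      have h' : (b, a) ∈ prs J1 := mem_prs.2 ⟨hb, hab.ne', fun _ => hab⟩
      have e1 : Pool.Agent.Y703.CQ.ext (gam σ α) a b = gam σ α ⟨(b, a), h'⟩ := by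
        unfold Pool.Agent.Y703.CQ.ext
        rw [dif_neg h, dif_pos ⟨h', ha⟩]
      have e2 : Pool.Agent.Y703.CQ.ext σ a b = σ ⟨(b, a), h'⟩ := by
        unfold Pool.Agent.Y703.CQ.ext
        rw [dif_neg h, dif_pos ⟨h', ha⟩]
      have e3 : Pool.Agent.Y703.CQ.ext α a b = Pool.Agent.Y703.CQ.ext α b a := by
        rw [(ext_univ α hab).1, (ext_univ α hab).2]
      rw [e1, e2, e3]
      rfl

section one

variable {U G F : Type} [Fintype U] [AddCommGroup G] [Module (ZMod 2) G] [AddCommGroup F]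
  [Module (ZMod 2) F]

/-- the second block of the unknowns -/
noncomputable def wD (D : Dt U ι G F) (s : D.E) (a : ι) : ZMod 2 := ez s.2.1 a

/-- the constants of the rows -/
noncomputable def cD (D : Dt U ι G F) (σ : prs D.J1 → ZMod 2) (s : D.E) (a : ι) : ZMod 2 :=
  (if h : a ∈ D.J1 then D.rJ s ⟨a, h⟩ else 0) +
    ∑ b, Pool.Agent.Y703.CQ.ext σ a b * (wD D s b + wD D s a)

theorem wD_coe (D : Dt U ι G F) (s : D.E) (k : D.J1) : wD D s k = s.2.1 k := dif_pos k.2

theorem sum_J1 (D : Dt U ι G F) (s : D.E) (f : ι → ZMod 2) :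
    ∑ l : D.J1, f l * s.2.1 l = ∑ l, f l * wD D s l := by
  have h1 : ∑ l, f l * wD D s l = ∑ l ∈ D.J1, f l * wD D s l := by
    symm
    refine Finset.sum_subset (Finset.subset_univ _) fun l _ hl => ?_
    rw [show wD D s l = 0 from ez_out _ hl, mul_zero]
  rw [h1, ← Finset.sum_coe_sort D.J1]
  exact Finset.sum_congr rfl fun l _ => by rw [wD_coe]

theorem mem_So (D : Dt U ι G F) (σ : prs D.J1 → ZMod 2) (α : prs (univ : Finset ι) → ZMod 2)
    (s : D.E) : s ∈ D.So (gam σ α) ↔ s ∈ D.NN ∧ ∀ a ∈ D.J1, cD D σ s a +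
      ∑ b, Pool.Agent.Y703.CQ.ext α a b * (wD D s b + wD D s a) = 0 := by
  have key : ∀ k : D.J1, D.rJ s k + (∑ l : D.J1, Pool.Agent.Y703.CQ.ext (gam σ α) k l * s.2.1 l +
      (∑ l : ι, Pool.Agent.Y703.CQ.ext (gam σ α) k l) * s.2.1 k) =
      cD D σ s k + ∑ b, Pool.Agent.Y703.CQ.ext α k b * (wD D s b + wD D s k) := by
    intro k
    unfold cD
    rw [dif_pos k.2, sum_J1 D s fun l => Pool.Agent.Y703.CQ.ext (gam σ α) k l, ← wD_coe D s k,
      add_assoc]
    congr 1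
    rw [Finset.sum_mul, ← Finset.sum_add_distrib, ← Finset.sum_add_distrib]
    refine Finset.sum_congr rfl fun l _ => ?_
    rw [ext_gam σ α k.2]
    ring
  constructor
  · rintro ⟨h1, h2⟩
    exact ⟨h1, fun a ha => (key ⟨a, ha⟩).symm.trans (h2 ⟨a, ha⟩)⟩
  · rintro ⟨h1, h2⟩
    exact ⟨h1, fun k => (key k).trans (h2 k k.2)⟩

end one

/-- products of numbers near given numbers -/
theorem prod_near {K : Type} [Fintype K] (t : K → ℝ) (J : ℕ) {η : ℝ} (hη : 0 < η) :
    ∃ δ : ℝ, 0 < δ ∧ ∀ j : K → ℕ, (∀ k, j k ≤ J) → ∀ x : K → ℝ, (∀ k, |x k - t k ^ j k| ≤ δ) →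
      |∏ k, x k - ∏ k, t k ^ j k| ≤ η := by
  have h1 : ∀ j : K → Fin (J + 1), ∃ δ : ℝ, 0 < δ ∧ ∀ x : K → ℝ,
      (∀ k, |x k - t k ^ (j k : ℕ)| ≤ δ) → |∏ k, x k - ∏ k, t k ^ (j k : ℕ)| ≤ η := by
    intro j
    have hc : Continuous fun x : K → ℝ => ∏ k, x k := continuous_finsetProd _ fun k _ => continuous_apply k
    obtain ⟨δ, hδ, h⟩ := Metric.continuous_iff.1 hc (fun k => t k ^ (j k : ℕ)) η hη
    refine ⟨δ / 2, half_pos hδ, fun x hx => ?_⟩
    have h2 : dist x (fun k => t k ^ (j k : ℕ)) < δ := by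
      refine lt_of_le_of_lt ((dist_pi_le_iff (half_pos hδ).le).2 fun k => ?_) (half_lt_self hδ)
      rw [Real.dist_eq]
      exact hx k
    have h3 := h x h2
    rw [Real.dist_eq] at h3
    exact h3.le
  choose δ hδ h using h1
  have hne : (univ : Finset (K → Fin (J + 1))).Nonempty := ⟨fun _ => 0, mem_univ _⟩
  refine ⟨univ.inf' hne δ, (Finset.lt_inf'_iff _).2 fun j _ => hδ j, fun j hj x hx => ?_⟩
  have h2 := h (fun k => ⟨j k, Nat.lt_succ_of_le (hj k)⟩) x fun k =>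
    (hx k).trans (Finset.inf'_le _ (mem_univ _))
  exact h2

/-- **the joint law of the dimensions** -/
theorem t_JLAB {K : Type} [Fintype K] (G F : K → Type) [∀ k, AddCommGroup (G k)]
    [∀ k, Module (ZMod 2) (G k)] [∀ k, AddCommGroup (F k)] [∀ k, Module (ZMod 2) (F k)]
    [∀ k, Finite (G k)] [∀ k, Finite (F k)] {t : K → ℝ} (ht : ∀ k, 0 < t k) (r : K → ℕ) {ε : ℝ}
    (hε : 0 < ε) : ∃ R : ℕ, ∀ (U : K → Type) (ι : Type) [∀ k, Fintype (U k)] [Fintype ι]
      [LinearOrder ι] (D : ∀ k, Dt (U k) ι (G k) (F k)) (σ : ∀ k, prs (D k).J1 → ZMod 2) (u : ℕ),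
      (∀ k, (D k).Ok) → (∀ k, ∃ l, l ∉ (D k).J1) →
      (∀ k, (Nat.card (D k).𝓛 : ℝ) = t k * Nat.card (F k)) → (∀ k, Fintype.card (U k) ≤ u) →
      (∀ k, R * (u + 1) ≤ (D k).J3.card) →
      (∀ k l, k ≠ l → ∃ T : Set K, ((k ∈ T ∧ l ∉ T) ∨ (k ∉ T ∧ l ∈ T)) ∧
        R * (u + 1) ≤ (univ.filter fun a : ι => {k | a ∈ (D k).J1} = T).card) →
      |((univ.filter fun α : prs (univ : Finset ι) → ZMod 2 =>
          ∀ k, finrank (ZMod 2) ((D k).So (gam (σ k) α)) = r k).card : ℝ) /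
          2 ^ (prs (univ : Finset ι)).card - ∏ k, lam (t k) (r k)| ≤ ε := by
  obtain ⟨J, δ, hδ, hlaw⟩ := jlaw t r hε
  obtain ⟨δ', hδ', hnear⟩ := prod_near t J (half_pos hδ)
  have hmb := fun k => mom_beta (G k) (F k) (ht k) J hδ'
  choose R₁ hR₁ using hmb
  obtain ⟨Cst, hCst⟩ : ∃ Cst : (K → ℕ) → ℕ, ∀ n, Cst n = Nat.card (Set K) *
    Nat.card (Submodule (ZMod 2) (VV (Σ k, Fin (n k)))) * Nat.card (VV (Σ k, Fin (n k))) :=
    ⟨_, fun _ => rfl⟩
  set C : ℝ := ∑ j : K → Fin (J + 1), (Cst fun k => (j k : ℕ)) *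
    ∏ k, (Nat.card (G k) : ℝ) ^ (j k : ℕ) with hC
  have hC0 : 0 ≤ C := Finset.sum_nonneg fun j _ => mul_nonneg (Nat.cast_nonneg _)
    (Finset.prod_nonneg fun k _ => by positivity)
  have hCj : ∀ j : K → ℕ, (∀ k, j k ≤ J) →
      (Cst j : ℝ) * ∏ k, (Nat.card (G k) : ℝ) ^ j k ≤ C := by
    intro j hj
    exact Finset.single_le_sum (f := fun j : K → Fin (J + 1) => ((Cst fun k => (j k : ℕ)) : ℝ) *
      ∏ k, (Nat.card (G k) : ℝ) ^ (j k : ℕ)) (fun j _ => mul_nonneg (Nat.cast_nonneg _)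
      (Finset.prod_nonneg fun k _ => by positivity))
      (mem_univ (fun k => (⟨j k, Nat.lt_succ_of_le (hj k)⟩ : Fin (J + 1))))
  obtain ⟨R₂, hR₂⟩ := pow_unbounded_of_one_lt (C / (δ / 2)) (one_lt_two : (1 : ℝ) < 2)
  refine ⟨2 + ∑ k, R₁ k + R₂ + J * Fintype.card K, ?_⟩
  intro U ι _ _ _ D σ u hok hpas hcard hU hJ3 hsep
  set R := 2 + ∑ k, R₁ k + R₂ + J * Fintype.card K with hR
  have hR1k : ∀ k, R₁ k ≤ ∑ k, R₁ k := fun k => Finset.single_le_sum (fun _ _ => Nat.zero_le _) (mem_univ k)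
  have hPp : (0 : ℝ) < 2 ^ (prs (univ : Finset ι)).card := by positivity
  have hfG : ∀ k, Fintype (G k) := fun k => Fintype.ofFinite _
  have hfE : ∀ k, Fintype (D k).E := fun k => by
    have : Finite (U k → ZMod 2) := Finite.of_fintype _
    have : Finite ((D k).J1 → ZMod 2) := Finite.of_fintype _
    exact Fintype.ofFinite _
  -- the marginal moments
  have hmar : ∀ k, ∀ j ≤ J, |(∑ α : prs (univ : Finset ι) → ZMod 2,
      ij j (2 ^ finrank (ZMod 2) ((D k).So (gam (σ k) α)))) / 2 ^ (prs (univ : Finset ι)).card - t k ^ j| ≤ δ' := by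
    intro k j hj
    rw [mean_gam (σ k) fun β => ij j (2 ^ finrank (ZMod 2) ((D k).So β))]
    refine hR₁ k (U k) ι (D k) (hok k) (hpas k) (hcard k) ?_ j hj
    refine le_trans ?_ (hJ3 k)
    have h1 := hU k
    have h2 := hR1k k
    calc 2 * Fintype.card (U k) + R₁ k ≤ 2 * u + ∑ k, R₁ k := by omega
      _ ≤ (2 + ∑ k, R₁ k) * (u + 1) := by nlinarith [Nat.zero_le u]
      _ ≤ R * (u + 1) := Nat.mul_le_mul_right _ (by omega)
  -- the joint moments
  have hjm : ∀ j : K → ℕ, (∀ k, j k ≤ J) →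
      |(∑ α : prs (univ : Finset ι) → ZMod 2, ∏ k, ij (j k) (2 ^ finrank (ZMod 2) ((D k).So (gam (σ k) α)))) /
        2 ^ (prs (univ : Finset ι)).card - ∏ k, t k ^ j k| ≤ δ := by
    intro j hj
    have hfE' : ∀ k, Fintype (Fin (j k) → (D k).E) := fun k => inferInstance
    set X : ∀ k, Finset (Fin (j k) → (D k).E) := fun k =>
      univ.filter fun v => (∀ i, v i ∈ (D k).NN) ∧ LinearIndependent (ZMod 2) v with hX
    have hN : ∀ k α, (Nk (fun k => (D k).J1) (fun k => (D k).E) (fun k => wD (D k))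
        (fun k => cD (D k) (σ k)) j X k α : ℝ) =
        ij (j k) (2 ^ finrank (ZMod 2) ((D k).So (gam (σ k) α))) := by
      intro k α
      rw [← card_LI]
      unfold Nk
      congr 2
      ext v
      simp only [hX, Finset.mem_filter, mem_univ, true_and]
      constructor
      · rintro ⟨⟨h1, h2⟩, h3⟩
        exact ⟨fun i => (mem_So (D k) (σ k) α (v i)).2 ⟨h1 i, h3 i⟩, h2⟩
      · rintro ⟨h1, h2⟩
        exact ⟨⟨fun i => ((mem_So (D k) (σ k) α (v i)).1 (h1 i)).1, h2⟩, fun i =>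
          ((mem_So (D k) (σ k) α (v i)).1 (h1 i)).2⟩
    have hf := fact (J := fun k => (D k).J1) (S := fun k => (D k).E) (w := fun k => wD (D k))
      (c := fun k => cD (D k) (σ k)) (Ψ := fun k => (U k → ZMod 2) × G k)
      (fun k s => (s.1, s.2.2)) (fun k s a ha => ez_out _ ha) (fun k s s' h => by
        have h1 : wD (D k) s = wD (D k) s' := congrArg Prod.fst h
        have h2 : ((s.1, s.2.2) : (U k → ZMod 2) × G k) = (s'.1, s'.2.2) := congrArg Prod.snd h
        have h3 : s.2.1 = s'.2.1 := ez_inj fun a => congrFun h1 a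
        exact Prod.ext (Prod.mk.inj h2).1 (Prod.ext h3 (Prod.mk.inj h2).2))
      j X (R * (u + 1)) hsep
    simp only [hN] at hf
    rw [← hCst] at hf
    -- the error
    have herr : ((Cst j : ℕ) : ℝ) *
        (∏ k, (Fintype.card ((U k → ZMod 2) × G k) : ℝ) ^ j k) / 2 ^ (R * (u + 1)) ≤ δ / 2 := by
      have h1 : ∏ k, (Fintype.card ((U k → ZMod 2) × G k) : ℝ) ^ j k ≤
          2 ^ (u * (J * Fintype.card K)) * ∏ k, (Nat.card (G k) : ℝ) ^ j k := by
        have h2 : ∀ k, (Fintype.card ((U k → ZMod 2) × G k) : ℝ) ^ j k ≤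
            2 ^ (u * J) * (Nat.card (G k) : ℝ) ^ j k := by
          intro k
          rw [Fintype.card_prod, Fintype.card_fun, ZMod.card, Nat.card_eq_fintype_card]
          push_cast
          rw [mul_pow, ← pow_mul]
          refine mul_le_mul_of_nonneg_right ?_ (by positivity)
          exact pow_le_pow_right₀ (by norm_num) (Nat.mul_le_mul (hU k) (hj k))
        refine (Finset.prod_le_prod (fun k _ => by positivity) fun k _ => h2 k).trans (le_of_eq ?_)
        rw [Finset.prod_mul_distrib, Finset.prod_const, Finset.card_univ, ← pow_mul, mul_assoc]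
      have h3 : (2 : ℝ) ^ (u * (J * Fintype.card K)) * 2 ^ R₂ ≤ 2 ^ (R * (u + 1)) := by
        rw [← pow_add]
        refine pow_le_pow_right₀ (by norm_num) ?_
        have h4 : R₂ + J * Fintype.card K ≤ R := by omega
        calc u * (J * Fintype.card K) + R₂ ≤ (R₂ + J * Fintype.card K) * (u + 1) := by nlinarith
          _ ≤ R * (u + 1) := Nat.mul_le_mul_right _ h4
      rw [div_le_iff₀ (by positivity)]
      rw [div_lt_iff₀ (by positivity)] at hR₂
      calc ((Cst j : ℕ) : ℝ) * (∏ k, (Fintype.card ((U k → ZMod 2) × G k) : ℝ) ^ j k) ≤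
          Cst j * (2 ^ (u * (J * Fintype.card K)) * ∏ k, (Nat.card (G k) : ℝ) ^ j k) :=
            mul_le_mul_of_nonneg_left h1 (Nat.cast_nonneg _)
        _ = (Cst j * ∏ k, (Nat.card (G k) : ℝ) ^ j k) * 2 ^ (u * (J * Fintype.card K)) := by ring
        _ ≤ C * 2 ^ (u * (J * Fintype.card K)) :=
            mul_le_mul_of_nonneg_right (hCj j hj) (by positivity)
        _ ≤ (2 ^ R₂ * (δ / 2)) * 2 ^ (u * (J * Fintype.card K)) :=
            mul_le_mul_of_nonneg_right hR₂.le (by positivity)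
        _ = δ / 2 * (2 ^ (u * (J * Fintype.card K)) * 2 ^ R₂) := by ring
        _ ≤ δ / 2 * 2 ^ (R * (u + 1)) := mul_le_mul_of_nonneg_left h3 (by positivity)
    have h5 := hnear j hj (fun k => (∑ α : prs (univ : Finset ι) → ZMod 2,
      ij (j k) (2 ^ finrank (ZMod 2) ((D k).So (gam (σ k) α)))) / 2 ^ (prs (univ : Finset ι)).card)
      fun k => hmar k (j k) (hj k)
    have h6 := hf.trans herr
    have h7 := abs_sub_le ((∑ α : prs (univ : Finset ι) → ZMod 2,
      ∏ k, ij (j k) (2 ^ finrank (ZMod 2) ((D k).So (gam (σ k) α)))) / 2 ^ (prs (univ : Finset ι)).card)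
      (∏ k, ((∑ α : prs (univ : Finset ι) → ZMod 2, ij (j k) (2 ^ finrank (ZMod 2) ((D k).So (gam (σ k) α)))) /
        2 ^ (prs (univ : Finset ι)).card)) (∏ k, t k ^ j k)
    linarith
  have hcu : ((univ : Finset (prs (univ : Finset ι) → ZMod 2)).card : ℝ) = 2 ^ (prs (univ : Finset ι)).card := by
    rw [Finset.card_univ, Fintype.card_fun, ZMod.card, Fintype.card_coe]
    push_cast
    rfl
  have hfin := hlaw (prs (univ : Finset ι) → ZMod 2) univ (fun k α => finrank (ZMod 2) ((D k).So (gam (σ k) α)))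
    fun j hj => by
      have h1 := hjm j hj
      rw [hcu]
      rw [div_sub' hPp.ne', abs_div, abs_of_pos hPp, div_le_iff₀ hPp, mul_comm _ (∏ k, t k ^ j k)] at h1
      exact h1
  rw [hcu] at hfin
  rw [div_sub' hPp.ne', abs_div, abs_of_pos hPp, div_le_iff₀ hPp, mul_comm _ (∏ k, lam (t k) (r k))]
  exact hfin

end Q44.BP
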