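import Pool.Agent.Q44.BM.Box
import Pool.Agent.Q44.BP.JLA
import Pool.Agent.Q44.BP.Asy

/-!
# The count in a box for several systems
-/

set_option autoImplicit false
set_option linter.unusedSectionVars false

open scoped Classical

namespace Q44.BP

open Finset Module
open Pool.Agent.Y703.CQ (nr sg prs HB ext)
open Pool.Agent.Y657.CQ (HB_sub)
open Q44.BC
open Q44.BM (Fam Sys vm Nd NdC GT UU lab card_im nr_rec)

/-- the condition with many primes implies the condition for the subfamilies -/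
theorem NdK_C {Φ Ψ : Fam} {I : Type} {cl : I → ℕ → Prop} {R : ℕ} {S₀ S₁ : Finset ℕ}
    (hsub : ∀ p, Ψ.A p → Φ.A p) (hE : ∀ p, Φ.E p → Ψ.E p)
    (h : NdK Φ cl R S₀ S₁) {R' : ℕ} (hR : 2 * S₀.card + R' ≤ R * (S₀.card + 1)) :
    NdC Ψ cl R' S₀ S₁ := by
  refine ⟨fun w hw => ?_, fun i => hR.trans (h.2 i)⟩
  obtain ⟨u, hu, hua, hw0⟩ := hw
  obtain ⟨p, hp, hpE, hs⟩ := h.1 (fun n => if Ψ.A n then w n else 0)
    ⟨u, hu, hsub u hua, by rw [if_pos hua]; exact hw0⟩
  refine ⟨p, hp, hE p hpE, fun h0 => hs (Eq.trans ?_ h0)⟩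
  rw [Finset.sum_filter, Finset.sum_filter]
  refine sum_congr rfl fun u hu => ?_
  by_cases h1 : Ψ.A u
  · rw [if_pos (hsub u h1), if_pos h1, if_pos h1]
  · rw [if_neg h1, if_neg h1, zero_mul]
    split_ifs <;> rfl

section js

variable {K : Type} {Ψ : K → Fam} {G F : K → Type} [∀ k, AddCommGroup (G k)]
  [∀ k, Module (ZMod 2) (G k)] [∀ k, AddCommGroup (F k)] [∀ k, Module (ZMod 2) (F k)]

/-- the systems which are considered together -/
structure JS (Φ : Fam) (σ : ∀ k, Sys (Ψ k) (G k) (F k)) {I : Type} (cl : I → ℕ → Prop) :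
    Prop where
  all : ∀ p, Φ.P p → Φ.A p
  P : ∀ k p, Φ.P p ↔ (Ψ k).P p
  E : ∀ k p, Φ.E p ↔ (Ψ k).E p
  good : ∀ k, (σ k).Good cl
  sep : ∀ k l, k ≠ l → ∃ (i : I) (T : Set K), ((k ∈ T ∧ l ∉ T) ∨ (k ∉ T ∧ l ∈ T)) ∧
    ∀ p, cl i p → {k' | (Ψ k').A p} = T

/-- the label determines everything -/
def JLb (Φ : Fam) (σ : ∀ k, Sys (Ψ k) (G k) (F k)) {I : Type} (cl : I → ℕ → Prop)
    {Λ H' : Type} (lb : ℕ → Λ) (H : ℕ → H') : Prop :=
  ∀ p q, Φ.P p → Φ.P q → lb p = lb q →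
    (∀ k, (σ k).h p = (σ k).h q ∧ (σ k).f p = (σ k).f q ∧ ((Ψ k).A p ↔ (Ψ k).A q)) ∧
    vm p = vm q ∧ (Φ.E p ↔ Φ.E q) ∧ (∀ i, cl i p ↔ cl i q) ∧ H p = H q

variable {Φ : Fam} {σ : ∀ k, Sys (Ψ k) (G k) (F k)} {I : Type} {cl : I → ℕ → Prop}
  {Λ H' : Type} {lb : ℕ → Λ} {H : ℕ → H'}

theorem JS.sub (h : JS Φ σ cl) (k : K) (p : ℕ) (hp : (Ψ k).A p) : Φ.A p :=
  h.all p ((h.P k p).2 (Or.inl hp))

theorem JS.Lb (h : JS Φ σ cl) (hL : JLb Φ σ cl lb H) (k : K) : Q44.BM.Lb (σ k) cl lb H := by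
  intro p q hp hq he
  obtain ⟨h1, -, h2, h3, h4⟩ := hL p q ((h.P k p).2 hp) ((h.P k q).2 hq) he
  refine ⟨(h1 k).1, (h1 k).2.1, ?_, h3, h4⟩
  rw [← h.E k p, ← h.E k q]
  exact h2

variable {ι : Type} [Fintype ι] [LinearOrder ι] {S₀ : Finset ℕ} {p p' : ι → ℕ} {R : ℕ}

theorem NdK_lab (hL : JLb Φ σ cl lb H) (hP : ∀ i, Φ.P (p i)) (hP' : ∀ i, Φ.P (p' i))
    (hp : Function.Injective p) (hp' : Function.Injective p')
    (he : ∀ i, lab lb S₀ (p i) = lab lb S₀ (p' i)) (h : NdK Φ cl R S₀ (univ.image p)) :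
    NdK Φ cl R S₀ (univ.image p') := by
  have hl : ∀ i, lb (p i) = lb (p' i) := fun i => congrArg (fun t => t.2.2) (he i)
  have hn : ∀ i, ∀ u ∈ S₀, nr (p i) u = nr (p' i) u := fun i u hu =>
    congrFun (congrArg (fun t => t.2.1) (he i)) ⟨u, hu⟩
  refine ⟨fun w hw => ?_, fun i => ?_⟩
  · obtain ⟨q, hq, hE, hs⟩ := h.1 w hw
    obtain ⟨k, -, rfl⟩ := Finset.mem_image.1 hq
    refine ⟨p' k, mem_image_of_mem _ (mem_univ _), ((hL _ _ (hP k) (hP' k) (hl k)).2.2.1).1 hE, ?_⟩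
    intro h0
    apply hs
    rw [← h0]
    exact sum_congr rfl fun u hu => by rw [hn k u (mem_filter.1 hu).1]
  · have h1 := h.2 i
    rw [card_im hp] at h1
    rw [card_im hp']
    refine h1.trans (le_of_eq ?_)
    congr 1
    refine filter_congr fun k _ => ?_
    exact (hL _ _ (hP k) (hP' k) (hl k)).2.2.2.1 i

theorem GT_labK [AddCommGroup H'] {c₀ : H'} (hL : JLb Φ σ cl lb H) (hP : ∀ i, Φ.P (p i))
    (hP' : ∀ i, Φ.P (p' i))
    (hp : Function.Injective p) (hp' : Function.Injective p') (hd : ∀ i, p i ∉ S₀)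
    (hd' : ∀ i, p' i ∉ S₀)
    (he : ∀ i, lab lb S₀ (p i) = lab lb S₀ (p' i)) (h : GT H c₀ (S₀ ∪ univ.image p)) :
    GT H c₀ (S₀ ∪ univ.image p') := by
  have hl : ∀ i, lb (p i) = lb (p' i) := fun i => congrArg (fun t => t.2.2) (he i)
  have key : ∀ p : ι → ℕ, Function.Injective p → (∀ i, p i ∉ S₀) →
      ∑ q ∈ S₀ ∪ univ.image p, H q = ∑ q ∈ S₀, H q + ∑ i, H (p i) := by
    intro p hp hd
    have hdis : Disjoint S₀ (univ.image p) := by
      rw [Finset.disjoint_left]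
      intro x hx hx'
      obtain ⟨i, -, rfl⟩ := Finset.mem_image.1 hx'
      exact hd i hx
    rw [Finset.sum_union hdis, Finset.sum_image fun i _ j _ hij => hp hij]
  unfold GT at h ⊢
  rw [key p' hp' hd', ← h, key p hp hd]
  congr 1
  exact sum_congr rfl fun i _ => (hL _ _ (hP' i) (hP i) (hl i).symm).2.2.2.2

/-- the symbols -/
theorem nr_gam (hpr : ∀ i, (p i).Prime ∧ p i ≠ 2) (hp : Function.Injective p)
    {J : Finset ι} {w : ι → ZMod 2} (hw : ∀ i, vm (p i) = w i) :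
    (fun e : prs J => nr (p e.1.1) (p e.1.2)) =
      gam (fun e : prs J => if e.1.2 < e.1.1 then w e.1.1 * w e.1.2 else 0)
        (fun e : prs (univ : Finset ι) => nr (p e.1.1) (p e.1.2)) := by
  funext ⟨⟨a, b⟩, he⟩
  have he' := mem_prs.1 he
  unfold gam
  simp only
  rcases lt_trichotomy a b with h | h | h
  · rw [(ext_univ _ h).1, if_neg h.asymm, add_zero]
  · exact absurd h.symm he'.2.1
  · rw [(ext_univ _ h).2, if_pos h, ← hw, ← hw]
    exact nr_rec (hpr a).1 (hpr a).2 (hpr b).1 (hpr b).2 fun h' => h.ne (hp h').symm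

end js

/-- **The count in a box.** -/
theorem t_JBX {K : Type} [Fintype K] {Φ : Fam} {Ψ : K → Fam} {G F : K → Type}
    [∀ k, AddCommGroup (G k)] [∀ k, Module (ZMod 2) (G k)] [∀ k, AddCommGroup (F k)]
    [∀ k, Module (ZMod 2) (F k)] [∀ k, Finite (G k)] [∀ k, Finite (F k)]
    {I : Type} {cl : I → ℕ → Prop} (σ : ∀ k, Sys (Ψ k) (G k) (F k)) (hσ : JS Φ σ cl)
    {t : K → ℝ} (ht : ∀ k, 0 < t k) (hcard : ∀ k, (Nat.card (σ k).𝓛 : ℝ) = t k * Nat.card (F k))
    (r : K → ℕ) {Λ H' : Type} [Fintype Λ] [AddCommGroup H'] {lb : ℕ → Λ} {H : ℕ → H'} (c₀ : H')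
    (hL : JLb Φ σ cl lb H) {ε : ℝ} (hε : 0 < ε) :
    ∃ R, BX Φ (NdK Φ cl R) (GT H c₀) (fun S => ∀ k, finrank (ZMod 2) ((σ k).Sel S) = r k)
      (∏ k, lam (t k) (r k)) ε (Fintype.card Λ) := by
  obtain ⟨R₀, hLA⟩ := t_JLAB G F ht r hε
  obtain ⟨Gd, hGd⟩ : ∃ Gd : Finset ℕ → Prop,
      Gd = fun S => ∀ k, finrank (ZMod 2) ((σ k).Sel S) = r k := ⟨_, rfl⟩
  rw [← hGd]
  have hGd' : ∀ S, Gd S ↔ ∀ k, finrank (ZMod 2) ((σ k).Sel S) = r k := fun S => by rw [hGd]
  obtain ⟨Lc, hLc⟩ : ∃ Lc : ℝ, Lc = ∏ k, lam (t k) (r k) := ⟨_, rfl⟩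
  rw [← hLc] at hLA ⊢
  refine ⟨R₀ + 3, ?_⟩
  intro ι _ _ J1 C X κ S₀ hκ hCX hHB hS₀ hC hdis
  have hX0 : (0 : ℝ) ≤ ∏ j, (X j : ℝ) := Finset.prod_nonneg fun j _ => Nat.cast_nonneg _
  by_cases hne : ∀ i, (C i).Nonempty
  swap
  · push Not at hne
    obtain ⟨i, hi⟩ := hne
    have hemp : Fintype.piFinset C = ∅ := by
      rw [Finset.eq_empty_iff_forall_notMem]
      intro p hp
      have := Fintype.mem_piFinset.1 hp i
      rw [hi] at this
      exact absurd this (Finset.notMem_empty _)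
    rw [hemp]
    simp only [Finset.filter_empty, Finset.card_empty, Nat.cast_zero, mul_zero, sub_zero, abs_zero,
      zero_add]
    positivity
  have hJ1 : J1 = univ := by
    ext i
    obtain ⟨p, hp⟩ := hne i
    obtain ⟨h1, -, h3⟩ := hC i p hp
    exact ⟨fun _ => mem_univ _, fun _ => h3.2 (hσ.all p h1)⟩
  subst hJ1
  set R : ℝ := 2 ^ (prs (univ : Finset ι)).card * (κ * ∏ j, (X j : ℝ)) with hR
  have hR0 : 0 ≤ R := mul_nonneg (by positivity) (mul_nonneg hκ hX0)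
  -- facts on tuples
  have hinj : ∀ p ∈ Fintype.piFinset C, Function.Injective p := by
    intro p hp i j hij
    rw [Fintype.mem_piFinset] at hp
    by_contra hne
    have h1 := Finset.disjoint_left.1 (hdis i j hne) (hp i)
    rw [hij] at h1
    exact h1 (hp j)
  have hd : ∀ p ∈ Fintype.piFinset C, ∀ i, p i ∉ S₀ := by
    intro p hp i
    rw [Fintype.mem_piFinset] at hp
    exact (hC i _ (hp i)).2.1
  have hP : ∀ p ∈ Fintype.piFinset C, ∀ i, Φ.P (p i) := by
    intro p hp i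
    rw [Fintype.mem_piFinset] at hp
    exact (hC i _ (hp i)).1
  have hpr : ∀ p ∈ Fintype.piFinset C, ∀ i, (p i).Prime ∧ p i ≠ 2 := fun p hp i =>
    ⟨(hP p hp i).prime, Fam.ne_two (hP p hp i)⟩
  -- the part with given labels
  obtain ⟨T, hT⟩ : ∃ T : (ι → ℕ) → Prop, ∀ p, T p ↔ (NdK Φ cl (R₀ + 3) S₀ (univ.image p) ∧
      GT H c₀ (S₀ ∪ univ.image p)) := ⟨_, fun _ => Iff.rfl⟩
  have h1 : ∀ β : ι → (S₀ → ZMod 2) × (S₀ → ZMod 2) × Λ,
      |(((Fintype.piFinset C).filter fun p => (fun i => lab lb S₀ (p i)) = β ∧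
          (T p ∧ Gd (S₀ ∪ univ.image p))).card : ℝ) -
        Lc * (((Fintype.piFinset C).filter fun p =>
          (fun i => lab lb S₀ (p i)) = β ∧ T p).card : ℝ)| ≤
      ε * (((Fintype.piFinset C).filter fun p => (fun i => lab lb S₀ (p i)) = β ∧
        NdK Φ cl (R₀ + 3) S₀ (univ.image p)).card : ℝ) + R := by
    intro β
    by_cases hemp : ((Fintype.piFinset C).filter fun p => (fun i => lab lb S₀ (p i)) = β ∧ T p) = ∅
    · have he2 : ((Fintype.piFinset C).filter fun p => (fun i => lab lb S₀ (p i)) = β ∧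
          (T p ∧ Gd (S₀ ∪ univ.image p))) = ∅ := by
        rw [Finset.filter_eq_empty_iff] at hemp ⊢
        intro p hp h
        exact hemp hp ⟨h.1, h.2.1⟩
      rw [he2, hemp]
      simp only [Finset.card_empty, Nat.cast_zero, mul_zero, sub_zero, abs_zero]
      positivity
    obtain ⟨p₀, hp₀⟩ := Finset.nonempty_iff_ne_empty.2 hemp
    rw [Finset.mem_filter] at hp₀
    obtain ⟨hp₀, hp₀β, hp₀T⟩ := hp₀
    set C' : ι → Finset ℕ := fun i => (C i).filter fun q => lab lb S₀ q = β i with hC'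
    have hpi : (Fintype.piFinset C).filter (fun p => (fun i => lab lb S₀ (p i)) = β) =
        Fintype.piFinset C' := by
      ext p
      simp only [Finset.mem_filter, Fintype.mem_piFinset, hC']
      constructor
      · rintro ⟨h2, h3⟩ i
        exact ⟨h2 i, congrFun h3 i⟩
      · intro h2
        exact ⟨fun i => (h2 i).1, funext fun i => (h2 i).2⟩
    have hlab : ∀ p : ι → ℕ, (fun i => lab lb S₀ (p i)) = β → ∀ i, lab lb S₀ (p₀ i) = lab lb S₀ (p i) := by
      intro p hp i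
      rw [congrFun hp i, congrFun hp₀β i]
    have hTp : ∀ p ∈ Fintype.piFinset C, (fun i => lab lb S₀ (p i)) = β → T p := by
      intro p hp hpβ
      rw [hT]
      have h2 := (hT p₀).1 hp₀T
      exact ⟨NdK_lab hL (hP p₀ hp₀) (hP p hp) (hinj p₀ hp₀) (hinj p hp) (hlab p hpβ) h2.1,
        GT_labK hL (hP p₀ hp₀) (hP p hp) (hinj p₀ hp₀) (hinj p hp) (hd p₀ hp₀) (hd p hp)
        (hlab p hpβ) h2.2⟩
    have hNd := ((hT p₀).1 hp₀T).1
    -- the active large primes of the systems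
    set Jk : K → Finset ι := fun k => univ.filter fun i => (Ψ k).A (p₀ i) with hJk
    have hJmem : ∀ k i, i ∈ Jk k ↔ (Ψ k).A (p₀ i) := fun k i => by
      simp only [hJk, mem_filter, mem_univ, true_and]
    have hJmem' : ∀ p ∈ Fintype.piFinset C, (fun i => lab lb S₀ (p i)) = β → ∀ k i,
        i ∈ Jk k ↔ (Ψ k).A (p i) := by
      intro p hp hpβ k i
      rw [hJmem]
      have h2 : lb (p₀ i) = lb (p i) := congrArg (fun t => t.2.2) (hlab p hpβ i)
      exact ((hL _ _ (hP p₀ hp₀ i) (hP p hp i) h2).1 k).2.2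
    set sc : ∀ k, prs (Jk k) → ZMod 2 := fun k e =>
      if e.1.2 < e.1.1 then vm (p₀ e.1.1) * vm (p₀ e.1.2) else 0 with hsc
    have hNdC : ∀ k, NdC (Ψ k) cl ((R₀ + 1) * (S₀.card + 1) + 1) S₀ (univ.image p₀) := fun k =>
      NdK_C (fun p hp => hσ.sub k p hp) (fun p hp => (hσ.E k p).1 hp) hNd (by
        have e : (R₀ + 3) * (S₀.card + 1) = (R₀ + 1) * (S₀.card + 1) + 2 * (S₀.card + 1) := by ring
        rw [e]
        omega)
    have hcl : ∀ i, (R₀ + 3) * (S₀.card + 1) ≤ (univ.filter fun a => cl i (p₀ a)).card := by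
      intro i
      have h2 := hNd.2 i
      rwa [card_im (hinj p₀ hp₀)] at h2
    have h2 := hLA (fun k => UU (Ψ k) S₀) ι (fun k => (σ k).D S₀ (Jk k) p₀) sc S₀.card
      (fun k => (σ k).D_ok (hσ.good k) (hpr p₀ hp₀) (hinj p₀ hp₀) (hd p₀ hp₀) (hJmem k) (hNdC k))
      (fun k => (σ k).D_pas (hσ.good k) (hinj p₀ hp₀) (hJmem k) (hNdC k)) hcard
      (fun k => by
        rw [Fintype.card_coe]
        exact Finset.card_filter_le _ _)
      (fun k => by
        have h3 := (σ k).D_neg (hσ.good k) (hinj p₀ hp₀) (hJmem k) (hNdC k)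
        have e : (R₀ + 1) * (S₀.card + 1) = R₀ * (S₀.card + 1) + (S₀.card + 1) := by ring
        rw [e] at h3
        omega)
      (fun k l hkl => by
        obtain ⟨i, T, hT1, hT2⟩ := hσ.sep k l hkl
        refine ⟨T, hT1, ?_⟩
        have h3 : (univ.filter fun a => cl i (p₀ a)) ⊆
            univ.filter fun a : ι => {k | a ∈ ((σ k).D S₀ (Jk k) p₀).J1} = T := by
          intro a ha
          refine mem_filter.2 ⟨mem_univ _, ?_⟩
          rw [← hT2 (p₀ a) (mem_filter.1 ha).2]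
          ext k'
          exact hJmem k' a
        have h4 := (hcl i).trans (card_le_card h3)
        refine le_trans (Nat.mul_le_mul_right _ ?_) h4
        omega)
    obtain ⟨Q, hQ⟩ : ∃ Q : (prs (univ : Finset ι) → ZMod 2) → Prop, ∀ α, Q α ↔
      ∀ k, finrank (ZMod 2) (((σ k).D S₀ (Jk k) p₀).So (gam (sc k) α)) = r k :=
      ⟨_, fun _ => Iff.rfl⟩
    have hgd : ∀ p ∈ Fintype.piFinset C, (fun i => lab lb S₀ (p i)) = β →
        (Gd (S₀ ∪ univ.image p) ↔ Q fun e => nr (p e.1.1) (p e.1.2)) := by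
      intro p hp hpβ
      rw [hGd', hQ]
      refine forall_congr' fun k => ?_
      rw [(σ k).finrank_Sel (hpr p hp) (hinj p hp) (hd p hp) (hJmem' p hp hpβ k)]
      have h3 := nr_gam (J := Jk k) (hpr p hp) (hinj p hp) (w := fun i => vm (p₀ i)) (fun i => by
        have h2 : lb (p₀ i) = lb (p i) := congrArg (fun t => t.2.2) (hlab p hpβ i)
        exact ((hL _ _ (hP p₀ hp₀ i) (hP p hp i) h2).2.1).symm)
      have h4 := Q44.BM.D_lab (J1 := Jk k) (hσ.Lb hL k) (fun i => (hσ.P k _).1 (hP p₀ hp₀ i))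
        (fun i => (hσ.P k _).1 (hP p hp i)) (hlab p hpβ)
        (fun e : prs (Jk k) => nr (p e.1.1) (p e.1.2))
      have h6 := h4.symm.trans (congrArg (fun b : prs (Jk k) → ZMod 2 =>
        finrank (ZMod 2) (((σ k).D S₀ (Jk k) p₀).So b)) h3)
      exact ⟨fun h => h6.symm.trans h, fun h => h6.trans h⟩
    have h3 := Pool.Agent.Y356.CQ.t_EQ ι univ C' X κ hκ
      (fun i => (Finset.card_le_card (Finset.filter_subset _ _)).trans (hCX i))
      (HB_sub hHB fun i q => lab lb S₀ q = β i) Q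
    have h4 : ((Fintype.piFinset C).filter fun p => (fun i => lab lb S₀ (p i)) = β ∧
        (T p ∧ Gd (S₀ ∪ univ.image p))) =
          ((Fintype.piFinset C').filter fun p => Q fun e => nr (p e.1.1) (p e.1.2)) := by
      rw [← hpi, Finset.filter_filter]
      refine Finset.filter_congr fun p hp => ?_
      refine and_congr_right fun hl => ?_
      rw [hgd p hp hl]
      exact ⟨fun h => h.2, fun h => ⟨hTp p hp hl, h⟩⟩
    have h4' : ((Fintype.piFinset C).filter fun p => (fun i => lab lb S₀ (p i)) = β ∧ T p) =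
          Fintype.piFinset C' := by
      rw [← hpi]
      refine Finset.filter_congr fun p hp => ?_
      exact ⟨fun h => h.1, fun h => ⟨h, hTp p hp h⟩⟩
    have h4'' : ((Fintype.piFinset C).filter fun p => (fun i => lab lb S₀ (p i)) = β ∧
        NdK Φ cl (R₀ + 3) S₀ (univ.image p)) = Fintype.piFinset C' := by
      rw [← hpi]
      refine Finset.filter_congr fun p hp => ?_
      exact ⟨fun h => h.1, fun h => ⟨h, ((hT p).1 (hTp p hp h)).1⟩⟩
    have h5 : (((Fintype.piFinset C').card : ℕ) : ℝ) = ∏ j, ((C' j).card : ℝ) := by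
      rw [Fintype.card_piFinset]
      push_cast
      rfl
    rw [h4, h4', h4'', h5]
    have h2' : |((univ.filter Q).card : ℝ) / 2 ^ (prs (univ : Finset ι)).card - Lc| ≤ ε := by
      rw [Finset.filter_congr fun α _ => hQ α]
      exact h2
    set n : ℝ := (((Fintype.piFinset C').filter fun p =>
          Q fun e => nr (p e.1.1) (p e.1.2)).card : ℝ) with hn
    set q : ℝ := ((univ.filter Q).card : ℝ) / 2 ^ (prs (univ : Finset ι)).card with hq
    set P : ℝ := ∏ j, ((C' j).card : ℝ) with hP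
    have hP0 : 0 ≤ P := Finset.prod_nonneg fun j _ => by positivity
    have h6 : |n - Lc * P| ≤ |n - q * P| + |q - Lc| * P := by
      have h7 : n - Lc * P = (n - q * P) + (q - Lc) * P := by ring
      have h8 : |(q - Lc) * P| = |q - Lc| * P := by rw [abs_mul, abs_of_nonneg hP0]
      rw [h7, ← h8]
      exact abs_add_le _ _
    have h7 : |q - Lc| * P ≤ ε * P := mul_le_mul_of_nonneg_right h2' hP0
    have h8 : |n - q * P| ≤ R := h3
    linarith
  -- sum over the labels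
  have hfib : ∀ (T : (ι → ℕ) → Prop) [DecidablePred T],
      (((Fintype.piFinset C).filter fun p => T p).card : ℝ) =
      ∑ β : ι → (S₀ → ZMod 2) × (S₀ → ZMod 2) × Λ, (((Fintype.piFinset C).filter fun p =>
        (fun i => lab lb S₀ (p i)) = β ∧ T p).card : ℝ) := by
    intro T _
    rw [Finset.card_eq_sum_card_fiberwise (f := fun (p : ι → ℕ) (i : ι) => lab lb S₀ (p i))
      (t := univ) (fun p hp => Finset.mem_coe.2 (mem_univ _))]
    push_cast
    refine Finset.sum_congr rfl fun β hβ => ?_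
    congr 2
    ext p
    simp only [Finset.mem_filter]
    tauto
  have hf1 := hfib fun p => T p ∧ Gd (S₀ ∪ univ.image p)
  have hf2 := hfib fun p => T p
  have hf3 := hfib fun p => NdK Φ cl (R₀ + 3) S₀ (univ.image p)
  have e1 : ((Fintype.piFinset C).filter fun p => (NdK Φ cl (R₀ + 3) S₀ (univ.image p) ∧
      GT H c₀ (S₀ ∪ univ.image p)) ∧ Gd (S₀ ∪ univ.image p)) =
      (Fintype.piFinset C).filter fun p => T p ∧ Gd (S₀ ∪ univ.image p) :=
    Finset.filter_congr fun p _ => by rw [hT]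
  have e2 : ((Fintype.piFinset C).filter fun p => NdK Φ cl (R₀ + 3) S₀ (univ.image p) ∧
      GT H c₀ (S₀ ∪ univ.image p)) = (Fintype.piFinset C).filter fun p => T p :=
    Finset.filter_congr fun p _ => by rw [hT]
  rw [e1, e2, hf1, hf2, hf3, Finset.mul_sum, ← Finset.sum_sub_distrib]
  refine (Finset.abs_sum_le_sum_abs _ _).trans ?_
  refine (Finset.sum_le_sum fun β _ => h1 β).trans ?_
  rw [Finset.sum_add_distrib, ← Finset.mul_sum, Finset.sum_const, nsmul_eq_mul]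
  have h6 : (((univ : Finset (ι → (S₀ → ZMod 2) × (S₀ → ZMod 2) × Λ)).card : ℕ) : ℝ) =
      (Fintype.card Λ : ℝ) ^ Fintype.card ι * 2 ^ (2 * S₀.card * Fintype.card ι) := by
    rw [Finset.card_univ, Fintype.card_fun, Fintype.card_prod, Fintype.card_prod, Fintype.card_fun,
      ZMod.card, Fintype.card_coe]
    push_cast
    rw [mul_pow, mul_pow, ← pow_mul, two_mul, add_mul, pow_add]
    ring
  rw [h6, hR, pow_add]
  refine le_of_eq ?_
  ring

end Q44.BP
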