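import Pool.Agent.Q44.BN.All

/-!
# The decomposition of the squarefree integers with respect to a modulus (after `Pool.Agent.Q44.BN.Dec`)
-/

set_option autoImplicit false

open scoped Classical

namespace Q44.BP

open Finset Filter
open Q44.TK (Fm hF hF_eq)
open Q44.TI (SelS cardf ratio pd)
open Q44.BN

/-- two integers are in the same local class at the primes which divide `m` -/
def SameM (m : ℕ) (D₀ D : ℤ) : Prop := 0 < D₀ * D ∧
  ∀ (p : ℕ) [Fact p.Prime], p ∣ m → IsSquare ((D₀ * D : ℤ) : ℚ_[p])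

theorem hTm (m : ℕ) : ∀ p ∈ m.primeFactors, p.Prime := fun _ hp => Nat.prime_of_mem_primeFactors hp

/-- the integers supported on the primes of `m` divide the product -/
theorem UU_dvd_s {m : ℕ} (g : GG m.primeFactors) : (UU g).natAbs ∣ ∏ p ∈ m.primeFactors, p := by
  unfold UU
  rw [Int.natAbs_mul, sgn_abs, one_mul]
  unfold pd
  rw [Int.natAbs_natCast]
  exact Finset.prod_dvd_prod_of_subset _ _ _ fun p hp => JJ_sub g hp

section

variable {m : ℕ} (m0 : m ≠ 0) (m8 : 8 ∣ m)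
include m0 m8

theorem sqf_mul {g : GG m.primeFactors} {d : ℕ} (hd : d.Coprime m) (hs : Squarefree d) :
    Squarefree (UU g * (d : ℤ)) := by
  rw [← Int.squarefree_natAbs, Int.natAbs_mul, Int.natAbs_natCast]
  refine (Nat.squarefree_mul ?_).2 ⟨Int.squarefree_natAbs.2 (UU_sqf (hTm m) g), hs⟩
  have h1 : (UU g).natAbs ∣ m := (UU_dvd_s g).trans (Nat.prod_primeFactors_dvd m)
  exact (Nat.Coprime.coprime_dvd_right h1 hd).symm

/-- the decomposition -/
theorem decM {D : ℤ} (hD : Squarefree D) : ∃ (g : GG m.primeFactors) (d : ℕ), Squarefree d ∧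
    d.Coprime m ∧ D = UU g * d := by
  set W := D.natAbs.primeFactors.filter fun p => ¬ p ∣ m with hW
  have hWp : ∀ p ∈ W, p.Prime := fun p hp => Nat.prime_of_mem_primeFactors (mem_filter.1 hp).1
  have hn : Squarefree D.natAbs := Int.squarefree_natAbs.2 hD
  have h1 : (∏ p ∈ W, p) ∣ D.natAbs := by
    have h2 : (∏ p ∈ W, p) ∣ ∏ p ∈ D.natAbs.primeFactors, p :=
      Finset.prod_dvd_prod_of_subset _ _ _ (filter_subset _ _)
    rwa [Nat.prod_primeFactors_of_squarefree hn] at h2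
  obtain ⟨u, hu⟩ := Int.natCast_dvd.2 h1
  have hus : Squarefree u := hD.squarefree_of_dvd (Dvd.intro_left _ hu.symm)
  have hcop : (∏ p ∈ W, p).Coprime m := Nat.Coprime.prod_left fun p hp =>
    (Nat.Prime.coprime_iff_not_dvd (hWp p hp)).2 (mem_filter.1 hp).2
  obtain ⟨g, hg⟩ := UU_surj (hTm m) hus fun p hp hd => by
    rw [Nat.mem_primeFactors]
    refine ⟨hp, ?_, m0⟩
    by_contra h2
    have h3 : (p : ℤ) ∣ D := by
      rw [hu]
      exact hd.mul_left _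
    have h4 : p ∈ W := mem_filter.2 ⟨Nat.mem_primeFactors.2 ⟨hp, Int.natCast_dvd.1 h3,
      Int.natAbs_ne_zero.2 hD.ne_zero⟩, h2⟩
    have h5 : (p : ℤ) ∣ ((∏ p ∈ W, p : ℕ) : ℤ) :=
      Int.natCast_dvd_natCast.2 (Finset.dvd_prod_of_mem _ h4)
    have h6 : (p : ℤ) * p ∣ D := by
      rw [hu]
      exact mul_dvd_mul h5 hd
    have h7 := hD _ h6
    rw [Int.isUnit_iff] at h7
    have := hp.one_lt
    omega
  refine ⟨g, ∏ p ∈ W, p, Q44.TI.sqf_prod hWp, hcop, ?_⟩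
  rw [hg, hu]
  ring

/-- the primes which divide the bad part -/
theorem dvd_k {g : GG m.primeFactors} {d : ℕ} (hd : d.Coprime m) {p : ℕ}
    (hp : p ∈ m.primeFactors) : (p : ℤ) ∣ UU g * d ↔ (p : ℤ) ∣ UU g := by
  have hpp := hTm m p hp
  constructor
  · intro h
    rcases (Nat.prime_iff_prime_int.1 hpp).dvd_or_dvd h with h1 | h1
    · exact h1
    · exfalso
      have h2 : p ∣ d := Int.natCast_dvd_natCast.1 h1
      have h3 : p ∣ m := Nat.dvd_of_mem_primeFactors hp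
      exact hpp.one_lt.ne' (Nat.dvd_one.1 (hd ▸ Nat.dvd_gcd h2 h3))
  · intro h
    exact h.mul_right _

theorem g_eq {g g' : GG m.primeFactors} (h1 : ∀ p ∈ m.primeFactors,
    ((p : ℤ) ∣ UU g ↔ (p : ℤ) ∣ UU g')) (h2 : 0 < UU g * UU g') : g = g' := by
  refine Prod.ext (funext fun t => two_eq _ _ ?_) (two_eq _ _ ?_)
  · have h3 := h1 t t.2
    rw [UU_dvd (hTm m) g (hTm m t t.2), UU_dvd (hTm m) g' (hTm m t t.2), mem_JJ, mem_JJ] at h3
    constructor
    · intro h4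
      by_contra h5
      obtain ⟨h6, h7⟩ := h3.2 ⟨t.2, h5⟩
      exact h7 h4
    · intro h4
      by_contra h5
      obtain ⟨h6, h7⟩ := h3.1 ⟨t.2, h5⟩
      exact h7 h4
  · rw [← UU_pos (hTm m), ← UU_pos (hTm m)]
    constructor
    · intro h3
      exact (mul_pos_iff_of_pos_left h3).1 h2
    · intro h3
      exact (mul_pos_iff_of_pos_right h3).1 h2

/-- the local classes -/
theorem same_iffM {g g₀ : GG m.primeFactors} {d d₀ : ℕ} (hd : d.Coprime m)
    (hd₀ : d₀.Coprime m) (hs : Squarefree (UU g * (d : ℤ))) (hs₀ : Squarefree (UU g₀ * (d₀ : ℤ))) :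
    SameM m (UU g₀ * d₀) (UU g * d) ↔ g = g₀ ∧ hF m d = hF m d₀ := by
  have h4 : 4 ∣ m := (by norm_num : 4 ∣ 8).trans m8
  have hd0 : (0 : ℤ) < d := by exact_mod_cast Nat.pos_of_ne_zero (ne_zero_of_cop h4 hd)
  have hd0' : (0 : ℤ) < d₀ := by exact_mod_cast Nat.pos_of_ne_zero (ne_zero_of_cop h4 hd₀)
  constructor
  · rintro ⟨h1, h2⟩
    have hg : g = g₀ := by
      refine g_eq m0 m8 (fun p hp => ?_) ?_
      · have hpp := hTm m p hp
        have : Fact p.Prime := ⟨hpp⟩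
        have h3 := h2 p (Nat.dvd_of_mem_primeFactors hp)
        rw [← dvd_k m0 m8 hd hp, ← dvd_k m0 m8 hd₀ hp]
        constructor
        · intro h5
          by_contra h6
          rw [mul_comm] at h3
          exact not_sq_of hs hs₀ h5 h6 h3
        · intro h5
          by_contra h6
          exact not_sq_of hs₀ hs h5 h6 h3
      · have e1 : UU g₀ * d₀ * (UU g * d) = (UU g * UU g₀) * ((d : ℤ) * d₀) := by ring
        rw [e1] at h1
        exact (mul_pos_iff_of_pos_right (mul_pos hd0 hd0')).1 h1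
    subst hg
    refine ⟨rfl, (hF_iff m0 m8 hd₀ hd).2 fun p hp hpm => ?_⟩
    obtain ⟨s, hs⟩ := h2 p hpm
    have hU : ((UU g : ℤ) : ℚ_[p]) ≠ 0 := by exact_mod_cast UU_ne (hTm m) g
    refine ⟨s / UU g, ?_⟩
    push_cast at hs ⊢
    field_simp
    linear_combination hs
  · rintro ⟨rfl, h⟩
    refine ⟨?_, fun p hp hd' => ?_⟩
    · have e1 : UU g * d₀ * (UU g * d) = UU g ^ 2 * ((d : ℤ) * d₀) := by ring
      have := UU_ne (hTm m) g
      rw [e1]
      positivity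
    · obtain ⟨s, hs⟩ := (hF_iff m0 m8 hd₀ hd).1 h p hd'
      refine ⟨s * UU g, ?_⟩
      push_cast at hs ⊢
      linear_combination ((UU g : ℤ) : ℚ_[p]) ^ 2 * hs

/-- the translation -/
theorem card_clsM (g : GG m.primeFactors) {d₀ : ℕ} (hd₀ : d₀.Coprime m) (hs₀ : Squarefree d₀)
    (X : ℕ) (Q : ℤ → Prop) (R : ℕ → Prop) (hR : ∀ d : ℕ, R d ↔ Q (UU g * d))
    {i1 : DecidablePred fun D => SameM m (UU g * d₀) D ∧ Q D}
    {i2 : DecidablePred fun d : ℕ => ((Squarefree d ∧ d.Coprime m) ∧ hF m d = hF m d₀) ∧ R d} :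
    ((Sq X).filter fun D => SameM m (UU g * d₀) D ∧ Q D).card =
      ((Icc 1 (X / (UU g).natAbs)).filter fun d : ℕ =>
        ((Squarefree d ∧ d.Coprime m) ∧ hF m d = hF m d₀) ∧ R d).card := by
  have hn : 0 < (UU g).natAbs := Int.natAbs_pos.2 (UU_ne (hTm m) g)
  symm
  refine Finset.card_bij (fun (d : ℕ) _ => UU g * (d : ℤ)) ?_ ?_ ?_
  · intro d hd
    obtain ⟨h1, ⟨⟨h2, h3⟩, h4⟩, h5⟩ := mem_filter.1 hd
    rw [mem_Icc] at h1
    have h6 : Squarefree (UU g * (d : ℤ)) := sqf_mul m0 m8 h3 h2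
    refine mem_filter.2 ⟨mem_Sq.2 ⟨?_, h6⟩, ?_, (hR d).1 h5⟩
    · rw [Int.natAbs_mul, Int.natAbs_natCast, mul_comm]
      exact (Nat.le_div_iff_mul_le hn).1 h1.2
    · exact (same_iffM m0 m8 h3 hd₀ h6 (sqf_mul m0 m8 hd₀ hs₀)).2 ⟨rfl, h4⟩
  · intro d _ d' _ h
    have := mul_left_cancel₀ (UU_ne (hTm m) g) h
    exact_mod_cast this
  · intro D hD
    obtain ⟨h1, h2, h3⟩ := mem_filter.1 hD
    obtain ⟨h4, h5⟩ := mem_Sq.1 h1
    obtain ⟨g', d, hd, hdm, rfl⟩ := decM m0 m8 h5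
    obtain ⟨rfl, h6⟩ := (same_iffM m0 m8 hdm hd₀ h5 (sqf_mul m0 m8 hd₀ hs₀)).1 h2
    refine ⟨d, mem_filter.2 ⟨mem_Icc.2 ⟨?_, ?_⟩, ⟨⟨hd, hdm⟩, h6⟩, (hR d).2 h3⟩, rfl⟩
    · exact Nat.pos_of_ne_zero hd.ne_zero
    · rw [Int.natAbs_mul, Int.natAbs_natCast, mul_comm] at h4
      exact (Nat.le_div_iff_mul_le hn).2 h4

theorem card_clsM' (g : GG m.primeFactors) {d₀ : ℕ} (hd₀ : d₀.Coprime m) (hs₀ : Squarefree d₀)
    (X : ℕ) {i1 : DecidablePred fun D => SameM m (UU g * d₀) D}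
    {i2 : DecidablePred fun d : ℕ => (Squarefree d ∧ d.Coprime m) ∧ hF m d = hF m d₀} :
    ((Sq X).filter fun D => SameM m (UU g * d₀) D).card =
      ((Icc 1 (X / (UU g).natAbs)).filter fun d : ℕ =>
        (Squarefree d ∧ d.Coprime m) ∧ hF m d = hF m d₀).card := by
  have h := card_clsM m0 m8 g hd₀ hs₀ X (fun _ => True) (fun _ => True) (fun _ => Iff.rfl)
    (i1 := Classical.decPred _) (i2 := Classical.decPred _)
  refine (cardS (fun D => ?_) _).trans (h.trans (cardS (fun D => ?_) _))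
  · exact ⟨fun h => ⟨h, trivial⟩, fun h => h.1⟩
  · exact ⟨fun h => h.1, fun h => ⟨h, trivial⟩⟩

end

theorem tend_divM {m : ℕ} (g : GG m.primeFactors) :
    Tendsto (fun X : ℕ => X / (UU g).natAbs) atTop atTop :=
  Nat.tendsto_div_const_atTop (Int.natAbs_ne_zero.2 (UU_ne (hTm m) g))

end Q44.BP
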