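import Pool.Agent.Q44.BP.Jl
import Pool.Agent.Q44.BP.Mo
import Pool.Agent.Q44.BP.Sc
import Pool.Agent.Q44.BN.Pub

/-!
# Several curves and a local class of twists
-/

set_option autoImplicit false
set_option linter.unusedSectionVars false

open scoped Classical

namespace Q44.BP

open Finset Module Filter Topology
open Q44.BC (lm lam)
open Q44.TK (Fm hF)
open Q44.TI (pd SelS cop_mod cardf ratio)
open Q44.BN

/-- several curves: `b` is not a square, `b (a² - 4 b)` is a square, the fields of the `2`-torsion are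
different; the bad primes divide `n` -/
structure Cs (K : Type) where
  a : K → ℤ
  b : K → ℤ
  n : ℕ
  hb : ∀ k, ¬ IsSquare (b k)
  hc : ∀ k, a k ^ 2 - 4 * b k ≠ 0
  hs : ∀ k, IsSquare (b k * (a k ^ 2 - 4 * b k))
  sep : ∀ k l, k ≠ l → ¬ IsSquare (b k * b l)
  n0 : n ≠ 0
  n2 : 2 ∣ n
  hn : ∀ k, ∀ p : ℕ, p.Prime → (p : ℤ) ∣ b k * (a k ^ 2 - 4 * b k) → p ∣ n

theorem sq_iff' {n k : ℤ} (hk : k ≠ 0) : IsSquare (n * k ^ 4) ↔ IsSquare n := by
  have e : n * k ^ 4 = n * (k ^ 2) ^ 2 := by ring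
  rw [e]
  exact Cd.sq_iff (pow_ne_zero 2 hk)

namespace Cs

variable {K : Type} [Fintype K] (e : Cs K)

/-- one curve -/
def cd (k : K) : Cd := ⟨e.a k, e.b k, e.hb k, e.hc k, e.hs k⟩

theorem b0 (k : K) : e.b k ≠ 0 := (e.cd k).b0

/-- the product of the discriminants -/
noncomputable def N : ℕ := e.n * ∏ k, (e.b k * (e.a k ^ 2 - 4 * e.b k)).natAbs

/-- the product of the primes -/
noncomputable def s : ℕ := ∏ p ∈ e.n.primeFactors, p

/-- the modulus -/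
noncomputable def m : ℕ := 128 * e.N * e.s ^ 12

theorem s0 : e.s ≠ 0 := prod_ne_zero_iff.2 fun _ hp => (Nat.prime_of_mem_primeFactors hp).ne_zero

theorem N0 : e.N ≠ 0 := mul_ne_zero e.n0 (prod_ne_zero_iff.2 fun k _ =>
  Int.natAbs_ne_zero.2 (mul_ne_zero (e.b0 k) (e.hc k)))

theorem m0 : e.m ≠ 0 := mul_ne_zero (mul_ne_zero (by norm_num) e.N0) (pow_ne_zero 12 e.s0)

theorem m8 : 8 ∣ e.m := ((by norm_num : 8 ∣ 128).mul_right _).mul_right _

theorem m_prime {p : ℕ} (hp : p.Prime) : p ∣ e.m ↔ p ∣ e.n := by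
  unfold m N
  constructor
  · intro h
    rcases hp.dvd_mul.1 h with h1 | h1
    · rcases hp.dvd_mul.1 h1 with h2 | h2
      · have h3 : p ∣ 2 ^ 7 := by simpa using h2
        exact (hp.dvd_of_dvd_pow h3).trans e.n2
      · rcases hp.dvd_mul.1 h2 with h3 | h3
        · exact h3
        · obtain ⟨k, -, hk⟩ := (Nat.Prime.prime hp).exists_mem_finset_dvd h3
          exact e.hn k p hp (Int.natCast_dvd.2 hk)
    · have h2 := hp.dvd_of_dvd_pow h1
      obtain ⟨q, hq, hpq⟩ := (Nat.Prime.prime hp).exists_mem_finset_dvd h2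
      have h3 := (Nat.prime_dvd_prime_iff_eq hp (Nat.prime_of_mem_primeFactors hq)).1 hpq
      rw [h3]
      exact Nat.dvd_of_mem_primeFactors hq
  · intro h
    exact ((h.mul_right _).mul_left _).mul_right _

theorem m_pf : e.m.primeFactors = e.n.primeFactors := by
  ext p
  rw [Nat.mem_primeFactors, Nat.mem_primeFactors]
  constructor
  · rintro ⟨h1, h2, -⟩
    exact ⟨h1, (e.m_prime h1).1 h2, e.n0⟩
  · rintro ⟨h1, h2, -⟩
    exact ⟨h1, (e.m_prime h1).2 h2, e.m0⟩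

theorem same_m {D₀ D : ℤ} : SameM e.m D₀ D ↔ SameM e.n D₀ D := by
  unfold SameM
  refine and_congr_right fun _ => ?_
  constructor
  · intro h p hp hd
    exact h p ((e.m_prime hp.out).2 hd)
  · intro h p hp hd
    exact h p ((e.m_prime hp.out).1 hd)

/-- the factor -/
noncomputable def w (g : GG e.m.primeFactors) : ℤ := (e.s : ℤ) ^ 2 * UU g

theorem w0 (g : GG e.m.primeFactors) : e.w g ≠ 0 :=
  mul_ne_zero (pow_ne_zero 2 (by exact_mod_cast e.s0)) (UU_ne (hTm e.m) g)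

theorem w_dvd (g : GG e.m.primeFactors) : (e.w g).natAbs ^ 4 ∣ e.s ^ 12 := by
  have h1 : (UU g).natAbs ∣ e.s := by
    have h2 : e.s = ∏ p ∈ e.m.primeFactors, p := by
      unfold s
      rw [e.m_pf]
    rw [h2]
    exact UU_dvd_s g
  unfold w
  rw [Int.natAbs_mul, Int.natAbs_pow, Int.natAbs_natCast, mul_pow, ← pow_mul]
  have e1 : e.s ^ 12 = e.s ^ (2 * 4) * e.s ^ 4 := by ring
  rw [e1]
  exact mul_dvd_mul dvd_rfl (pow_dvd_pow_of_dvd h1 4)

theorem dvd_w (g : GG e.m.primeFactors) {p : ℕ} (hp : p.Prime) (h : p ∣ e.m) :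
    (p : ℤ) ∣ e.w g := by
  have h1 : p ∣ e.s := by
    unfold s
    exact Finset.dvd_prod_of_mem _ (Nat.mem_primeFactors.2 ⟨hp, (e.m_prime hp).1 h, e.n0⟩)
  have h2 : (p : ℤ) ∣ (e.s : ℤ) := by exact_mod_cast h1
  exact (h2.trans (dvd_pow_self _ two_ne_zero)).mul_right _

theorem Md_w (k : K) (g : GG e.m.primeFactors) : Md (e.a k * e.w g) (e.b k * e.w g ^ 2) e.m := by
  have e1 : (e.b k * e.w g ^ 2) * ((e.a k * e.w g) ^ 2 - 4 * (e.b k * e.w g ^ 2)) =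
      e.b k * (e.a k ^ 2 - 4 * e.b k) * e.w g ^ 4 := by ring
  refine ⟨e.m0, ?_, fun p hp h => ?_⟩
  · rw [e1, Int.natAbs_mul, Int.natAbs_pow]
    unfold m N
    rw [← mul_assoc]
    refine mul_dvd_mul (mul_dvd_mul (by norm_num) ?_) (e.w_dvd g)
    exact (Finset.dvd_prod_of_mem (fun k => (e.b k * (e.a k ^ 2 - 4 * e.b k)).natAbs)
      (mem_univ k)).mul_left _
  · unfold N2
    rw [e1]
    have h1 := e.dvd_w g hp h
    exact ((h1.trans (dvd_pow_self _ (by norm_num))).mul_left _).mul_left _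

/-- the joint data of a local class -/
noncomputable def jd (g : GG e.m.primeFactors) {d : ℕ} (hd : d.Coprime e.m) : Jd K where
  A := fun k => e.a k * e.w g
  B := fun k => e.b k * e.w g ^ 2
  m := e.m
  d := d
  hB := fun k => by
    rw [Cd.sq_iff (e.w0 g)]
    exact e.hb k
  hC := fun k => by
    have e1 : (e.a k * e.w g) ^ 2 - 4 * (e.b k * e.w g ^ 2) =
      (e.a k ^ 2 - 4 * e.b k) * e.w g ^ 2 := by ring
    rw [e1]
    exact mul_ne_zero (e.hc k) (pow_ne_zero 2 (e.w0 g))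
  hs := fun k => by
    have e1 : (e.b k * e.w g ^ 2) * ((e.a k * e.w g) ^ 2 - 4 * (e.b k * e.w g ^ 2)) =
      e.b k * (e.a k ^ 2 - 4 * e.b k) * e.w g ^ 4 := by ring
    rw [e1, sq_iff' (e.w0 g)]
    exact e.hs k
  hm := fun k => e.Md_w k g
  m0 := e.m0
  m8 := e.m8
  hd := hd
  sep := fun k l hkl => by
    have e1 : (e.b k * e.w g ^ 2) * (e.b l * e.w g ^ 2) = e.b k * e.b l * e.w g ^ 4 := by ring
    rw [e1, sq_iff' (e.w0 g)]
    exact e.sep k l hkl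

/-- the constant of a curve and of a local class -/
noncomputable def tau (k : K) (D : ℤ) : ℝ := tm e.n.primeFactors (e.a k * D) (e.b k * D ^ 2)

/-- the constant of the dual curve -/
noncomputable def tau' (k : K) (D : ℤ) : ℝ :=
  tm e.n.primeFactors (-2 * (e.a k * D)) ((e.a k * D) ^ 2 - 4 * (e.b k * D ^ 2))

theorem t_jd (g : GG e.m.primeFactors) {d : ℕ} (hd : d.Coprime e.m) (k : K) :
    ((e.jd g hd).c k).t = e.tau k (UU g * d) := by
  rw [Cu.t_tm]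
  have e1 : ((e.jd g hd).c k).A * (d : ℤ) = e.a k * (UU g * d) * (e.s : ℤ) ^ 2 := by
    show e.a k * ((e.s : ℤ) ^ 2 * UU g) * d = _
    ring
  have e2 : ((e.jd g hd).c k).B * (d : ℤ) ^ 2 = e.b k * (UU g * d) ^ 2 * (e.s : ℤ) ^ 4 := by
    show e.b k * ((e.s : ℤ) ^ 2 * UU g) ^ 2 * d ^ 2 = _
    ring
  have e3 : ((e.jd g hd).c k).T = e.n.primeFactors := e.m_pf
  have e4 : ((e.jd g hd).c k).d = d := rfl
  rw [e3, e4, e1, e2, tm_scale _ (by exact_mod_cast e.s0)]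
  rfl

theorem SelS_jd (g : GG e.m.primeFactors) {d : ℕ} (hd : d.Coprime e.m) (k : K) (D : ℤ) :
    SelS ((e.jd g hd).A k * D) ((e.jd g hd).B k * D ^ 2) =
      SelS (e.a k * (UU g * D)) (e.b k * (UU g * D) ^ 2) := by
  have e1 : (e.jd g hd).A k * D = e.a k * (UU g * D) * (e.s : ℤ) ^ 2 := by
    show e.a k * ((e.s : ℤ) ^ 2 * UU g) * D = _
    ring
  have e2 : (e.jd g hd).B k * D ^ 2 = e.b k * (UU g * D) ^ 2 * (e.s : ℤ) ^ 4 := by
    show e.b k * ((e.s : ℤ) ^ 2 * UU g) ^ 2 * D ^ 2 = _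
    ring
  rw [e1, e2, SelS_scale (by exact_mod_cast e.s0)]

theorem SelS_jd' (g : GG e.m.primeFactors) {d : ℕ} (hd : d.Coprime e.m) (k : K) (D : ℤ) :
    SelS (-2 * ((e.jd g hd).A k * D)) (((e.jd g hd).A k * D) ^ 2 - 4 * ((e.jd g hd).B k * D ^ 2)) =
      SelS (-2 * (e.a k * (UU g * D)))
        ((e.a k * (UU g * D)) ^ 2 - 4 * (e.b k * (UU g * D) ^ 2)) := by
  have e1 : -2 * ((e.jd g hd).A k * D) = -2 * (e.a k * (UU g * D)) * (e.s : ℤ) ^ 2 := by
    show -2 * (e.a k * ((e.s : ℤ) ^ 2 * UU g) * D) = _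
    ring
  have e2 : ((e.jd g hd).A k * D) ^ 2 - 4 * ((e.jd g hd).B k * D ^ 2) =
      ((e.a k * (UU g * D)) ^ 2 - 4 * (e.b k * (UU g * D) ^ 2)) * (e.s : ℤ) ^ 4 := by
    show (e.a k * ((e.s : ℤ) ^ 2 * UU g) * D) ^ 2 -
      4 * (e.b k * ((e.s : ℤ) ^ 2 * UU g) ^ 2 * D ^ 2) = _
    ring
  rw [e1, e2, SelS_scale (by exact_mod_cast e.s0)]

/-- the proportion in the class of `D₀` -/
def Prp (D₀ : ℤ) (P : ℤ → Prop) (c : ℝ) : Prop :=
  Tendsto (fun X : ℕ => (((Sq X).filter fun D => SameM e.n D₀ D ∧ P D).card : ℝ) /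
      (((Sq X).filter fun D => SameM e.n D₀ D).card : ℝ)) atTop (𝓝 c)

theorem prp_of (g : GG e.m.primeFactors) {d : ℕ} (hd : d.Coprime e.m) (hs : Squarefree d)
    {P : ℤ → Prop} {Q : ℕ → Prop} (hPQ : ∀ D : ℕ, Q D ↔ P (UU g * D)) {c : ℝ}
    {i1 : DecidablePred fun D : ℕ => (e.jd g hd).Dm D ∧ Q D}
    {i2 : DecidablePred fun D : ℕ => (e.jd g hd).Dm D}
    (h : Tendsto (fun X : ℕ => ((@Finset.filter ℕ (fun D : ℕ => (e.jd g hd).Dm D ∧ Q D) i1
      (Icc 1 X)).card : ℝ) / ((@Finset.filter ℕ (fun D : ℕ => (e.jd g hd).Dm D) i2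
      (Icc 1 X)).card : ℝ)) atTop (𝓝 c)) :
    e.Prp (UU g * d) P c := by
  refine (h.comp (tend_divM g)).congr fun X => ?_
  refine congrArg₂ (fun x y : ℕ => (x : ℝ) / (y : ℝ)) ?_ ?_
  · refine ((card_clsM e.m0 e.m8 g hd hs X P Q hPQ (i1 := Classical.decPred _)).symm.trans ?_)
    exact cardS (fun D => and_congr_left fun _ => e.same_m) _
  · refine ((card_clsM' e.m0 e.m8 g hd hs X (i1 := Classical.decPred _)).symm.trans ?_)
    exact cardS (fun D => e.same_m) _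

/-- **the joint law of the Selmer groups** -/
theorem law {D₀ : ℤ} (h : Squarefree D₀) (r : K → ℕ) :
    e.Prp D₀ (fun D => ∀ k, (SelS (e.a k * D) (e.b k * D ^ 2)).ncard = 2 ^ (r k + 1))
      (∏ k, lam (e.tau k D₀) (r k)) := by
  obtain ⟨g, d, h1, h2, rfl⟩ := decM e.m0 e.m8 h
  have e1 : ∏ k, lam (e.tau k (UU g * d)) (r k) = ∏ k, lam ((e.jd g h2).c k).t (r k) :=
    prod_congr rfl fun k _ => by rw [e.t_jd g h2 k]
  rw [e1]
  refine e.prp_of g h2 h1 (fun D => ?_) ((e.jd g h2).law r)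
  exact forall_congr' fun k => by rw [e.SelS_jd g h2 k D]

theorem tau_pos {D₀ : ℤ} (h : Squarefree D₀) (k : K) : 0 < e.tau k D₀ := by
  obtain ⟨g, d, h1, h2, rfl⟩ := decM e.m0 e.m8 h
  rw [← e.t_jd g h2 k]
  exact ((e.jd g h2).c k).t_pos

/-- all the Selmer groups are as small as possible -/
theorem law_sm {D₀ : ℤ} (h : Squarefree D₀) (ht : ∀ k, e.tau k D₀ = 1) :
    e.Prp D₀ (fun D => ∀ k, (e.cd k).SmD D) (lam 1 0 ^ Fintype.card K) := by
  obtain ⟨g, d, h1, h2, rfl⟩ := decM e.m0 e.m8 h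
  refine e.prp_of g h2 h1 (fun D => ?_) ((e.jd g h2).law_small fun k => ?_)
  · refine forall_congr' fun k => ?_
    show ((SelS ((e.jd g h2).A k * D) ((e.jd g h2).B k * (D : ℤ) ^ 2)).ncard = 2 ∧
      (SelS (-2 * ((e.jd g h2).A k * D))
        (((e.jd g h2).A k * D) ^ 2 - 4 * ((e.jd g h2).B k * (D : ℤ) ^ 2))).ncard ≤ 2) ↔ _
    rw [e.SelS_jd g h2 k D, e.SelS_jd' g h2 k D]
    rfl
  · rw [e.t_jd]
    exact ht k

/-- the dual curves -/
def dual : Cs K where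
  a := fun k => -2 * e.a k
  b := fun k => e.a k ^ 2 - 4 * e.b k
  n := e.n
  hb := fun k => by
    have h1 := ((e.cd k).nsq one_ne_zero).2
    have e1 : ((e.cd k).a * 1) ^ 2 - 4 * ((e.cd k).b * 1 ^ 2) = e.a k ^ 2 - 4 * e.b k := by
      show (e.a k * 1) ^ 2 - 4 * (e.b k * 1 ^ 2) = _
      ring
    rwa [e1] at h1
  hc := fun k => by
    have e1 : (-2 * e.a k) ^ 2 - 4 * (e.a k ^ 2 - 4 * e.b k) = 16 * e.b k := by ring
    rw [e1]
    exact mul_ne_zero (by norm_num) (e.b0 k)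
  hs := fun k => by
    obtain ⟨s, hs⟩ := e.hs k
    refine ⟨4 * s, ?_⟩
    linear_combination 16 * hs
  sep := fun k l hkl h => by
    obtain ⟨s, hs⟩ := e.hs k
    obtain ⟨t, ht⟩ := e.hs l
    obtain ⟨u, hu⟩ := h
    apply e.sep k l hkl
    have h1 : (e.a k ^ 2 - 4 * e.b k) * (e.a l ^ 2 - 4 * e.b l) ≠ 0 :=
      mul_ne_zero (e.hc k) (e.hc l)
    rw [← Cd.sq_iff h1]
    refine ⟨s * t * u, ?_⟩
    linear_combination (e.b l * (e.a l ^ 2 - 4 * e.b l)) *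
      ((e.a k ^ 2 - 4 * e.b k) * (e.a l ^ 2 - 4 * e.b l)) * hs +
      (s * s) * ((e.a k ^ 2 - 4 * e.b k) * (e.a l ^ 2 - 4 * e.b l)) * ht +
      (s * s * (t * t)) * hu
  n0 := e.n0
  n2 := e.n2
  hn := fun k p hp h => by
    have e1 : (e.a k ^ 2 - 4 * e.b k) * ((-2 * e.a k) ^ 2 - 4 * (e.a k ^ 2 - 4 * e.b k)) =
      2 ^ 4 * (e.b k * (e.a k ^ 2 - 4 * e.b k)) := by ring
    rw [e1] at h
    have hP := Nat.prime_iff_prime_int.1 hp
    rcases hP.dvd_or_dvd h with h1 | h1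
    · have h2 := hP.dvd_of_dvd_pow h1
      have h3 : p ∣ 2 := by exact_mod_cast h2
      exact h3.trans e.n2
    · exact e.hn k p hp h1

theorem law_dual {D₀ : ℤ} (h : Squarefree D₀) (r : K → ℕ) :
    e.Prp D₀ (fun D => ∀ k, (e.cd k).nS' D = 2 ^ (r k + 1)) (∏ k, lam (e.tau' k D₀) (r k)) := by
  have h1 := e.dual.law h r
  have e1 : ∀ (k : K) (D : ℤ), e.dual.a k * D = -2 * (e.a k * D) := fun k D => by
    show -2 * e.a k * D = _
    ring
  have e2 : ∀ (k : K) (D : ℤ), e.dual.b k * D ^ 2 = (e.a k * D) ^ 2 - 4 * (e.b k * D ^ 2) :=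
    fun k D => by
      show (e.a k ^ 2 - 4 * e.b k) * D ^ 2 = _
      ring
  have e3 : ∀ k, e.dual.tau k D₀ = e.tau' k D₀ := fun k => by
    unfold tau tau'
    rw [e1, e2]
    rfl
  have e4 : ∏ k, lam (e.dual.tau k D₀) (r k) = ∏ k, lam (e.tau' k D₀) (r k) :=
    prod_congr rfl fun k _ => by rw [e3 k]
  rw [e4] at h1
  refine h1.congr fun X => ?_
  refine congrArg₂ (fun x y : ℕ => (x : ℝ) / (y : ℝ)) (cardS (fun D => ?_) _) rfl
  refine and_congr_right fun _ => forall_congr' fun k => ?_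
  rw [e1, e2]
  rfl

/-- **rank zero and no elements of `2`-power order, for all the curves** -/
theorem law_rs {D₀ : ℤ} (h : Squarefree D₀) (ht : ∀ k, e.tau k D₀ = 1)
    (ht' : ∀ k, e.tau' k D₀ = 1) :
    e.Prp D₀ (fun D => ∀ k, (e.cd k).rs D = 1) (lam 1 0 ^ Fintype.card K) := by
  have h1 := e.law_sm h ht
  have h2 := e.law_dual h fun _ => 0
  have e1 : ∏ k, lam (e.tau' k D₀) 0 = lam 1 0 ^ Fintype.card K := by
    have e2 : ∏ k, lam (e.tau' k D₀) 0 = ∏ _k : K, lam 1 0 :=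
      prod_congr rfl fun k _ => by rw [ht' k]
    rw [e2, prod_const, card_univ]
  rw [e1] at h2
  refine between Sq h1 h2 (fun X D hD h => ⟨h.1, fun k => ?_⟩) fun X D hD h => ⟨h.1, fun k => ?_⟩
  · have hsq := (mem_Sq.1 hD).2
    have k1 := (e.cd k).rs_pos hsq
    have k2 := ((e.cd k).rs_le hsq).2
    have k3 := (h.2 k).1
    have k4 := (h.2 k).2
    rw [k3] at k2
    show (e.cd k).rs D = 1
    omega
  · have hsq := (mem_Sq.1 hD).2
    have k1 := (e.cd k).nS'_le hsq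
    have k2 : (e.cd k).rs D = 1 := h.2 k
    obtain ⟨r, hr⟩ := ((e.cd k).pow_nS hsq).2.2.2
    rw [k2, hr] at k1
    have k3 : r = 0 := by
      by_contra h0
      have : 2 ^ 2 ≤ 2 ^ (r + 1) := Nat.pow_le_pow_right (by norm_num) (by omega)
      omega
    rw [k3] at hr
    exact hr

/-- the local classes have positive density -/
theorem density {D₀ : ℤ} (h : Squarefree D₀) : ∃ (η : ℝ) (X₀ : ℕ), 0 < η ∧ ∀ X : ℕ, X₀ ≤ X →
    η * (X : ℝ) ≤ (((Sq X).filter fun D => SameM e.n D₀ D).card : ℝ) := by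
  obtain ⟨g, d, h1, h2, rfl⟩ := decM e.m0 e.m8 h
  obtain ⟨η, X₀, hη, hX₀⟩ := (e.jd g h2).pos_cls
  set n := (UU g).natAbs with hn
  have hn0 : 0 < n := Int.natAbs_pos.2 (UU_ne (hTm e.m) g)
  have hn0' : (0 : ℝ) < n := by exact_mod_cast hn0
  refine ⟨η / (2 * n), n * (X₀ + 1), by positivity, fun X hX => ?_⟩
  have hY : X₀ + 1 ≤ X / n := (Nat.le_div_iff_mul_le hn0).2 (by rw [mul_comm]; exact hX)
  have k1 := hX₀ (X / n) (by omega)
  have k2 : (((Sq X).filter fun D => SameM e.n (UU g * d) D).card : ℝ) =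
      (((Icc 1 (X / n)).filter fun D : ℕ => (e.jd g h2).Dm D).card : ℝ) := by
    congr 1
    refine Eq.trans ?_ (card_clsM' e.m0 e.m8 g h2 h1 X (i1 := Classical.decPred _))
    exact cardS (fun D => e.same_m.symm) _
  rw [k2]
  refine le_trans ?_ k1
  have k4 : (X : ℝ) / (2 * n) ≤ ((X / n : ℕ) : ℝ) := by
    have k5 : X < n * (X / n + 1) := Nat.lt_mul_div_succ X hn0
    have k6 : X ≤ 2 * n * (X / n) := by nlinarith
    rw [div_le_iff₀ (by positivity)]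
    have k7 : (X : ℝ) ≤ ((2 * n * (X / n) : ℕ) : ℝ) := by exact_mod_cast k6
    push_cast at k7 ⊢
    linarith
  calc η / (2 * n) * (X : ℝ) = η * ((X : ℝ) / (2 * n)) := by ring
    _ ≤ η * ((X / n : ℕ) : ℝ) := by gcongr

end Cs

end Q44.BP
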