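import Pool.Agent.Q44.BP.Fml
import Mathlib.NumberTheory.LSeries.PrimesInAP
import Mathlib.NumberTheory.SumTwoSquares

/-!
# Families of curves with a common balanced class
-/

set_option autoImplicit false

open scoped Classical

namespace Q44.BP

open Finset
open Q44.TI (Loc)
open Q44.BN

/-- the norm of an integer exactly divisible by `p` -/
theorem norm_exact {p : ℕ} [hp : Fact p.Prime] {D k : ℤ} (h : D = p * k) (hk : ¬ (p : ℤ) ∣ k) :
    ‖(D : ℚ_[p])‖ = (p : ℝ)⁻¹ := by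
  have h1 : ‖(k : ℚ_[p])‖ = 1 := by
    refine le_antisymm (Padic.norm_int_le_one _) (not_lt.1 fun h5 => hk ?_)
    exact (Padic.norm_intCast_lt_one_iff).1 h5
  rw [h]
  push_cast
  rw [norm_mul, h1, mul_one]
  exact Padic.norm_p

/-- the product of the primes of a finite set, with the sign `-1` -/
def neg (S : Finset ℕ) : ℤ := -∏ p ∈ S, (p : ℤ)

theorem neg_lt {S : Finset ℕ} (hS : ∀ p ∈ S, p.Prime) : neg S < 0 := by
  have : (0 : ℤ) < ∏ p ∈ S, (p : ℤ) := prod_pos fun p hp => by exact_mod_cast (hS p hp).pos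
  unfold neg
  omega

theorem neg_ex {S : Finset ℕ} (hS : ∀ p ∈ S, p.Prime) {p : ℕ} (hp : p ∈ S) :
    ∃ k : ℤ, neg S = p * k ∧ ¬ (p : ℤ) ∣ k := by
  refine ⟨-∏ q ∈ S.erase p, (q : ℤ), ?_, ?_⟩
  · unfold neg
    rw [← mul_prod_erase S (fun q => (q : ℤ)) hp]
    ring
  · rw [dvd_neg]
    intro h
    have hP := Nat.prime_iff_prime_int.1 (hS p hp)
    obtain ⟨q, hq, hpq⟩ := hP.exists_mem_finset_dvd h
    rw [mem_erase] at hq
    have h1 : p ∣ q := by exact_mod_cast hpq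
    exact hq.1 ((Nat.prime_dvd_prime_iff_eq (hS p hp) (hS q hq.2)).1 h1).symm

theorem neg_sq {S : Finset ℕ} (hS : ∀ p ∈ S, p.Prime) : Squarefree (neg S) := by
  have h1 : Squarefree (∏ p ∈ S, p) := by
    refine Finset.squarefree_prod_of_pairwise_isCoprime (fun p hp q hq hpq => ?_)
      fun p hp => (hS p hp).squarefree
    exact Nat.coprime_iff_isRelPrime.1 ((Nat.coprime_primes (hS p hp) (hS q hq)).2 hpq)
  rw [← Int.squarefree_natAbs]
  have h2 : (neg S).natAbs = ∏ p ∈ S, p := by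
    unfold neg
    rw [Int.natAbs_neg]
    have : (∏ p ∈ S, (p : ℤ)) = ((∏ p ∈ S, p : ℕ) : ℤ) := by push_cast; rfl
    rw [this, Int.natAbs_natCast]
  rw [h2]
  exact h1

theorem neg_four {S : Finset ℕ} (hS : ∀ p ∈ S, p.Prime) (h2 : 2 ∈ S) : neg S % 4 = 2 := by
  obtain ⟨k, hk, hk'⟩ := neg_ex hS h2
  push_cast at hk hk'
  omega

namespace Bt

variable (x : Bt)

/-- **the constants are one** -/
theorem tm_one {S : Finset ℕ} (hS : ∀ p ∈ S, p.Prime) (h2 : 2 ∈ S) :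
    tm S (x.β * neg S) (x.β * x.r ^ 2 * neg S ^ 2) = 1 ∧
    tm S (-2 * (x.β * neg S)) ((x.β * neg S) ^ 2 - 4 * (x.β * x.r ^ 2 * neg S ^ 2)) = 1 := by
  have hlt := neg_lt hS
  have h4 := neg_four hS h2
  have hodd : ∀ p ∈ S.erase 2, imc (x.β * neg S) (x.β * x.r ^ 2 * neg S ^ 2) p = 2 ∧
      imc (-2 * (x.β * neg S)) ((x.β * neg S) ^ 2 - 4 * (x.β * x.r ^ 2 * neg S ^ 2)) p = 2 := by
    intro p hp
    rw [mem_erase] at hp
    have : Fact p.Prime := ⟨hS p hp.2⟩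
    obtain ⟨k, hk, hk'⟩ := neg_ex hS hp.2
    obtain ⟨k1, k2⟩ := x.im_odd hp.1 hlt.ne (norm_exact hk hk')
    rw [imc_pos, imc_pos]
    exact ⟨k1, k2⟩
  have hc : S.card = (S.erase 2).card + 1 := by
    rw [card_erase_of_mem h2]
    have := card_pos.2 ⟨2, h2⟩
    omega
  constructor
  · unfold tm
    rw [← mul_prod_erase S _ h2, x.im2_a h4, prod_congr rfl fun p hp => (hodd p hp).1, prod_const,
      x.re_a hlt, hc]
    push_cast
    rw [div_eq_one_iff_eq (by positivity)]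
    ring
  · unfold tm
    rw [← mul_prod_erase S _ h2, x.im2_b h4, prod_congr rfl fun p hp => (hodd p hp).2, prod_const,
      x.re_b hlt, hc]
    push_cast
    rw [div_eq_one_iff_eq (by positivity)]
    ring

theorem nsq_b : ¬ IsSquare ((x.β : ℤ) * x.r ^ 2) := by
  rw [Cd.sq_iff x.r0]
  exact (Nat.prime_iff_prime_int.1 x.hp).irreducible.not_isSquare

theorem hc : (x.β : ℤ) ^ 2 - 4 * (x.β * x.r ^ 2) ≠ 0 := by
  have := x.hC (D := 1) one_ne_zero
  simpa using this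

theorem hs : IsSquare ((x.β * x.r ^ 2) * ((x.β : ℤ) ^ 2 - 4 * (x.β * x.r ^ 2))) := by
  refine ⟨x.β * x.r * x.s, ?_⟩
  have h1 := x.e
  linear_combination (x.β : ℤ) ^ 2 * x.r ^ 2 * h1

theorem sep {y : Bt} (h : x.β ≠ y.β) :
    ¬ IsSquare ((x.β * x.r ^ 2) * (y.β * y.r ^ 2) : ℤ) := by
  have e1 : ((x.β * x.r ^ 2) * (y.β * y.r ^ 2) : ℤ) = x.β * y.β * (x.r * y.r) ^ 2 := by ring
  rw [e1, Cd.sq_iff (mul_ne_zero x.r0 y.r0)]
  rintro ⟨k, hk⟩
  have hx := Nat.prime_iff_prime_int.1 x.hp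
  have h1 : (x.β : ℤ) ∣ k * k := ⟨y.β, hk.symm⟩
  have h2 : (x.β : ℤ) ∣ k := (hx.dvd_or_dvd h1).elim id id
  obtain ⟨l, rfl⟩ := h2
  have h3 : (y.β : ℤ) = x.β * (l * l) := by
    have := x.β0
    apply mul_left_cancel₀ this
    linear_combination hk
  have h4 : x.β ∣ y.β := by
    have : (x.β : ℤ) ∣ y.β := ⟨l * l, h3⟩
    exact_mod_cast this
  exact h ((Nat.prime_dvd_prime_iff_eq x.hp y.hp).1 h4)

end Bt

/-- the decompositions exist -/
theorem exists_dec {β : ℕ} (hp : β.Prime) (h8 : β % 8 = 5) : ∃ r s : ℤ, (β : ℤ) = s ^ 2 + 4 * r ^ 2 := by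
  have : Fact β.Prime := ⟨hp⟩
  obtain ⟨a, b, hab⟩ := Nat.Prime.sq_add_sq (p := β) (by omega)
  rcases Nat.even_or_odd a with ha | ha
  · obtain ⟨k, rfl⟩ := ha
    refine ⟨k, b, ?_⟩
    rw [← hab]
    push_cast
    ring
  · rcases Nat.even_or_odd b with hb | hb
    · obtain ⟨k, rfl⟩ := hb
      refine ⟨k, a, ?_⟩
      rw [← hab]
      push_cast
      ring
    · exfalso
      obtain ⟨k, rfl⟩ := ha
      obtain ⟨l, rfl⟩ := hb
      have : β = 2 * (2 * k ^ 2 + 2 * k + 2 * l ^ 2 + 2 * l + 1) := by rw [← hab]; ring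
      omega

/-- there are infinitely many primes of this kind -/
theorem exists_primes (M : ℕ) : ∃ β : Fin M → ℕ, Function.Injective β ∧
    ∀ k, (β k).Prime ∧ β k % 8 = 5 := by
  have h : Set.Infinite {p : ℕ | p.Prime ∧ (p : ZMod 8) = 5} :=
    Nat.infinite_setOfPred_prime_and_eq_mod (by decide)
  have := h.to_subtype
  refine ⟨fun k => ((Infinite.natEmbedding _ (k : ℕ) : {p : ℕ | p.Prime ∧ (p : ZMod 8) = 5}) : ℕ),
    fun k l hkl => ?_, fun k => ?_⟩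
  · exact Fin.ext ((Infinite.natEmbedding _).injective (Subtype.ext hkl))
  · have key : ∀ y : {p : ℕ | p.Prime ∧ (p : ZMod 8) = 5}, (y : ℕ).Prime ∧ (y : ℕ) % 8 = 5 := by
      rintro ⟨p, hp, h8⟩
      refine ⟨hp, ?_⟩
      have h1 : ((p : ℕ) : ZMod 8) = ((5 : ℕ) : ZMod 8) := by rw [h8]; rfl
      have := (ZMod.natCast_eq_natCast_iff' _ _ _).1 h1
      exact this
    exact key _

end Q44.BP
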