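import Pool.Agent.Q44.BP.Geo
import Pool.Agent.Q44.BC.LA6

/-!
# Systems with common random coefficients: the factorization of the moments
-/

set_option autoImplicit false
set_option linter.unusedSectionVars false
set_option linter.unusedVariables false

open scoped Classical

namespace Q44.BP

open Finset Module
open Pool.Agent.Y703.CQ (prs)

/-- the sign -/
noncomputable def sgr (x : ZMod 2) : ℝ := if x = 0 then 1 else -1

theorem two_cases : ∀ x : ZMod 2, x = 0 ∨ x = 1 := by decide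

theorem sgr_add (x y : ZMod 2) : sgr (x + y) = sgr x * sgr y := by
  rcases two_cases x with rfl | rfl <;> rcases two_cases y with rfl | rfl <;>
    simp [sgr, CharTwo.add_self_eq_zero]

theorem sgr_zero : sgr 0 = 1 := if_pos rfl

theorem sgr_abs (x : ZMod 2) : |sgr x| = 1 := by
  unfold sgr
  split_ifs <;> simp

theorem sgr_sum {ι : Type} (s : Finset ι) (f : ι → ZMod 2) :
    sgr (∑ i ∈ s, f i) = ∏ i ∈ s, sgr (f i) := by
  induction s using Finset.induction_on with
  | empty => simp [sgr_zero]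
  | insert a s ha ih => rw [Finset.sum_insert ha, Finset.prod_insert ha, sgr_add, ih]

/-- orthogonality -/
theorem orth {E : Type} [Fintype E] [DecidableEq E] (h : E → ZMod 2) :
    ∑ α : E → ZMod 2, sgr (∑ e, α e * h e) = if ∀ e, h e = 0 then 2 ^ Fintype.card E else 0 := by
  have h1 : ∑ α : E → ZMod 2, sgr (∑ e, α e * h e) = ∏ e, ∑ x : ZMod 2, sgr (x * h e) := by
    rw [Finset.prod_univ_sum, Fintype.piFinset_univ]
    exact Finset.sum_congr rfl fun α _ => sgr_sum _ _
  have h2 : ∀ y : ZMod 2, ∑ x : ZMod 2, sgr (x * y) = if y = 0 then 2 else 0 := by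
    intro y
    have hu : (univ : Finset (ZMod 2)) = {0, 1} := by decide
    rw [hu, Finset.sum_pair (by decide)]
    rcases two_cases y with rfl | rfl
    · simp [sgr_zero]
      norm_num
    · rw [zero_mul, one_mul, sgr_zero]
      simp [sgr]
  rw [h1, Finset.prod_congr rfl fun e _ => h2 (h e)]
  by_cases hh : ∀ e, h e = 0
  · rw [if_pos hh, Finset.prod_congr rfl fun e _ => if_pos (hh e), Finset.prod_const,
      Finset.card_univ]
  · rw [if_neg hh]
    push Not at hh
    obtain ⟨e, he⟩ := hh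
    exact Finset.prod_eq_zero (mem_univ e) (if_neg he)

/-- the mean of a product of trigonometric sums -/
theorem four {E K : Type} [Fintype E] [DecidableEq E] [Fintype K] {Z : K → Type} [∀ k, Fintype (Z k)]
    (g : ∀ k, Z k → ℝ) (hg : ∀ k z, |g k z| ≤ 1) (h : ∀ k, Z k → E → ZMod 2) :
    |(∑ α : E → ZMod 2, ∏ k, ∑ z : Z k, g k z * sgr (∑ e, α e * h k z e)) / 2 ^ Fintype.card E -
      ∏ k, ((∑ α : E → ZMod 2, ∑ z : Z k, g k z * sgr (∑ e, α e * h k z e)) /
        2 ^ Fintype.card E)| ≤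
    (Nat.card {z : ∀ k, Z k // (∀ e, ∑ k, h k (z k) e = 0) ∧ ¬ ∀ k e, h k (z k) e = 0} : ℝ) := by
  have hp : (2 : ℝ) ^ Fintype.card E ≠ 0 := by positivity
  have e1 : (∑ α : E → ZMod 2, ∏ k, ∑ z : Z k, g k z * sgr (∑ e, α e * h k z e)) /
      2 ^ Fintype.card E = ∑ z : ∀ k, Z k, (∏ k, g k (z k)) *
        (if ∀ e, ∑ k, h k (z k) e = 0 then 1 else 0) := by
    have h1 : ∀ α : E → ZMod 2, ∏ k, ∑ z : Z k, g k z * sgr (∑ e, α e * h k z e) =
        ∑ z : ∀ k, Z k, (∏ k, g k (z k)) * sgr (∑ e, α e * ∑ k, h k (z k) e) := by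
      intro α
      rw [Finset.prod_univ_sum, Fintype.piFinset_univ]
      refine Finset.sum_congr rfl fun z _ => ?_
      rw [Finset.prod_mul_distrib, ← sgr_sum]
      congr 2
      rw [Finset.sum_comm]
      exact Finset.sum_congr rfl fun e _ => (Finset.mul_sum _ _ _).symm
    rw [Finset.sum_congr rfl fun α _ => h1 α, Finset.sum_comm, Finset.sum_div]
    refine Finset.sum_congr rfl fun z _ => ?_
    rw [← Finset.mul_sum, orth fun e => ∑ k, h k (z k) e]
    by_cases hh : ∀ e, ∑ k, h k (z k) e = 0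
    · rw [if_pos hh, if_pos hh, mul_div_assoc, div_self hp]
    · rw [if_neg hh, if_neg hh, mul_zero, zero_div]
  have e2 : ∏ k, ((∑ α : E → ZMod 2, ∑ z : Z k, g k z * sgr (∑ e, α e * h k z e)) /
        2 ^ Fintype.card E) = ∑ z : ∀ k, Z k, (∏ k, g k (z k)) *
        (if ∀ k e, h k (z k) e = 0 then 1 else 0) := by
    have h1 : ∀ k, (∑ α : E → ZMod 2, ∑ z : Z k, g k z * sgr (∑ e, α e * h k z e)) /
        2 ^ Fintype.card E = ∑ z : Z k, g k z * (if ∀ e, h k z e = 0 then 1 else 0) := by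
      intro k
      rw [Finset.sum_comm, Finset.sum_div]
      refine Finset.sum_congr rfl fun z _ => ?_
      rw [← Finset.mul_sum, orth fun e => h k z e]
      by_cases hh : ∀ e, h k z e = 0
      · rw [if_pos hh, if_pos hh, mul_div_assoc, div_self hp]
      · rw [if_neg hh, if_neg hh, mul_zero, zero_div]
    rw [Finset.prod_congr rfl fun k _ => h1 k, Finset.prod_univ_sum, Fintype.piFinset_univ]
    refine Finset.sum_congr rfl fun z _ => ?_
    rw [Finset.prod_mul_distrib]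
    congr 1
    by_cases hh : ∀ k e, h k (z k) e = 0
    · rw [if_pos hh]
      exact Finset.prod_eq_one fun k _ => if_pos (hh k)
    · rw [if_neg hh]
      push Not at hh
      obtain ⟨k, e, hke⟩ := hh
      exact Finset.prod_eq_zero (mem_univ k) (if_neg fun h' => hke (h' e))
  rw [e1, e2, ← Finset.sum_sub_distrib, Nat.card_eq_fintype_card, Fintype.card_subtype,
    Finset.card_filter]
  push_cast
  refine (Finset.abs_sum_le_sum_abs _ _).trans (Finset.sum_le_sum fun z _ => ?_)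
  have hgz : |∏ k, g k (z k)| ≤ 1 := by
    rw [Finset.abs_prod]
    exact Finset.prod_le_one (fun k _ => abs_nonneg _) fun k _ => hg k _
  rw [← mul_sub, abs_mul]
  by_cases hB : ∀ k e, h k (z k) e = 0
  · have hA : ∀ e, ∑ k, h k (z k) e = 0 := fun e => Finset.sum_eq_zero fun k _ => hB k e
    rw [if_pos hB, if_pos hA, sub_self, abs_zero, mul_zero]
    split_ifs <;> norm_num
  · by_cases hA : ∀ e, ∑ k, h k (z k) e = 0
    · rw [if_neg hB, if_pos hA, if_pos ⟨hA, hB⟩, sub_zero, abs_one, mul_one]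
      exact hgz
    · rw [if_neg hB, if_neg hA, sub_self, abs_zero, mul_zero]
      split_ifs <;> norm_num

/-- the indicator of a system -/
theorem ind_char {Q : Type} [Fintype Q] [DecidableEq Q] (E : Q → ZMod 2) :
    ((if ∀ q, E q = 0 then 1 else 0 : ℕ) : ℝ) =
      (∑ y : Q → ZMod 2, sgr (∑ q, y q * E q)) / 2 ^ Fintype.card Q := by
  have hp : (2 : ℝ) ^ Fintype.card Q ≠ 0 := by positivity
  rw [orth]
  by_cases h : ∀ q, E q = 0
  · rw [if_pos h, if_pos h, div_self hp, Nat.cast_one]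
  · rw [if_neg h, if_neg h, zero_div, Nat.cast_zero]

section main

variable {ι K : Type} [Fintype ι] [LinearOrder ι] [Fintype K]

theorem ext_univ (α : prs (univ : Finset ι) → ZMod 2) {a b : ι} (h : a < b) :
    Pool.Agent.Y703.CQ.ext α a b = α ⟨(a, b), mem_filter.2 ⟨mem_univ _, mem_univ _, h.ne', fun _ => h⟩⟩ ∧
    Pool.Agent.Y703.CQ.ext α b a = α ⟨(a, b), mem_filter.2 ⟨mem_univ _, mem_univ _, h.ne', fun _ => h⟩⟩ := by
  have h1 : (a, b) ∈ prs (univ : Finset ι) := mem_filter.2 ⟨mem_univ _, mem_univ _, h.ne', fun _ => h⟩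
  have h2 : ¬ (b, a) ∈ prs (univ : Finset ι) := fun h' =>
    h.asymm ((mem_filter.1 h').2.2.2 (mem_univ _))
  constructor
  · unfold Pool.Agent.Y703.CQ.ext
    rw [dif_pos h1]
  · unfold Pool.Agent.Y703.CQ.ext
    rw [dif_neg h2, dif_pos ⟨h1, mem_univ _⟩]

theorem ext_self (α : prs (univ : Finset ι) → ZMod 2) (a : ι) : Pool.Agent.Y703.CQ.ext α a a = 0 := by
  have h2 : ¬ (a, a) ∈ prs (univ : Finset ι) := fun h' => (mem_filter.1 h').2.2.1 rfl
  unfold Pool.Agent.Y703.CQ.ext
  rw [dif_neg h2, dif_neg fun h => h2 h.1]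

/-- a row as a linear form in the coefficients -/
theorem row_lin (α : prs (univ : Finset ι) → ZMod 2) (w : ι → ZMod 2) (a : ι) :
    ∑ b, Pool.Agent.Y703.CQ.ext α a b * (w b + w a) = ∑ e : prs (univ : Finset ι), α e *
      (((if a = e.1.1 then 1 else 0) + (if a = e.1.2 then 1 else 0)) * (w e.1.1 + w e.1.2)) := by
  have h1 : ∀ e : prs (univ : Finset ι), α e *
      (((if a = e.1.1 then 1 else 0) + (if a = e.1.2 then 1 else 0)) * (w e.1.1 + w e.1.2)) =
      ∑ b, if (a = e.1.1 ∧ b = e.1.2) ∨ (a = e.1.2 ∧ b = e.1.1) then Pool.Agent.Y703.CQ.ext α a b * (w b + w a)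
        else 0 := by
    rintro ⟨⟨p, q⟩, he⟩
    have hpq : p < q := (mem_filter.1 he).2.2.2 (mem_univ _)
    simp only
    by_cases hp : a = p
    · subst hp
      have hq : a ≠ q := hpq.ne
      rw [if_pos rfl, if_neg hq, Finset.sum_eq_single q]
      · rw [if_pos (Or.inl ⟨rfl, rfl⟩), (ext_univ α hpq).1]
        ring
      · intro b _ hb
        rw [if_neg]
        rintro (⟨-, h⟩ | ⟨h, -⟩)
        · exact hb h
        · exact hq h
      · intro h
        exact absurd (mem_univ _) h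
    · by_cases hq : a = q
      · subst hq
        rw [if_neg hp, if_pos rfl, Finset.sum_eq_single p]
        · rw [if_pos (Or.inr ⟨rfl, rfl⟩), (ext_univ α hpq).2]
          ring
        · intro b _ hb
          rw [if_neg]
          rintro (⟨h, -⟩ | ⟨-, h⟩)
          · exact hp h
          · exact hb h
        · intro h
          exact absurd (mem_univ _) h
      · rw [if_neg hp, if_neg hq, Finset.sum_eq_zero]
        · ring
        · intro b _
          rw [if_neg]
          rintro (⟨h, -⟩ | ⟨h, -⟩)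
          · exact hp h
          · exact hq h
  rw [Finset.sum_congr rfl fun e _ => h1 e, Finset.sum_comm]
  refine Finset.sum_congr rfl fun b _ => ?_
  rcases lt_trichotomy a b with h | h | h
  · rw [Finset.sum_eq_single (⟨(a, b), mem_filter.2 ⟨mem_univ _, mem_univ _, h.ne', fun _ => h⟩⟩ :
      prs (univ : Finset ι))]
    · rw [if_pos (Or.inl ⟨rfl, rfl⟩)]
    · rintro ⟨⟨p, q⟩, he⟩ _ hne
      have hpq : p < q := (mem_filter.1 he).2.2.2 (mem_univ _)
      simp only
      rw [if_neg]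
      rintro (⟨h3, h4⟩ | ⟨h3, h4⟩)
      · exact hne (Subtype.ext (Prod.ext h3.symm h4.symm))
      · rw [h3, h4] at h
        exact h.asymm hpq
    · intro h'
      exact absurd (mem_univ _) h'
  · subst h
    rw [ext_self, zero_mul]
    exact (Finset.sum_eq_zero fun e _ => by split_ifs <;> rfl).symm
  · rw [Finset.sum_eq_single (⟨(b, a), mem_filter.2 ⟨mem_univ _, mem_univ _, h.ne', fun _ => h⟩⟩ :
      prs (univ : Finset ι))]
    · rw [if_pos (Or.inr ⟨rfl, rfl⟩)]
    · rintro ⟨⟨p, q⟩, he⟩ _ hne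
      have hpq : p < q := (mem_filter.1 he).2.2.2 (mem_univ _)
      simp only
      rw [if_neg]
      rintro (⟨h3, h4⟩ | ⟨h3, h4⟩)
      · rw [h3, h4] at h
        exact h.asymm hpq
      · exact hne (Subtype.ext (Prod.ext h4.symm h3.symm))
    · intro h'
      exact absurd (mem_univ _) h'

/-- the extension by zero -/
noncomputable def ez {J : Finset ι} (y : J → ZMod 2) (a : ι) : ZMod 2 :=
  if h : a ∈ J then y ⟨a, h⟩ else 0

theorem ez_out {J : Finset ι} (y : J → ZMod 2) {a : ι} (h : a ∉ J) : ez y a = 0 := dif_neg h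

theorem ez_inj {J : Finset ι} {y y' : J → ZMod 2} (h : ∀ a, ez y a = ez y' a) : y = y' := by
  funext a
  have h1 := h a.1
  unfold ez at h1
  rwa [dif_pos a.2, dif_pos a.2] at h1

theorem sum_ez {J : Finset ι} (y : J → ZMod 2) (p : ι) :
    ∑ a : J, y a * (if (a : ι) = p then 1 else 0) = ez y p := by
  unfold ez
  by_cases h : p ∈ J
  · rw [dif_pos h, Finset.sum_eq_single (⟨p, h⟩ : J)]
    · rw [if_pos rfl, mul_one]
    · intro a _ ha
      rw [if_neg fun h' => ha (Subtype.ext h'), mul_zero]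
    · intro h'
      exact absurd (mem_univ _) h'
  · rw [dif_neg h]
    refine Finset.sum_eq_zero fun a _ => ?_
    rw [if_neg (by rintro rfl; exact h a.2), mul_zero]

variable (J : K → Finset ι) (S : K → Type) (w c : ∀ k, S k → ι → ZMod 2)

/-- the solutions of the system `k` -/
def Solk (k : K) (α : prs (univ : Finset ι) → ZMod 2) (s : S k) : Prop :=
  ∀ a ∈ J k, c k s a + ∑ b, Pool.Agent.Y703.CQ.ext α a b * (w k s b + w k s a) = 0

/-- the number of the tuples of solutions in a set -/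
noncomputable def Nk (n : K → ℕ) (X : ∀ k, Finset (Fin (n k) → S k)) (k : K)
    (α : prs (univ : Finset ι) → ZMod 2) : ℕ :=
  ((X k).filter fun v => ∀ i, Solk J S w c k α (v i)).card

/-- the coefficients of the combination of the rows -/
noncomputable def hk (n : K → ℕ) (k : K) (z : (Fin (n k) → S k) × (Fin (n k) × J k → ZMod 2))
    (e : prs (univ : Finset ι)) : ZMod 2 :=
  ∑ i, (w k (z.1 i) e.1.1 + w k (z.1 i) e.1.2) *
    (ez (fun a => z.2 (i, a)) e.1.1 + ez (fun a => z.2 (i, a)) e.1.2)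

theorem Nk_char (n : K → ℕ) (X : ∀ k, Finset (Fin (n k) → S k)) (k : K)
    (α : prs (univ : Finset ι) → ZMod 2) : (Nk J S w c n X k α : ℝ) =
    (∑ z : (X k) × (Fin (n k) × J k → ZMod 2),
      sgr (∑ q : Fin (n k) × J k, z.2 q * c k (z.1.1 q.1) q.2) *
        sgr (∑ e, α e * hk J S w n k (z.1.1, z.2) e)) / 2 ^ (n k * (J k).card) := by
  have h1 : (Nk J S w c n X k α : ℝ) = ∑ v : X k,
      ((if ∀ q : Fin (n k) × J k, c k (v.1 q.1) q.2 +
        ∑ b, Pool.Agent.Y703.CQ.ext α (q.2 : ι) b * (w k (v.1 q.1) b + w k (v.1 q.1) q.2) = 0 then 1 else 0 : ℕ) : ℝ) := by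
    unfold Nk
    rw [Finset.card_filter, ← Finset.sum_coe_sort (X k)]
    push_cast
    refine Finset.sum_congr rfl fun v _ => ?_
    have : (∀ i, Solk J S w c k α (v.1 i)) ↔ ∀ q : Fin (n k) × J k, c k (v.1 q.1) q.2 +
        ∑ b, Pool.Agent.Y703.CQ.ext α (q.2 : ι) b * (w k (v.1 q.1) b + w k (v.1 q.1) q.2) = 0 :=
      ⟨fun h q => h q.1 q.2 q.2.2, fun h i a ha => h (i, ⟨a, ha⟩)⟩
    rw [if_congr this rfl rfl]
  rw [h1, Fintype.sum_prod_type, Finset.sum_div]
  refine Finset.sum_congr rfl fun v _ => ?_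
  rw [ind_char, Fintype.card_prod, Fintype.card_fin, Fintype.card_coe]
  congr 1
  refine Finset.sum_congr rfl fun y _ => ?_
  rw [← sgr_add]
  congr 1
  have e1 : ∀ q : Fin (n k) × J k, y q * (c k (v.1 q.1) q.2 +
      ∑ b, Pool.Agent.Y703.CQ.ext α (q.2 : ι) b * (w k (v.1 q.1) b + w k (v.1 q.1) q.2)) =
      y q * c k (v.1 q.1) q.2 + ∑ e : prs (univ : Finset ι), α e * (y q *
        (((if (q.2 : ι) = e.1.1 then 1 else 0) + (if (q.2 : ι) = e.1.2 then 1 else 0)) *
          (w k (v.1 q.1) e.1.1 + w k (v.1 q.1) e.1.2))) := by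
    intro q
    rw [row_lin, mul_add, Finset.mul_sum]
    congr 1
    exact Finset.sum_congr rfl fun e _ => by ring
  rw [Finset.sum_congr rfl fun q _ => e1 q, Finset.sum_add_distrib]
  congr 1
  rw [Finset.sum_comm]
  refine Finset.sum_congr rfl fun e _ => ?_
  rw [← Finset.mul_sum]
  congr 1
  unfold hk
  rw [Fintype.sum_prod_type]
  refine Finset.sum_congr rfl fun i _ => ?_
  have e2 : ∀ a : J k, y (i, a) * (((if (a : ι) = e.1.1 then 1 else 0) +
      (if (a : ι) = e.1.2 then 1 else 0)) * (w k (v.1 i) e.1.1 + w k (v.1 i) e.1.2)) =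
      (w k (v.1 i) e.1.1 + w k (v.1 i) e.1.2) * (y (i, a) * (if (a : ι) = e.1.1 then 1 else 0) +
        y (i, a) * (if (a : ι) = e.1.2 then 1 else 0)) := by
    intro a
    ring
  rw [Finset.sum_congr rfl fun a _ => e2 a, ← Finset.mul_sum, Finset.sum_add_distrib,
    sum_ez (fun a => y (i, a)), sum_ez (fun a => y (i, a))]

/-- the configuration -/
noncomputable def cfg (n : K → ℕ)
    (z : ∀ k, (Fin (n k) → S k) × (Fin (n k) × J k → ZMod 2)) (a : ι) : VV (Σ k, Fin (n k)) :=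
  (fun i => w i.1 ((z i.1).1 i.2) a, fun i => ez (fun b => (z i.1).2 (i.2, b)) a)

theorem Qf_cfg (n : K → ℕ) (z : ∀ k, (Fin (n k) → S k) × (Fin (n k) × J k → ZMod 2))
    (e : prs (univ : Finset ι)) :
    Qf (cfg J S w n z e.1.1 + cfg J S w n z e.1.2) = ∑ k, hk J S w n k (z k) e := by
  unfold Qf
  rw [Fintype.sum_sigma]
  rfl

theorem Qf_cfg_k (n : K → ℕ) (z : ∀ k, (Fin (n k) → S k) × (Fin (n k) × J k → ZMod 2)) (k : K)
    (e : prs (univ : Finset ι)) :
    Qf (em (fun i : Σ k, Fin (n k) => i.1) (fun l => if l = k then 1 else 0)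
      (cfg J S w n z e.1.1 + cfg J S w n z e.1.2)) = hk J S w n k (z k) e := by
  unfold Qf
  rw [Fintype.sum_sigma, Finset.sum_eq_single k]
  · refine Finset.sum_congr rfl fun i _ => ?_
    rw [em_apply]
    simp only [if_true, one_mul]
    rfl
  · intro l _ hl
    refine Finset.sum_eq_zero fun i _ => ?_
    rw [em_apply]
    simp only [if_neg hl, zero_mul]
  · intro h
    exact absurd (mem_univ _) h

/-- from the pairs to all indices -/
theorem all_pairs {M : Type} [AddCommGroup M] (hM : ∀ x : M, x + x = 0) (P : ι → M) (F : M → Prop)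
    (h0 : F 0) (h : ∀ e : prs (univ : Finset ι), F (P e.1.1 + P e.1.2)) (a b : ι) :
    F (P a + P b) := by
  rcases lt_trichotomy a b with hab | hab | hab
  · exact h ⟨(a, b), mem_filter.2 ⟨mem_univ _, mem_univ _, hab.ne', fun _ => hab⟩⟩
  · rw [hab, hM]
    exact h0
  · rw [add_comm]
    exact h ⟨(b, a), mem_filter.2 ⟨mem_univ _, mem_univ _, hab.ne', fun _ => hab⟩⟩

variable {J S w c}

/-- **the factorization of the moments** -/
theorem fact [∀ k, Fintype (S k)] {Ψ : K → Type} [∀ k, Fintype (Ψ k)] (ρ : ∀ k, S k → Ψ k)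
    (hw : ∀ k s a, a ∉ J k → w k s a = 0)
    (hρ : ∀ k, Function.Injective fun s : S k => (w k s, ρ k s))
    (n : K → ℕ) (X : ∀ k, Finset (Fin (n k) → S k)) (R : ℕ)
    (hsep : ∀ k l, k ≠ l → ∃ T : Set K, ((k ∈ T ∧ l ∉ T) ∨ (k ∉ T ∧ l ∈ T)) ∧
      R ≤ (univ.filter fun a : ι => {k | a ∈ J k} = T).card) :
    |(∑ α : prs (univ : Finset ι) → ZMod 2, ∏ k, (Nk J S w c n X k α : ℝ)) /
        2 ^ (prs (univ : Finset ι)).card -
      ∏ k, ((∑ α : prs (univ : Finset ι) → ZMod 2, (Nk J S w c n X k α : ℝ)) /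
        2 ^ (prs (univ : Finset ι)).card)| ≤
    (Nat.card (Set K) * Nat.card (Submodule (ZMod 2) (VV (Σ k, Fin (n k)))) *
      Nat.card (VV (Σ k, Fin (n k))) : ℕ) * (∏ k, (Fintype.card (Ψ k) : ℝ) ^ n k) / 2 ^ R := by
  set E := prs (univ : Finset ι) with hE
  set Z : K → Type := fun k => (X k) × (Fin (n k) × J k → ZMod 2) with hZ
  set g : ∀ k, Z k → ℝ := fun k z => sgr (∑ q : Fin (n k) × J k, z.2 q * c k (z.1.1 q.1) q.2) with hg
  set h : ∀ k, Z k → E → ZMod 2 := fun k z => hk J S w n k (z.1.1, z.2) with hh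
  have hF := four g (fun k z => (sgr_abs _).le) h
  rw [Fintype.card_coe] at hF
  set M : K → ℝ := fun k => 2 ^ (n k * (J k).card) with hMdef
  have hM0 : ∀ k, 0 < M k := fun k => by positivity
  have hN : ∀ k α, (Nk J S w c n X k α : ℝ) =
      (∑ z : Z k, g k z * sgr (∑ e, α e * h k z e)) / M k := fun k α => Nk_char J S w c n X k α
  have e1 : (∑ α : E → ZMod 2, ∏ k, (Nk J S w c n X k α : ℝ)) / 2 ^ E.card =
      ((∑ α : E → ZMod 2, ∏ k, ∑ z : Z k, g k z * sgr (∑ e, α e * h k z e)) / 2 ^ E.card) /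
        ∏ k, M k := by
    rw [div_right_comm]
    congr 1
    rw [Finset.sum_div]
    refine Finset.sum_congr rfl fun α _ => ?_
    rw [← Finset.prod_div_distrib]
    exact Finset.prod_congr rfl fun k _ => hN k α
  have e2 : ∏ k, ((∑ α : E → ZMod 2, (Nk J S w c n X k α : ℝ)) / 2 ^ E.card) =
      (∏ k, ((∑ α : E → ZMod 2, ∑ z : Z k, g k z * sgr (∑ e, α e * h k z e)) / 2 ^ E.card)) /
        ∏ k, M k := by
    rw [← Finset.prod_div_distrib]
    refine Finset.prod_congr rfl fun k _ => ?_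
    rw [div_right_comm]
    congr 1
    rw [Finset.sum_div]
    exact Finset.sum_congr rfl fun α _ => hN k α
  have hMp : 0 < ∏ k, M k := Finset.prod_pos fun k _ => hM0 k
  rw [e1, e2, ← sub_div, abs_div, abs_of_pos hMp, div_le_iff₀ hMp]
  refine hF.trans ?_
  -- the count
  set κ : (Σ k, Fin (n k)) → K := fun i => i.1 with hκ
  have hcb := count_bad κ J R hsep
  set Pb : Type := {P : ι → VV (Σ k, Fin (n k)) // (∀ a i, a ∉ J (κ i) → (P a).1 i = 0 ∧
      (P a).2 i = 0) ∧ (∀ a b, Qf (P a + P b) = 0) ∧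
      ¬ ∀ k a b, Qf (em κ (fun l => if l = k then 1 else 0) (P a + P b)) = 0} with hPb
  have hdbl : ∀ u : VV (Σ k, Fin (n k)), u + u = 0 := fun u =>
    Prod.ext (funext fun i => CharTwo.add_self_eq_zero _)
      (funext fun i => CharTwo.add_self_eq_zero _)
  set zz : (∀ k, Z k) → ∀ k, (Fin (n k) → S k) × (Fin (n k) × J k → ZMod 2) := fun z k =>
    ((z k).1.1, (z k).2) with hzz
  have hmapP : ∀ z : {z : ∀ k, Z k // (∀ e, ∑ k, h k (z k) e = 0) ∧ ¬ ∀ k e, h k (z k) e = 0},
      (∀ a i, a ∉ J (κ i) → (cfg J S w n (zz z.1) a).1 i = 0 ∧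
        (cfg J S w n (zz z.1) a).2 i = 0) ∧
      (∀ a b, Qf (cfg J S w n (zz z.1) a + cfg J S w n (zz z.1) b) = 0) ∧
      ¬ ∀ k a b, Qf (em κ (fun l => if l = k then 1 else 0)
        (cfg J S w n (zz z.1) a + cfg J S w n (zz z.1) b)) = 0 := by
    rintro ⟨z, hz1, hz2⟩
    refine ⟨fun a i ha => ⟨hw _ _ _ ha,
      ez_out (fun b => ((zz z) i.1).2 (i.2, b)) ha⟩, ?_, fun hcon => hz2 fun k e => ?_⟩
    · refine all_pairs hdbl (cfg J S w n (zz z)) (fun u => Qf u = 0) Qf_zero fun e => ?_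
      rw [Qf_cfg]
      exact hz1 e
    · have h1 := hcon k e.1.1 e.1.2
      rw [Qf_cfg_k] at h1
      exact h1
  have hinj : Function.Injective
      (fun z : {z : ∀ k, Z k // (∀ e, ∑ k, h k (z k) e = 0) ∧ ¬ ∀ k e, h k (z k) e = 0} =>
        ((⟨cfg J S w n (zz z.1), hmapP z⟩, fun k i => ρ k ((z.1 k).1.1 i)) :
          Pb × ∀ k, Fin (n k) → Ψ k)) := by
    intro z z' hzz'
    have h1 : cfg J S w n (zz z.1) = cfg J S w n (zz z'.1) :=
      congrArg Subtype.val (congrArg Prod.fst hzz')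
    have h2 : (fun k i => ρ k ((z.1 k).1.1 i)) = fun k i => ρ k ((z'.1 k).1.1 i) :=
      congrArg Prod.snd hzz'
    refine Subtype.ext (funext fun k => Prod.ext (Subtype.ext (funext fun i => ?_)) ?_)
    · refine hρ k (Prod.ext (funext fun a => ?_) (congrFun (congrFun h2 k) i))
      exact congrFun (congrArg Prod.fst (congrFun h1 a)) ⟨k, i⟩
    · funext q
      have h3 : (fun b => (z.1 k).2 (q.1, b)) = fun b => (z'.1 k).2 (q.1, b) :=
        ez_inj fun a => congrFun (congrArg Prod.snd (congrFun h1 a)) ⟨k, q.1⟩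
      exact congrFun h3 q.2
  have hfP : Finite Pb := by
    rw [hPb]
    infer_instance
  have hcard := Nat.card_le_card_of_injective _ hinj
  rw [Nat.card_prod] at hcard
  have hpi : Nat.card (∀ k, Fin (n k) → Ψ k) = ∏ k, Fintype.card (Ψ k) ^ n k := by
    rw [Nat.card_eq_fintype_card, Fintype.card_pi]
    refine Finset.prod_congr rfl fun k _ => ?_
    rw [Fintype.card_fun, Fintype.card_fin]
  rw [hpi] at hcard
  have hsum : ∑ i : Σ k, Fin (n k), (J (κ i)).card = ∑ k, n k * (J k).card := by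
    rw [Fintype.sum_sigma]
    refine Finset.sum_congr rfl fun k _ => ?_
    show ∑ _y : Fin (n k), (J k).card = n k * (J k).card
    rw [Finset.sum_const, Finset.card_univ, Fintype.card_fin, smul_eq_mul]
  rw [hsum] at hcb
  have hcb' : (Nat.card Pb : ℝ) * 2 ^ R ≤ (Nat.card (Set K) *
      Nat.card (Submodule (ZMod 2) (VV (Σ k, Fin (n k)))) * Nat.card (VV (Σ k, Fin (n k))) : ℕ) *
        ∏ k, M k := by
    have h1 : (∏ k, M k) = 2 ^ ∑ k, n k * (J k).card := by
      rw [hMdef]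
      simp only
      rw [Finset.prod_pow_eq_pow_sum]
    rw [h1]
    exact_mod_cast hcb
  have hcard' : (Nat.card {z : ∀ k, Z k // (∀ e, ∑ k, h k (z k) e = 0) ∧
      ¬ ∀ k e, h k (z k) e = 0} : ℝ) ≤ Nat.card Pb * ∏ k, (Fintype.card (Ψ k) : ℝ) ^ n k := by
    exact_mod_cast hcard
  refine hcard'.trans ?_
  have hΨ0 : (0 : ℝ) ≤ ∏ k, (Fintype.card (Ψ k) : ℝ) ^ n k :=
    Finset.prod_nonneg fun k _ => by positivity
  have h2R : (0 : ℝ) < 2 ^ R := by positivity
  rw [div_mul_eq_mul_div, le_div_iff₀ h2R]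
  calc (Nat.card Pb : ℝ) * (∏ k, (Fintype.card (Ψ k) : ℝ) ^ n k) * 2 ^ R =
      (Nat.card Pb * 2 ^ R) * ∏ k, (Fintype.card (Ψ k) : ℝ) ^ n k := by ring
    _ ≤ _ := mul_le_mul_of_nonneg_right hcb' hΨ0
    _ = _ := by ring

end main

end Q44.BP
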