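import Pool.Agent.Q44.BP.Lc

/-!
# A family of curves with a common balanced class: the local computations
-/

set_option autoImplicit false

open scoped Classical

namespace Q44.BP

open Finset
open Pool.Agent.W313.BMX (Splits splits_mul_sq splits_neg_mul)
open Pool.Agent.W928.BMX (splits_comm splits_sq splits_real)
open Q44.TI (Loc padic_sq padic_sq2 Loc_of_sq Loc_real nz_of)
open Q44.BN

/-- a prime `β = s² + 4 r²` with `β = 5` modulo `8` -/
structure Bt where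
  β : ℕ
  r : ℤ
  s : ℤ
  hp : β.Prime
  h8 : β % 8 = 5
  e : (β : ℤ) = s ^ 2 + 4 * r ^ 2

theorem odd_sq {n : ℤ} (h : n % 2 = 1) : n ^ 2 % 8 = 1 := by
  obtain ⟨k, hk⟩ : ∃ k, n = 2 * k + 1 := ⟨n / 2, by omega⟩
  have h2 : (k * (k + 1)) % 2 = 0 := by
    rcases Int.emod_two_eq_zero_or_one k with h | h
    · rw [Int.mul_emod, h]
      norm_num
    · have : (k + 1) % 2 = 0 := by omega
      rw [Int.mul_emod, this]
      norm_num
  have e : n ^ 2 = 4 * (k * (k + 1)) + 1 := by rw [hk]; ring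
  rw [e]
  omega

namespace Bt

variable (x : Bt)

theorem β0 : (x.β : ℤ) ≠ 0 := by exact_mod_cast x.hp.ne_zero

theorem βpos : (0 : ℤ) < x.β := by exact_mod_cast x.hp.pos

theorem β8 : (x.β : ℤ) % 8 = 5 := by
  have := x.h8
  omega

theorem s_odd : x.s % 2 = 1 := by
  have h1 := x.e
  have h2 := x.β8
  rcases Int.emod_two_eq_zero_or_one x.s with h | h
  · exfalso
    obtain ⟨k, hk⟩ : ∃ k, x.s = 2 * k := ⟨x.s / 2, by omega⟩
    rw [hk] at h1
    have h3 : (x.β : ℤ) = 2 * (2 * k ^ 2 + 2 * x.r ^ 2) := by rw [h1]; ring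
    omega
  · exact h

theorem r_odd : x.r % 2 = 1 := by
  have h1 := x.e
  have h2 := x.β8
  have h3 := odd_sq x.s_odd
  rcases Int.emod_two_eq_zero_or_one x.r with h | h
  · exfalso
    obtain ⟨k, hk⟩ : ∃ k, x.r = 2 * k := ⟨x.r / 2, by omega⟩
    rw [hk] at h1
    have h4 : (x.β : ℤ) = x.s ^ 2 + 8 * (2 * k ^ 2) := by rw [h1]; ring
    omega
  · exact h

theorem r0 : x.r ≠ 0 := by
  have := x.r_odd
  rintro h
  rw [h] at this
  norm_num at this

theorem s0 : x.s ≠ 0 := by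
  have := x.s_odd
  rintro h
  rw [h] at this
  norm_num at this

theorem eC (D : ℤ) : (x.β * D) ^ 2 - 4 * (x.β * x.r ^ 2 * D ^ 2) = x.β * (x.s * D) ^ 2 := by
  rw [x.e]
  ring

theorem eB (D : ℤ) : (-2 * (x.β * D)) ^ 2 - 4 * ((x.β * D) ^ 2 - 4 * (x.β * x.r ^ 2 * D ^ 2)) =
    x.β * (4 * x.r * D) ^ 2 := by ring

theorem hB {D : ℤ} (hD : D ≠ 0) : x.β * x.r ^ 2 * D ^ 2 ≠ 0 :=
  mul_ne_zero (mul_ne_zero x.β0 (pow_ne_zero 2 x.r0)) (pow_ne_zero 2 hD)

theorem hC {D : ℤ} (hD : D ≠ 0) : (x.β * D) ^ 2 - 4 * (x.β * x.r ^ 2 * D ^ 2) ≠ 0 := by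
  rw [x.eC]
  exact mul_ne_zero x.β0 (pow_ne_zero 2 (mul_ne_zero x.s0 hD))

theorem hB' {D : ℤ} (hD : D ≠ 0) :
    (-2 * (x.β * D)) ^ 2 - 4 * ((x.β * D) ^ 2 - 4 * (x.β * x.r ^ 2 * D ^ 2)) ≠ 0 := by
  rw [x.eB]
  exact mul_ne_zero x.β0 (pow_ne_zero 2 (mul_ne_zero (mul_ne_zero (by norm_num) x.r0) hD))

/-- the choice of a sign -/
theorem sign {p : ℕ} [hp : Fact p.Prime] (hp2 : p ≠ 2) {c : ℚ_[p]} (hc : ‖c‖ = 1) (n : ℤ) :
    ∃ n' : ℤ, n' ^ 2 = n ^ 2 ∧ ‖c + n'‖ = 1 := by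
  have hn : ‖(n : ℚ_[p])‖ ≤ 1 := Padic.norm_int_le_one n
  have h2 : ‖(2 : ℚ_[p])‖ = 1 := by
    have h3 : ¬ (p : ℤ) ∣ 2 := by
      intro h
      have : p ∣ 2 := by exact_mod_cast h
      exact hp2 ((Nat.prime_dvd_prime_iff_eq hp.out Nat.prime_two).1 this)
    have h4 : ‖((2 : ℤ) : ℚ_[p])‖ = 1 := by
      refine le_antisymm (Padic.norm_int_le_one _) (not_lt.1 fun h5 => h3 ?_)
      exact (Padic.norm_intCast_lt_one_iff).1 h5
    exact_mod_cast h4
  have k1 : ‖c + n‖ ≤ 1 := (Padic.nonarchimedean _ _).trans (max_le hc.le hn)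
  have k2 : ‖c - n‖ ≤ 1 := by
    rw [sub_eq_add_neg]
    refine (Padic.nonarchimedean _ _).trans (max_le hc.le ?_)
    rw [norm_neg]
    exact hn
  have k3 : ‖(c + n) + (c - n)‖ = 1 := by
    have : (c + n) + (c - n) = 2 * c := by ring
    rw [this, norm_mul, h2, hc, one_mul]
  have k4 := Padic.nonarchimedean (c + (n : ℚ_[p])) (c - (n : ℚ_[p]))
  rw [k3] at k4
  rcases le_max_iff.1 k4 with h | h
  · exact ⟨n, rfl, le_antisymm k1 h⟩
  · refine ⟨-n, by ring, ?_⟩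
    push_cast
    rw [← sub_eq_add_neg]
    exact le_antisymm k2 h

/-- **the images at the odd primes which divide `D`** -/
theorem im_odd {p : ℕ} [hp : Fact p.Prime] (hp2 : p ≠ 2) {D : ℤ} (hD0 : D ≠ 0)
    (hD : ‖(D : ℚ_[p])‖ = (p : ℝ)⁻¹) :
    Nat.card (im ℚ_[p] (x.β * D) (x.β * x.r ^ 2 * D ^ 2)) = 2 ∧
    Nat.card (im ℚ_[p] (-2 * (x.β * D)) ((x.β * D) ^ 2 - 4 * (x.β * x.r ^ 2 * D ^ 2))) = 2 := by
  have hB := x.hB hD0
  have hC := x.hC hD0
  have key : ∃ z w : ℤ, z ≠ 0 ∧ w ≠ 0 ∧ Loc ℚ_[p] (x.β * D) (x.β * x.r ^ 2 * D ^ 2) z ∧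
      Loc ℚ_[p] (-2 * (x.β * D)) ((x.β * D) ^ 2 - 4 * (x.β * x.r ^ 2 * D ^ 2)) w ∧
      ¬ IsSquare ((z : ℤ) : ℚ_[p]) ∧ ¬ IsSquare ((w : ℤ) : ℚ_[p]) := by
    by_cases hsq : IsSquare (((x.β : ℤ) : ℤ) : ℚ_[p])
    · obtain ⟨c, hc⟩ := hsq
      have hβ : ‖(((x.β : ℤ) : ℤ) : ℚ_[p])‖ = 1 := by
        refine le_antisymm (Padic.norm_int_le_one _) (not_lt.1 fun h5 => ?_)
        have h6 := (Padic.norm_intCast_lt_one_iff).1 h5
        have h7 : p ∣ x.β := Int.natCast_dvd_natCast.1 h6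
        have h8 := (Nat.prime_dvd_prime_iff_eq hp.out x.hp).1 h7
        have h9 : ‖(((x.β : ℤ) : ℤ) : ℚ_[p])‖ = (p : ℝ)⁻¹ := by
          rw [← h8]
          push_cast
          exact Padic.norm_p
        exact nsq_norm h9 ⟨c, hc⟩
      have hcn : ‖c‖ = 1 := by
        rw [hc, norm_mul] at hβ
        have := norm_nonneg c
        nlinarith
      have hc0 : c ≠ 0 := by
        rintro rfl
        rw [norm_zero] at hcn
        norm_num at hcn
      obtain ⟨s', hs', hs1⟩ := sign hp2 hcn x.s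
      obtain ⟨r', hr', hr1⟩ := sign hp2 hcn (2 * x.r)
      have e0 : (x.β : ℚ_[p]) = c * c := by
        have := hc
        push_cast at this
        exact this
      have e1 : (x.β : ℚ_[p]) = (s' : ℚ_[p]) ^ 2 + 4 * (x.r : ℚ_[p]) ^ 2 := by
        have h1 := x.e
        rw [← hs'] at h1
        exact_mod_cast h1
      have e2 : (x.β : ℚ_[p]) = (x.s : ℚ_[p]) ^ 2 + (r' : ℚ_[p]) ^ 2 := by
        have h1 : (x.β : ℤ) = x.s ^ 2 + r' ^ 2 := by rw [hr', x.e]; ring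
        exact_mod_cast h1
      have h2 : ‖(2 : ℚ_[p])‖ = 1 := by
        have h3 : ¬ (p : ℤ) ∣ 2 := by
          intro h
          have : p ∣ 2 := by exact_mod_cast h
          exact hp2 ((Nat.prime_dvd_prime_iff_eq hp.out Nat.prime_two).1 this)
        have h4 : ‖((2 : ℤ) : ℚ_[p])‖ = 1 := by
          refine le_antisymm (Padic.norm_int_le_one _) (not_lt.1 fun h5 => h3 ?_)
          exact (Padic.norm_intCast_lt_one_iff).1 h5
        exact_mod_cast h4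
      have n1 : ‖-((D : ℚ_[p]) * (c * (c + (s' : ℚ_[p])))) / 2‖ = (p : ℝ)⁻¹ := by
        rw [norm_div, norm_neg, norm_mul, norm_mul, hcn, hs1, hD, h2]
        norm_num
      have n2 : ‖(D : ℚ_[p]) * (c * (c + (r' : ℚ_[p])))‖ = (p : ℝ)⁻¹ := by
        rw [norm_mul, norm_mul, hcn, hr1, hD]
        norm_num
      have hpi : (p : ℝ)⁻¹ ≠ 0 := inv_ne_zero (by exact_mod_cast hp.out.ne_zero)
      obtain ⟨z, z0, z1, z2⟩ := loc_pt (A := x.β * D) (B := x.β * x.r ^ 2 * D ^ 2)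
        (x := -((D : ℚ_[p]) * (c * (c + (s' : ℚ_[p])))) / 2) (y := 0) (by
          intro h
          rw [h, norm_zero] at n1
          exact hpi n1.symm) (by
          push_cast
          have e3 : 4 * (x.r : ℚ_[p]) ^ 2 = c * c - (s' : ℚ_[p]) ^ 2 := by
            rw [← e0, e1]
            ring
          rw [e0]
          linear_combination ((D : ℚ_[p]) ^ 3 * c ^ 3 * (c + s') / 8) * e3)
        (nsq_norm n1)
      obtain ⟨w, w0, w1, w2⟩ := loc_pt (A := -2 * (x.β * D))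
        (B := (x.β * D) ^ 2 - 4 * (x.β * x.r ^ 2 * D ^ 2))
        (x := (D : ℚ_[p]) * (c * (c + (r' : ℚ_[p])))) (y := 0) (by
          intro h
          rw [h, norm_zero] at n2
          exact hpi n2.symm) (by
          rw [x.eC]
          push_cast
          have e3 : (x.s : ℚ_[p]) ^ 2 = c * c - (r' : ℚ_[p]) ^ 2 := by
            rw [← e0, e2]
            ring
          rw [e0]
          linear_combination (-(D : ℚ_[p]) ^ 3 * c ^ 3 * (c + r')) * e3)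
        (nsq_norm n2)
      exact ⟨z, w, z0, w0, z1, w1, z2, w2⟩
    · refine ⟨x.β, x.β, x.β0, x.β0, ?_, ?_, hsq, hsq⟩
      · refine Loc_of_sq hB hC x.β0 p (Or.inr ⟨x.β * x.r * D, ?_⟩)
        push_cast
        ring
      · refine Loc_of_sq hC (x.hB' hD0) x.β0 p (Or.inr ⟨x.β * x.s * D, ?_⟩)
        rw [x.eC]
        push_cast
        ring
  obtain ⟨z, w, z0, w0, z1, w1, z2, w2⟩ := key
  exact ⟨card_two_p hp2 hB hC z0 w0 z1 w1 z2 w2, card_two_p' hp2 hB hC z0 w0 z1 w1 z2 w2⟩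

/-- the class of `-1` over `ℚ_2` -/
theorem loc2 {k : ℤ} (hk : k % 2 = 1) :
    Loc ℚ_[2] (x.β * (2 * k)) (x.β * x.r ^ 2 * (2 * k) ^ 2) (-1) := by
  obtain ⟨j, hj⟩ : ∃ j, (x.β : ℤ) = 8 * j + 5 := ⟨x.β / 8, by have := x.β8; omega⟩
  obtain ⟨q, hq⟩ : ∃ q, x.r ^ 2 = 8 * q + 1 := ⟨x.r ^ 2 / 8, by have := odd_sq x.r_odd; omega⟩
  obtain ⟨l, hl⟩ : ∃ l, k ^ 2 = 8 * l + 1 := ⟨k ^ 2 / 8, by have := odd_sq hk; omega⟩
  have h4 : k % 4 = 1 ∨ k % 4 = 3 := by omega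
  rcases h4 with h | h
  · obtain ⟨i, hi⟩ : ∃ i, k = 4 * i + 1 := ⟨k / 4, by omega⟩
    have h1 : (-4 + 2 * x.β * k - x.β * x.r ^ 2 * k ^ 2) % 8 = 1 := by
      have : -4 + 2 * x.β * k - x.β * x.r ^ 2 * k ^ 2 =
          1 + 8 * (2 * j * k + 5 * i - j - (8 * j + 5) * (q * (8 * l + 1) + l)) := by
        rw [hq, hl, hj, hi]
        ring
      rw [this]
      omega
    obtain ⟨s, hs⟩ := padic_sq2 h1
    refine ⟨-4, 4 * s, 2, by norm_num, ?_, by push_cast; ring⟩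
    push_cast at hs ⊢
    linear_combination -16 * hs
  · obtain ⟨i, hi⟩ : ∃ i, k = 4 * i + 3 := ⟨k / 4, by omega⟩
    have h1 : (-1 + 2 * x.β * k - 4 * x.β * x.r ^ 2 * k ^ 2) % 8 = 1 := by
      have : -1 + 2 * x.β * k - 4 * x.β * x.r ^ 2 * k ^ 2 =
          1 + 8 * (2 * j * k + 5 * i + 1 - 4 * j - 4 * (8 * j + 5) * (q * (8 * l + 1) + l)) := by
        rw [hq, hl, hj, hi]
        ring
      rw [this]
      omega
    obtain ⟨s, hs⟩ := padic_sq2 h1
    refine ⟨-1, s, 1, by norm_num, ?_, by push_cast; ring⟩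
    push_cast at hs ⊢
    linear_combination -hs

/-- the class of `β` over `ℚ_2` -/
theorem β_five : ∃ q : ℚ_[2], q ≠ 0 ∧ (x.β : ℚ_[2]) = 5 * q ^ 2 := by
  have h1 : (5 * (x.β : ℤ)) % 8 = 1 := by
    have := x.β8
    omega
  obtain ⟨s, hs⟩ := padic_sq2 h1
  have hs' : 5 * (x.β : ℚ_[2]) = s * s := by exact_mod_cast hs
  refine ⟨s / 5, ?_, ?_⟩
  · refine div_ne_zero ?_ (by norm_num)
    rintro rfl
    rw [mul_zero] at hs'
    have h2 : (x.β : ℚ_[2]) ≠ 0 := by exact_mod_cast x.hp.ne_zero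
    exact mul_ne_zero (by norm_num) h2 hs'
  · field_simp
    linear_combination hs'

/-- the image over `ℚ_2` -/
theorem im2_a {D : ℤ} (hD : D % 4 = 2) : imc (x.β * D) (x.β * x.r ^ 2 * D ^ 2) 2 = 4 := by
  have : Fact (2 : ℕ).Prime := ⟨Nat.prime_two⟩
  obtain ⟨k, rfl⟩ : ∃ k, D = 2 * k := ⟨D / 2, by omega⟩
  have hk : k % 2 = 1 := by omega
  have hk0 : k ≠ 0 := by
    rintro rfl
    norm_num at hk
  have hD0 : 2 * k ≠ 0 := mul_ne_zero two_ne_zero hk0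
  have hB := x.hB hD0
  have hC := x.hC hD0
  obtain ⟨q, hq0, hq⟩ := x.β_five
  have l5 : Loc ℚ_[2] (x.β * (2 * k)) (x.β * x.r ^ 2 * (2 * k) ^ 2) 5 :=
    Loc_of_sq hB hC (by norm_num) 2 (Or.inr ⟨5 * q * x.r * (2 * k), by
      push_cast
      rw [hq]
      ring⟩)
  rw [imc_pos, card_im_of {1, -1, 5, -5}]
  · rfl
  · intro z hz
    simp only [mem_insert, mem_singleton] at hz
    rcases hz with rfl | rfl | rfl | rfl <;> norm_num
  · intro z hz
    simp only [mem_insert, mem_singleton] at hz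
    rcases hz with rfl | rfl | rfl | rfl
    · exact Loc_of_sq hB hC (by norm_num) 2 (Or.inl ⟨1, by norm_num⟩)
    · exact x.loc2 hk
    · exact l5
    · rcases Loc_prod (z := -1) (z' := 5) (by norm_num) (by norm_num) (x.loc2 hk) l5 with h | h | h
      · exfalso
        have h' : IsSquare (((-5 : ℤ)) : ℚ_[2]) := by
          obtain ⟨s, hs⟩ := h
          refine ⟨s, ?_⟩
          push_cast at hs ⊢
          linear_combination hs
        have := sq2 (n := -5) (by norm_num) h'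
        norm_num at this
      · exfalso
        apply nsq_m1
        obtain ⟨s, hs⟩ := h
        have hkK : (k : ℚ_[2]) ≠ 0 := by exact_mod_cast hk0
        have hrK : (x.r : ℚ_[2]) ≠ 0 := by exact_mod_cast x.r0
        refine ⟨s / (10 * q * x.r * k), ?_⟩
        push_cast at hs ⊢
        rw [hq] at hs
        field_simp
        linear_combination hs
      · exact h
  · refine rep_p fun t m ht hm hL => ?_
    have hm2 : m % 2 = 1 := by
      push_cast at hm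
      omega
    have h1 := orthC hL
    have hDK : (q * (x.s * (2 * k)) : ℚ_[2]) ≠ 0 := mul_ne_zero hq0
      (mul_ne_zero (by exact_mod_cast x.s0) (mul_ne_zero two_ne_zero (by exact_mod_cast hk0)))
    have e2 : (((x.β * (2 * k)) ^ 2 - 4 * (x.β * x.r ^ 2 * (2 * k) ^ 2) : ℤ) : ℚ_[2]) =
        5 * (q * (x.s * (2 * k)) : ℚ_[2]) ^ 2 := by
      rw [x.eC]
      push_cast
      rw [hq]
      ring
    rw [e2, splits_comm, splits_sq hDK, splits_comm] at h1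
    have ht0 := odd_of_five ht hm2 h1
    subst ht0
    have h8 : m % 8 = 1 ∨ m % 8 = 3 ∨ m % 8 = 5 ∨ m % 8 = 7 := by omega
    have key : ∀ z : ℤ, (m * z) % 8 = 1 → IsSquare (((((2 : ℕ) : ℤ) ^ 0 * m) * z : ℤ) : ℚ_[2]) := by
      intro z hz
      have e3 : (((2 : ℕ) : ℤ) ^ 0 * m) * z = m * z := by ring
      rw [e3]
      exact padic_sq2 hz
    rcases h8 with h | h | h | h
    · exact ⟨1, by simp, key 1 (by omega)⟩
    · exact ⟨-5, by simp, key (-5) (by omega)⟩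
    · exact ⟨5, by simp, key 5 (by omega)⟩
    · exact ⟨-1, by simp, key (-1) (by omega)⟩
  · intro z hz z' hz' h
    refine five_dist z hz z' hz' ?_
    push_cast
    exact h

/-- the dual image over `ℚ_2` -/
theorem im2_b {D : ℤ} (hD : D % 4 = 2) :
    imc (-2 * (x.β * D)) ((x.β * D) ^ 2 - 4 * (x.β * x.r ^ 2 * D ^ 2)) 2 = 2 := by
  have : Fact (2 : ℕ).Prime := ⟨Nat.prime_two⟩
  obtain ⟨k, rfl⟩ : ∃ k, D = 2 * k := ⟨D / 2, by omega⟩
  have hk : k % 2 = 1 := by omega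
  have hk0 : k ≠ 0 := by
    rintro rfl
    norm_num at hk
  have hD0 : 2 * k ≠ 0 := mul_ne_zero two_ne_zero hk0
  have hC := x.hC hD0
  have hB := x.hB' hD0
  obtain ⟨q, hq0, hq⟩ := x.β_five
  rw [imc_pos, card_im_of {1, 5}]
  · rfl
  · intro z hz
    simp only [mem_insert, mem_singleton] at hz
    rcases hz with rfl | rfl <;> norm_num
  · intro z hz
    simp only [mem_insert, mem_singleton] at hz
    rcases hz with rfl | rfl
    · exact Loc_of_sq hC hB (by norm_num) 2 (Or.inl ⟨1, by norm_num⟩)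
    · refine Loc_of_sq hC hB (by norm_num) 2 (Or.inr ⟨5 * q * x.s * (2 * k), ?_⟩)
      rw [x.eC]
      push_cast
      rw [hq]
      ring
  · refine rep_p fun t m ht hm hL => ?_
    have hm2 : m % 2 = 1 := by
      push_cast at hm
      omega
    have h1 := orthC hL
    have hDK : (q * (4 * x.r * (2 * k)) : ℚ_[2]) ≠ 0 := mul_ne_zero hq0
      (mul_ne_zero (mul_ne_zero (by norm_num) (by exact_mod_cast x.r0))
      (mul_ne_zero two_ne_zero (by exact_mod_cast hk0)))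
    have e2 : (((-2 * (x.β * (2 * k))) ^ 2 -
        4 * ((x.β * (2 * k)) ^ 2 - 4 * (x.β * x.r ^ 2 * (2 * k) ^ 2)) : ℤ) : ℚ_[2]) =
        5 * (q * (4 * x.r * (2 * k)) : ℚ_[2]) ^ 2 := by
      rw [x.eB]
      push_cast
      rw [hq]
      ring
    rw [e2, splits_comm, splits_sq hDK, splits_comm] at h1
    have ht0 := odd_of_five ht hm2 h1
    subst ht0
    have h2 : Splits ((m : ℤ) : ℚ_[2]) (-1) := by
      have h3 := orth two_ne_zero (x.loc2 hk) hL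
      rw [splits_comm] at h3
      have e3 : (((-1 : ℤ)) : ℚ_[2]) = -1 := by norm_num
      have e4 : (((2 : ℕ) : ℤ) ^ 0 * m : ℤ) = m := by ring
      rw [e3, e4] at h3
      exact h3
    have h7 := (Pool.Agent.W108.BMX.two4 m hm2).1.1 h2
    have h8 : m % 8 = 1 ∨ m % 8 = 5 := by omega
    have key : ∀ z : ℤ, (m * z) % 8 = 1 → IsSquare (((((2 : ℕ) : ℤ) ^ 0 * m) * z : ℤ) : ℚ_[2]) := by
      intro z hz
      have e3 : (((2 : ℕ) : ℤ) ^ 0 * m) * z = m * z := by ring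
      rw [e3]
      exact padic_sq2 hz
    rcases h8 with h | h
    · exact ⟨1, by simp, key 1 (by omega)⟩
    · exact ⟨5, by simp, key 5 (by omega)⟩
  · intro z hz z' hz' h
    have hs : ({1, 5} : Finset ℤ) ⊆ {1, -1, 5, -5} := by decide
    refine five_dist z (hs hz) z' (hs hz') ?_
    push_cast
    exact h

theorem re_a {D : ℤ} (hD : D < 0) : Nat.card (im ℝ (x.β * D) (x.β * x.r ^ 2 * D ^ 2)) = 1 := by
  have hβ := x.βpos
  have hr := x.r0
  have hD0 := hD.ne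
  exact card_real_one (mul_neg_of_pos_of_neg hβ hD) (by positivity) (x.hC hD0)

theorem re_b {D : ℤ} (hD : D < 0) :
    Nat.card (im ℝ (-2 * (x.β * D)) ((x.β * D) ^ 2 - 4 * (x.β * x.r ^ 2 * D ^ 2))) = 2 := by
  have hβ : (0 : ℝ) < x.β := by exact_mod_cast x.hp.pos
  have hD0 := hD.ne
  refine card_real_two (x.hC hD0) (x.hB' hD0) ?_
  have hD' : (D : ℝ) < 0 := by exact_mod_cast hD
  refine ⟨x.β * D, mul_neg_of_pos_of_neg hβ hD', ?_⟩
  push_cast
  have e : ((x.β : ℝ) * D) ^ 3 + -2 * ((x.β : ℝ) * D) * ((x.β : ℝ) * D) ^ 2 +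
      (((x.β : ℝ) * D) ^ 2 - 4 * ((x.β : ℝ) * (x.r : ℝ) ^ 2 * (D : ℝ) ^ 2)) * ((x.β : ℝ) * D) =
      4 * (x.β : ℝ) ^ 2 * (x.r : ℝ) ^ 2 * (-(D : ℝ)) ^ 3 := by ring
  rw [e]
  have : 0 < -(D : ℝ) := by linarith
  positivity

end Bt

end Q44.BP
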