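import Mathlib

/-!
# Totally singular sets of vectors with prescribed supports
-/

set_option autoImplicit false
set_option linter.unusedSectionVars false
set_option linter.unusedVariables false

open scoped Classical

namespace Q44.BP

open Finset Module

/-- the quadratic space -/
abbrev VV (I : Type) : Type := (I → ZMod 2) × (I → ZMod 2)

variable {I K : Type} [Fintype I]

/-- the alternating form -/
def Bf : LinearMap.BilinForm (ZMod 2) (VV I) :=
  LinearMap.mk₂ (ZMod 2) (fun u v => ∑ i, (u.1 i * v.2 i + u.2 i * v.1 i))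
    (fun a b c => by
      rw [← sum_add_distrib]
      exact sum_congr rfl fun i _ => by simp only [Prod.fst_add, Prod.snd_add, Pi.add_apply]; ring)
    (fun a b c => by
      rw [smul_eq_mul, mul_sum]
      exact sum_congr rfl fun i _ => by
        simp only [Prod.smul_fst, Prod.smul_snd, Pi.smul_apply, smul_eq_mul]; ring)
    (fun a b c => by
      rw [← sum_add_distrib]
      exact sum_congr rfl fun i _ => by simp only [Prod.fst_add, Prod.snd_add, Pi.add_apply]; ring)
    (fun a b c => by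
      rw [smul_eq_mul, mul_sum]
      exact sum_congr rfl fun i _ => by
        simp only [Prod.smul_fst, Prod.smul_snd, Pi.smul_apply, smul_eq_mul]; ring)

theorem Bf_apply (u v : VV I) : Bf u v = ∑ i, (u.1 i * v.2 i + u.2 i * v.1 i) := rfl

/-- the quadratic form -/
def Qf (u : VV I) : ZMod 2 := ∑ i, u.1 i * u.2 i

theorem Qf_add (u v : VV I) : Qf (u + v) = Qf u + Qf v + Bf u v := by
  unfold Qf
  rw [Bf_apply, ← sum_add_distrib, ← sum_add_distrib]
  refine sum_congr rfl fun i _ => ?_
  simp only [Prod.fst_add, Prod.snd_add, Pi.add_apply]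
  ring

theorem Qf_zero : Qf (0 : VV I) = 0 := by
  unfold Qf
  exact sum_eq_zero fun i _ => by simp

theorem Bf_symm (u v : VV I) : Bf u v = Bf v u := by
  rw [Bf_apply, Bf_apply]
  exact sum_congr rfl fun i _ => by ring

theorem Bf_refl : (Bf (I := I)).IsRefl := fun u v h => by rw [Bf_symm, h]

theorem Bf_nd : (Bf (I := I)).Nondegenerate := by
  have h : ∀ u : VV I, (∀ v, Bf u v = 0) → u = 0 := by
    intro u hu
    refine Prod.ext (funext fun i => ?_) (funext fun i => ?_)
    · have h1 := hu (0, Pi.single i 1)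
      rw [Bf_apply, Finset.sum_eq_single i] at h1
      · simpa using h1
      · intro j _ hj
        simp [Pi.single_eq_of_ne hj]
      · intro h
        exact absurd (mem_univ i) h
    · have h1 := hu (Pi.single i 1, 0)
      rw [Bf_apply, Finset.sum_eq_single i] at h1
      · simpa using h1
      · intro j _ hj
        simp [Pi.single_eq_of_ne hj]
      · intro h
        exact absurd (mem_univ i) h
  exact ⟨h, fun u hu => h u fun v => by rw [Bf_symm]; exact hu v⟩

/-- the vectors with support in the coordinates of `T` -/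
def VT (κ : I → K) (T : Set K) : Submodule (ZMod 2) (VV I) where
  carrier := {u | ∀ i, κ i ∉ T → u.1 i = 0 ∧ u.2 i = 0}
  add_mem' := fun {a b} ha hb i hi => by
    obtain ⟨h1, h2⟩ := ha i hi
    obtain ⟨h3, h4⟩ := hb i hi
    simp only [Prod.fst_add, Prod.snd_add, Pi.add_apply, h1, h2, h3, h4, add_zero, and_self]
  zero_mem' := fun i _ => ⟨rfl, rfl⟩
  smul_mem' := fun c a ha i hi => by
    obtain ⟨h1, h2⟩ := ha i hi
    simp only [Prod.smul_fst, Prod.smul_snd, Pi.smul_apply, h1, h2, smul_zero, and_self]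

theorem mem_VT {κ : I → K} {T : Set K} {u : VV I} :
    u ∈ VT κ T ↔ ∀ i, κ i ∉ T → u.1 i = 0 ∧ u.2 i = 0 := Iff.rfl

/-- the number of the coordinates of `T` -/
noncomputable def nT (κ : I → K) (T : Set K) : ℕ := (univ.filter fun i => κ i ∈ T).card

/-- the multiplication with a function of the index -/
def em (κ : I → K) (m : K → ZMod 2) : VV I →ₗ[ZMod 2] VV I where
  toFun u := (fun i => m (κ i) * u.1 i, fun i => m (κ i) * u.2 i)
  map_add' a b := by
    refine Prod.ext (funext fun i => ?_) (funext fun i => ?_) <;>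
      simp only [Prod.fst_add, Prod.snd_add, Pi.add_apply] <;> ring
  map_smul' c a := by
    refine Prod.ext (funext fun i => ?_) (funext fun i => ?_) <;>
      simp only [Prod.smul_fst, Prod.smul_snd, Pi.smul_apply, smul_eq_mul, RingHom.id_apply] <;> ring

theorem em_apply (κ : I → K) (m : K → ZMod 2) (u : VV I) :
    em κ m u = (fun i => m (κ i) * u.1 i, fun i => m (κ i) * u.2 i) := rfl

/-- the complementary isotropic space -/
noncomputable def phi (κ : I → K) (T : Set K) : ({i // κ i ∉ T} → ZMod 2) →ₗ[ZMod 2] VV I where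
  toFun x := (fun i => if h : κ i ∉ T then x ⟨i, h⟩ else 0, 0)
  map_add' a b := by
    refine Prod.ext (funext fun i => ?_) (add_zero _).symm
    simp only [Prod.fst_add, Pi.add_apply]
    split_ifs <;> simp
  map_smul' c a := by
    refine Prod.ext (funext fun i => ?_) (smul_zero _).symm
    simp only [Prod.smul_fst, Pi.smul_apply, RingHom.id_apply]
    split_ifs <;> simp

theorem phi_inj (κ : I → K) (T : Set K) : Function.Injective (phi κ T) := by
  intro x y h
  funext i
  have h1 := congrFun (congrArg Prod.fst h) i.1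
  show x ⟨i.1, i.2⟩ = y ⟨i.1, i.2⟩
  have e : ∀ z : {i // κ i ∉ T} → ZMod 2, (phi κ T z).1 i.1 = z ⟨i.1, i.2⟩ := fun z => dif_pos i.2
  rw [← e x, ← e y, h1]

theorem mem_phi {κ : I → K} {T : Set K} {u : VV I} (h : u ∈ LinearMap.range (phi κ T)) :
    (∀ i, κ i ∈ T → u.1 i = 0) ∧ u.2 = 0 := by
  obtain ⟨x, rfl⟩ := h
  exact ⟨fun i hi => dif_neg (not_not.2 hi), rfl⟩

theorem finrank_phi (κ : I → K) (T : Set K) :
    finrank (ZMod 2) (LinearMap.range (phi κ T)) + nT κ T = Fintype.card I := by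
  rw [LinearMap.finrank_range_of_inj (phi_inj κ T), finrank_fintype_fun_eq_card, Fintype.card_subtype]
  unfold nT
  rw [add_comm]
  exact Finset.card_filter_add_card_filter_not _

section iso

variable {κ : I → K} {T : Set K} {D : Submodule (ZMod 2) (VV I)}

theorem disj_phi (hD : D ≤ VT κ T) {u : VV I} (h1 : u ∈ VT κ T) (h2 : u ∈ LinearMap.range (phi κ T)) :
    u = 0 := by
  obtain ⟨h3, h4⟩ := mem_phi h2
  refine Prod.ext (funext fun i => ?_) h4
  by_cases hi : κ i ∈ T
  · exact h3 i hi
  · exact (h1 i hi).1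

theorem W_facts (hD : D ≤ VT κ T) (hB : ∀ u ∈ D, ∀ v ∈ D, Bf u v = 0) :
    (finrank (ZMod 2) (D ⊔ LinearMap.range (phi κ T) : Submodule (ZMod 2) (VV I)) + nT κ T =
      finrank (ZMod 2) D + Fintype.card I) ∧
    D ⊔ LinearMap.range (phi κ T) ≤ Bf.orthogonal (D ⊔ LinearMap.range (phi κ T)) := by
  constructor
  · have h1 := Submodule.finrank_sup_add_finrank_inf_eq D (LinearMap.range (phi κ T))
    have h2 : D ⊓ LinearMap.range (phi κ T) = ⊥ := by
      rw [eq_bot_iff]
      intro u hu
      rw [Submodule.mem_bot]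
      exact disj_phi hD (hD hu.1) hu.2
    rw [h2, finrank_bot, add_zero] at h1
    have h3 := finrank_phi κ T
    omega
  · have hdl : ∀ d ∈ D, ∀ l ∈ LinearMap.range (phi κ T), Bf d l = 0 := by
      intro d hd l hl
      obtain ⟨h3, h4⟩ := mem_phi hl
      rw [Bf_apply]
      refine sum_eq_zero fun i _ => ?_
      by_cases hi : κ i ∈ T
      · rw [h3 i hi, h4]
        simp
      · rw [(hD hd i hi).1, (hD hd i hi).2]
        simp
    have hll : ∀ l ∈ LinearMap.range (phi κ T), ∀ l' ∈ LinearMap.range (phi κ T), Bf l l' = 0 := by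
      intro l hl l' hl'
      rw [Bf_apply, (mem_phi hl).2, (mem_phi hl').2]
      simp
    intro u hu
    rw [LinearMap.BilinForm.mem_orthogonal_iff]
    intro v hv
    obtain ⟨d, hd, l, hl, rfl⟩ := Submodule.mem_sup.1 hu
    obtain ⟨d', hd', l', hl', rfl⟩ := Submodule.mem_sup.1 hv
    show Bf (d' + l') (d + l) = 0
    simp only [map_add, LinearMap.add_apply]
    rw [hB d' hd' d hd, hdl d' hd' l hl, Bf_symm l' d, hdl d hd l' hl', hll l' hl' l hl]
    simp

theorem finrank_VV : finrank (ZMod 2) (VV I) = 2 * Fintype.card I := by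
  rw [finrank_prod, finrank_fintype_fun_eq_card]
  ring

theorem iso_le (hD : D ≤ VT κ T) (hB : ∀ u ∈ D, ∀ v ∈ D, Bf u v = 0) :
    finrank (ZMod 2) D ≤ nT κ T := by
  obtain ⟨h1, h2⟩ := W_facts hD hB
  have h3 := Submodule.finrank_mono h2
  rw [LinearMap.BilinForm.finrank_orthogonal Bf_nd, finrank_VV] at h3
  have h4 := Submodule.finrank_le (D ⊔ LinearMap.range (phi κ T))
  rw [finrank_VV] at h4
  omega

theorem iso_full (hD : D ≤ VT κ T) (hB : ∀ u ∈ D, ∀ v ∈ D, Bf u v = 0)
    (hf : finrank (ZMod 2) D = nT κ T) {u : VV I} (hu : u ∈ VT κ T) (hu' : ∀ d ∈ D, Bf d u = 0) :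
    u ∈ D := by
  obtain ⟨h1, h2⟩ := W_facts hD hB
  have h3 : finrank (ZMod 2) (D ⊔ LinearMap.range (phi κ T) : Submodule (ZMod 2) (VV I)) =
      finrank (ZMod 2) (Bf.orthogonal (D ⊔ LinearMap.range (phi κ T))) := by
    rw [LinearMap.BilinForm.finrank_orthogonal Bf_nd, finrank_VV]
    omega
  have h4 := Submodule.eq_of_le_of_finrank_eq h2 h3
  have h5 : u ∈ Bf.orthogonal (D ⊔ LinearMap.range (phi κ T)) := by
    rw [LinearMap.BilinForm.mem_orthogonal_iff]
    intro v hv
    obtain ⟨d, hd, l, hl, rfl⟩ := Submodule.mem_sup.1 hv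
    show Bf (d + l) u = 0
    rw [map_add, LinearMap.add_apply, hu' d hd, zero_add, Bf_apply]
    obtain ⟨h6, h7⟩ := mem_phi hl
    refine sum_eq_zero fun i _ => ?_
    rw [h7]
    by_cases hi : κ i ∈ T
    · rw [h6 i hi]
      simp
    · rw [(hu i hi).2]
      simp
  rw [← h4] at h5
  obtain ⟨d, hd, l, hl, h6⟩ := Submodule.mem_sup.1 h5
  have h7 : l = u - d := by rw [← h6]; abel
  have h8 : l ∈ VT κ T := by
    rw [h7]
    exact Submodule.sub_mem _ hu (hD hd)
  rw [disj_phi hD h8 hl, add_zero] at h6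
  rw [← h6]
  exact hd

end iso

/-- the span of the differences -/
theorem sing_span {ι : Type} (P : ι → VV I) (hP : ∀ a b, Qf (P a + P b) = 0) :
    (∀ u ∈ Submodule.span (ZMod 2) (Set.range fun p : ι × ι => P p.1 + P p.2), Qf u = 0) ∧
    ∀ u ∈ Submodule.span (ZMod 2) (Set.range fun p : ι × ι => P p.1 + P p.2),
      ∀ v ∈ Submodule.span (ZMod 2) (Set.range fun p : ι × ι => P p.1 + P p.2), Bf u v = 0 := by
  have hc : ∀ u : VV I, u + u = 0 := fun u => Prod.ext (funext fun i => CharTwo.add_self_eq_zero _)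
    (funext fun i => CharTwo.add_self_eq_zero _)
  have h3 : ∀ a b c, Bf (P a + P b) (P b + P c) = 0 := by
    intro a b c
    have h1 := Qf_add (P a + P b) (P b + P c)
    have e : P a + P b + (P b + P c) = P a + P c := by
      calc P a + P b + (P b + P c) = P a + (P b + P b) + P c := by abel
        _ = _ := by rw [hc, add_zero]
    rw [e, hP, hP, hP, add_zero, zero_add] at h1
    exact h1.symm
  have h4 : ∀ a b c d, Bf (P a + P b) (P c + P d) = 0 := by
    intro a b c d
    have e : P c + P d = (P b + P c) + (P b + P d) := by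
      calc P c + P d = (P b + P b) + (P c + P d) := by rw [hc, zero_add]
        _ = _ := by abel
    rw [e, map_add, h3, h3, add_zero]
  have hB : ∀ u ∈ Submodule.span (ZMod 2) (Set.range fun p : ι × ι => P p.1 + P p.2),
      ∀ v ∈ Submodule.span (ZMod 2) (Set.range fun p : ι × ι => P p.1 + P p.2), Bf u v = 0 := by
    intro u hu v hv
    induction hu using Submodule.span_induction with
    | mem x hx =>
      obtain ⟨p, rfl⟩ := hx
      induction hv using Submodule.span_induction with
      | mem y hy =>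
        obtain ⟨q, rfl⟩ := hy
        exact h4 _ _ _ _
      | zero => exact map_zero _
      | add y z _ _ h1 h2 => rw [map_add, h1, h2, add_zero]
      | smul c y _ h1 => rw [map_smul, h1, smul_zero]
    | zero => rw [map_zero, LinearMap.zero_apply]
    | add y z _ _ h1 h2 => rw [map_add, LinearMap.add_apply, h1, h2, add_zero]
    | smul c y _ h1 => rw [map_smul, LinearMap.smul_apply, h1, smul_zero]
  refine ⟨fun u hu => ?_, hB⟩
  induction hu using Submodule.span_induction with
  | mem x hx =>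
    obtain ⟨p, rfl⟩ := hx
    exact hP _ _
  | zero => exact Qf_zero
  | add y z hy hz h1 h2 => rw [Qf_add, h1, h2, hB y hy z hz]; simp
  | smul c y _ h1 =>
    have key : ∀ c : ZMod 2, c = 0 ∨ c = 1 := by decide
    rcases key c with rfl | rfl
    · rw [zero_smul]
      exact Qf_zero
    · rw [one_smul]
      exact h1

/-- the totally singular spaces with large intersections are products -/
theorem prod_of_full [Fintype K] {κ : I → K} {D : Submodule (ZMod 2) (VV I)}
    (hB : ∀ u ∈ D, ∀ v ∈ D, Bf u v = 0) (𝒯 : Set (Set K))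
    (hsep : ∀ k l, k ≠ l → ∃ T ∈ 𝒯, (k ∈ T ∧ l ∉ T) ∨ (k ∉ T ∧ l ∈ T))
    (hfull : ∀ T ∈ 𝒯, nT κ T ≤ finrank (ZMod 2) (D ⊓ VT κ T : Submodule (ZMod 2) (VV I))) (k : K) :
    ∀ u ∈ D, em κ (fun l => if l = k then 1 else 0) u ∈ D := by
  -- the stable functions
  have hT : ∀ T ∈ 𝒯, ∀ u ∈ D, em κ (fun l => if l ∈ T then 1 else 0) u ∈ D := by
    intro T hT u hu
    have h1 : em κ (fun l => if l ∈ T then (1 : ZMod 2) else 0) u ∈ VT κ T := by
      intro i hi
      rw [em_apply]
      simp only [if_neg hi, zero_mul, and_self]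
    have hle : D ⊓ VT κ T ≤ VT κ T := inf_le_right
    have hBB : ∀ u ∈ D ⊓ VT κ T, ∀ v ∈ D ⊓ VT κ T, Bf u v = 0 := fun u hu v hv => hB u hu.1 v hv.1
    have h2 := iso_full hle hBB (le_antisymm (iso_le hle hBB) (hfull T hT)) h1 fun d hd => by
      rw [← hB d hd.1 u hu, Bf_apply, Bf_apply]
      refine sum_congr rfl fun i _ => ?_
      rw [em_apply]
      by_cases hi : κ i ∈ T
      · simp only [if_pos hi, one_mul]
      · have := hd.2 i hi
        simp only [this.1, this.2, zero_mul, add_zero]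
    exact h2.1
  have hmul : ∀ m m' : K → ZMod 2, (∀ u ∈ D, em κ m u ∈ D) → (∀ u ∈ D, em κ m' u ∈ D) →
      ∀ u ∈ D, em κ (m * m') u ∈ D := by
    intro m m' h h' u hu
    have e : em κ (m * m') u = em κ m (em κ m' u) := by
      rw [em_apply, em_apply, em_apply]
      refine Prod.ext (funext fun i => ?_) (funext fun i => ?_) <;>
        simp only [Pi.mul_apply] <;> ring
    rw [e]
    exact h _ (h' u hu)
  have hone : ∀ m : K → ZMod 2, (∀ u ∈ D, em κ m u ∈ D) → ∀ u ∈ D, em κ (1 + m) u ∈ D := by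
    intro m h u hu
    have e : em κ (1 + m) u = u + em κ m u := by
      rw [em_apply, em_apply]
      refine Prod.ext (funext fun i => ?_) (funext fun i => ?_) <;>
        simp only [Pi.add_apply, Pi.one_apply, Prod.fst_add, Prod.snd_add] <;> ring
    rw [e]
    exact Submodule.add_mem _ hu (h u hu)
  have hsep' : ∀ l, l ≠ k → ∃ m : K → ZMod 2, (∀ u ∈ D, em κ m u ∈ D) ∧ m k = 1 ∧ m l = 0 := by
    intro l hl
    obtain ⟨T, hTT, h⟩ := hsep k l hl.symm
    rcases h with ⟨h1, h2⟩ | ⟨h1, h2⟩
    · exact ⟨_, hT T hTT, if_pos h1, if_neg h2⟩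
    · refine ⟨_, hone _ (hT T hTT), ?_, ?_⟩
      · simp only [Pi.add_apply, Pi.one_apply, if_neg h1, add_zero]
      · simp only [Pi.add_apply, Pi.one_apply, if_pos h2]
        exact CharTwo.add_self_eq_zero _
  have hex : ∀ l : K, ∃ m : K → ZMod 2, l ≠ k → ((∀ u ∈ D, em κ m u ∈ D) ∧ m k = 1 ∧ m l = 0) := by
    intro l
    by_cases hl : l = k
    · exact ⟨0, fun h => absurd hl h⟩
    · obtain ⟨m, hm⟩ := hsep' l hl
      exact ⟨m, fun _ => hm⟩
  choose m hm using hex
  have hprod : ∀ S : Finset K, (∀ l ∈ S, l ≠ k) → ∀ u ∈ D, em κ (∏ l ∈ S, m l) u ∈ D := by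
    intro S
    induction S using Finset.induction_on with
    | empty =>
      intro _ u hu
      have e : em κ (∏ l ∈ (∅ : Finset K), m l) u = u := by
        rw [Finset.prod_empty, em_apply]
        exact Prod.ext (funext fun i => one_mul _) (funext fun i => one_mul _)
      rw [e]
      exact hu
    | insert l S hl ih =>
      intro hS
      rw [Finset.prod_insert hl]
      exact hmul _ _ (hm l (hS l (mem_insert_self _ _))).1
        (ih fun l' hl' => hS l' (mem_insert_of_mem hl'))
  have e : (∏ l ∈ univ.erase k, m l) = fun l => if l = k then (1 : ZMod 2) else 0 := by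
    funext l
    rw [Finset.prod_apply]
    by_cases hl : l = k
    · subst hl
      rw [if_pos rfl]
      exact Finset.prod_eq_one fun l' hl' => (hm l' (Finset.mem_erase.1 hl').1).2.1
    · rw [if_neg hl]
      exact Finset.prod_eq_zero (Finset.mem_erase.2 ⟨hl, mem_univ l⟩) (hm l hl).2.2
  have h := hprod (univ.erase k) fun l hl => (Finset.mem_erase.1 hl).1
  rw [e] at h
  exact h

section count

variable {ι : Type} [Fintype ι] [Fintype K]

/-- the number of the configurations is small -/
theorem count_bad (κ : I → K) (J : K → Finset ι) (R : ℕ)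
    (hsep : ∀ k l, k ≠ l → ∃ T : Set K, ((k ∈ T ∧ l ∉ T) ∨ (k ∉ T ∧ l ∈ T)) ∧
      R ≤ (univ.filter fun a : ι => {k | a ∈ J k} = T).card) :
    Nat.card {P : ι → VV I // (∀ a i, a ∉ J (κ i) → (P a).1 i = 0 ∧ (P a).2 i = 0) ∧
      (∀ a b, Qf (P a + P b) = 0) ∧
      ¬ ∀ k a b, Qf (em κ (fun l => if l = k then 1 else 0) (P a + P b)) = 0} * 2 ^ R ≤
    Nat.card (Set K) * Nat.card (Submodule (ZMod 2) (VV I)) * Nat.card (VV I) *
      2 ^ ∑ i, (J (κ i)).card := by
  have hfS : Finite (Submodule (ZMod 2) (VV I)) := Finite.of_injective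
    (fun D : Submodule (ZMod 2) (VV I) => (D : Set (VV I))) SetLike.coe_injective
  set 𝒯 : Set (Set K) := {T | R ≤ (univ.filter fun a : ι => {k | a ∈ J k} = T).card} with h𝒯
  set tp : ι → Set K := fun a => {k | a ∈ J k} with htp
  have hdbl : ∀ u : VV I, u + u = 0 := fun u => Prod.ext (funext fun i => CharTwo.add_self_eq_zero _)
    (funext fun i => CharTwo.add_self_eq_zero _)
  -- the pieces
  set pc : Submodule (ZMod 2) (VV I) → VV I → Finset (ι → VV I) := fun D P₀ =>
    Fintype.piFinset fun a => univ.filter fun p => p ∈ VT κ (tp a) ∧ p + P₀ ∈ D with hpc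
  have hone : ∀ (D : Submodule (ZMod 2) (VV I)) (P₀ : VV I) (T : Set K),
      (univ.filter fun p => p ∈ VT κ T ∧ p + P₀ ∈ D).card ≤
        Nat.card (D ⊓ VT κ T : Submodule (ZMod 2) (VV I)) := by
    intro D P₀ T
    rcases (univ.filter fun p => p ∈ VT κ T ∧ p + P₀ ∈ D).eq_empty_or_nonempty with h | ⟨p₁, hp₁⟩
    · rw [h, card_empty]
      exact Nat.zero_le _
    · rw [mem_filter] at hp₁
      obtain ⟨-, h1, h2⟩ := hp₁
      rw [← Fintype.card_coe, ← Nat.card_eq_fintype_card]
      refine Nat.card_le_card_of_injective (fun p => ⟨p.1 + p₁, ?_, ?_⟩) ?_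
      · have h3 := (mem_filter.1 p.2).2.2
        have e : p.1 + p₁ = (p.1 + P₀) + (p₁ + P₀) := by
          calc p.1 + p₁ = p.1 + p₁ + (P₀ + P₀) := by rw [hdbl, add_zero]
            _ = _ := by abel
        rw [e]
        exact D.add_mem h3 h2
      · exact Submodule.add_mem _ (mem_filter.1 p.2).2.1 h1
      · intro p q h
        exact Subtype.ext (add_right_cancel (congrArg Subtype.val h))
  -- the bad spaces
  set bad : Set K → Submodule (ZMod 2) (VV I) → Prop := fun T D =>
    T ∈ 𝒯 ∧ (∀ u ∈ D, ∀ v ∈ D, Bf u v = 0) ∧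
      finrank (ZMod 2) (D ⊓ VT κ T : Submodule (ZMod 2) (VV I)) < nT κ T with hbad
  have hsum : ∑ a, nT κ (tp a) = ∑ i, (J (κ i)).card := by
    have h1 : ∀ a, nT κ (tp a) = ∑ i, if a ∈ J (κ i) then 1 else 0 := by
      intro a
      unfold nT
      rw [Finset.card_filter]
      refine Finset.sum_congr rfl fun i _ => ?_
      by_cases h : a ∈ J (κ i)
      · rw [if_pos h, if_pos (show κ i ∈ tp a from h)]
      · rw [if_neg h, if_neg (show ¬ κ i ∈ tp a from h)]
    rw [Finset.sum_congr rfl fun a _ => h1 a, Finset.sum_comm]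
    refine Finset.sum_congr rfl fun i _ => ?_
    rw [← Finset.card_filter]
    congr 1
    ext a
    simp
  have hcard : ∀ T D P₀, bad T D → (pc D P₀).card * 2 ^ R ≤ 2 ^ ∑ i, (J (κ i)).card := by
    intro T D P₀ ⟨hT, hB, hlt⟩
    have h1 : (pc D P₀).card ≤ ∏ a, 2 ^ (finrank (ZMod 2) (D ⊓ VT κ (tp a) :
        Submodule (ZMod 2) (VV I))) := by
      rw [hpc]
      simp only
      rw [Fintype.card_piFinset]
      refine Finset.prod_le_prod' fun a _ => (hone D P₀ (tp a)).trans (le_of_eq ?_)
      rw [Module.natCard_eq_pow_finrank (K := ZMod 2), Nat.card_zmod]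
    have h2 : ∀ a, 2 ^ (finrank (ZMod 2) (D ⊓ VT κ (tp a) : Submodule (ZMod 2) (VV I))) *
        (if tp a = T then 2 else 1) ≤ 2 ^ nT κ (tp a) := by
      intro a
      by_cases ha : tp a = T
      · rw [if_pos ha, ha, ← pow_succ]
        exact Nat.pow_le_pow_right (by norm_num) hlt
      · rw [if_neg ha, mul_one]
        exact Nat.pow_le_pow_right (by norm_num) (iso_le inf_le_right fun u hu v hv => hB u hu.1 v hv.1)
    have h3 : 2 ^ R ≤ ∏ a, (if tp a = T then 2 else 1) := by
      rw [← Finset.prod_filter, Finset.prod_const]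
      exact Nat.pow_le_pow_right (by norm_num) hT
    calc (pc D P₀).card * 2 ^ R ≤ (∏ a, 2 ^ (finrank (ZMod 2) (D ⊓ VT κ (tp a) :
        Submodule (ZMod 2) (VV I)))) * ∏ a, (if tp a = T then 2 else 1) := Nat.mul_le_mul h1 h3
      _ = ∏ a, (2 ^ (finrank (ZMod 2) (D ⊓ VT κ (tp a) : Submodule (ZMod 2) (VV I))) *
          (if tp a = T then 2 else 1)) := Finset.prod_mul_distrib.symm
      _ ≤ ∏ a, 2 ^ nT κ (tp a) := Finset.prod_le_prod' fun a _ => h2 a
      _ = _ := by rw [Finset.prod_pow_eq_pow_sum, hsum]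
  -- the covering
  have hfSF : Fintype (Submodule (ZMod 2) (VV I)) := Fintype.ofFinite _
  set Bad : Finset (ι → VV I) := univ.filter fun P => (∀ a i, a ∉ J (κ i) → (P a).1 i = 0 ∧
      (P a).2 i = 0) ∧ (∀ a b, Qf (P a + P b) = 0) ∧
      ¬ ∀ k a b, Qf (em κ (fun l => if l = k then 1 else 0) (P a + P b)) = 0 with hBad
  have hcov : Bad ⊆ ((univ : Finset (Set K × Submodule (ZMod 2) (VV I) × VV I)).filter
      fun x => bad x.1 x.2.1).biUnion fun x => pc x.2.1 x.2.2 := by
    intro P hP
    rw [hBad, mem_filter] at hP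
    obtain ⟨-, hs, hA, hn⟩ := hP
    obtain ⟨hQ, hB⟩ := sing_span P hA
    set D := Submodule.span (ZMod 2) (Set.range fun p : ι × ι => P p.1 + P p.2) with hD
    have hmem : ∀ a b, P a + P b ∈ D := fun a b => Submodule.subset_span ⟨(a, b), rfl⟩
    have hne : ∃ T ∈ 𝒯, finrank (ZMod 2) (D ⊓ VT κ T : Submodule (ZMod 2) (VV I)) < nT κ T := by
      by_contra hcon
      push Not at hcon
      apply hn
      intro k a b
      exact hQ _ (prod_of_full hB 𝒯 (fun k l hkl => by
        obtain ⟨T, h1, h2⟩ := hsep k l hkl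
        exact ⟨T, h2, h1⟩) hcon k _ (hmem a b))
    obtain ⟨T, hT, hlt⟩ := hne
    have hι : Nonempty ι := by
      by_contra h
      rw [not_nonempty_iff] at h
      exact hn fun k a => h.elim a
    obtain ⟨a₀⟩ := hι
    rw [Finset.mem_biUnion]
    refine ⟨(T, D, P a₀), mem_filter.2 ⟨mem_univ _, hT, hB, hlt⟩, ?_⟩
    rw [hpc]
    simp only [Fintype.mem_piFinset, mem_filter, mem_univ, true_and]
    intro a
    exact ⟨fun i hi => hs a i hi, hmem a a₀⟩
  have hBadc : Bad.card * 2 ^ R ≤ Nat.card (Set K) * Nat.card (Submodule (ZMod 2) (VV I)) *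
      Nat.card (VV I) * 2 ^ ∑ i, (J (κ i)).card := by
    calc Bad.card * 2 ^ R ≤ (∑ x ∈ (univ : Finset (Set K × Submodule (ZMod 2) (VV I) × VV I)).filter
          (fun x => bad x.1 x.2.1), (pc x.2.1 x.2.2).card) * 2 ^ R :=
          Nat.mul_le_mul_right _ ((card_le_card hcov).trans card_biUnion_le)
      _ = ∑ x ∈ (univ : Finset (Set K × Submodule (ZMod 2) (VV I) × VV I)).filter
          (fun x => bad x.1 x.2.1), (pc x.2.1 x.2.2).card * 2 ^ R := Finset.sum_mul _ _ _
      _ ≤ ∑ x ∈ (univ : Finset (Set K × Submodule (ZMod 2) (VV I) × VV I)).filter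
          (fun x => bad x.1 x.2.1), 2 ^ ∑ i, (J (κ i)).card :=
          Finset.sum_le_sum fun x hx => hcard _ _ _ (mem_filter.1 hx).2
      _ ≤ _ := by
        rw [Finset.sum_const, smul_eq_mul]
        refine Nat.mul_le_mul_right _ ((card_filter_le _ _).trans (le_of_eq ?_))
        rw [Finset.card_univ, Fintype.card_prod, Fintype.card_prod, Nat.card_eq_fintype_card,
          Nat.card_eq_fintype_card, Nat.card_eq_fintype_card, mul_assoc]
  refine le_trans (le_of_eq ?_) hBadc
  congr 1
  rw [hBad, Nat.card_eq_fintype_card, Fintype.card_subtype]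

end count

end Q44.BP
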