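import Pool.Agent.Q44.BP.Box
import Pool.Agent.Q44.BN.Bal

/-!
# The joint law in a local class
-/

set_option autoImplicit false
set_option linter.unusedSectionVars false

open scoped Classical

namespace Q44.BP

open Finset Module Filter Topology
open Pool.Agent.Y703.CQ (nr)
open Q44.BC (lm lam)
open Q44.TK (Fm hF hF_pos hF_mul hF_sum hF_eq hF_one Fm_two fin_Fm)
open Q44.BM (vm Fam RC Sys SS Ok HM GT Rch mem_SS pos_prop law_pos hm_cls)
open Q44.TI (pd SelS cop_mod cardf ratio ch nz_of ch_mul fd)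
open Q44.BN

/-- the data of several curves and of a local class -/
structure Jd (K : Type) where
  A : K → ℤ
  B : K → ℤ
  m : ℕ
  d : ℕ
  hB : ∀ k, ¬ IsSquare (B k)
  hC : ∀ k, A k ^ 2 - 4 * B k ≠ 0
  hs : ∀ k, IsSquare (B k * (A k ^ 2 - 4 * B k))
  hm : ∀ k, Md (A k) (B k) m
  m0 : m ≠ 0
  m8 : 8 ∣ m
  hd : d.Coprime m
  sep : ∀ k l, k ≠ l → ¬ IsSquare (B k * B l)

namespace Jd

variable {K : Type} (j : Jd K)

/-- the data of one curve -/
abbrev c (k : K) : Cu where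
  A := j.A k
  B := j.B k
  m := j.m
  d := j.d
  hB := j.hB k
  hC := j.hC k
  hs := j.hs k
  hm := j.hm k
  hd := j.hd

/-- all the residue classes -/
noncomputable def rc : RC where
  m := j.m
  𝒜 := (range j.m).filter fun r => r.Coprime j.m
  ℬ := ∅
  h4 := (by norm_num : 4 ∣ 8).trans j.m8
  pos := Nat.pos_of_ne_zero j.m0
  hA := fun a ha => ⟨mem_range.1 (mem_filter.1 ha).1, (mem_filter.1 ha).2⟩
  h1 := by
    have h8 := j.m8
    have hnz := j.m0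
    have h1 : 1 < j.m := by
      have := Nat.le_of_dvd (Nat.pos_of_ne_zero hnz) h8
      omega
    exact mem_filter.2 ⟨mem_range.2 h1, Nat.coprime_one_left _⟩
  hB := fun a ha => absurd ha (Finset.notMem_empty a)
  dis := Finset.disjoint_empty_right _

theorem A_iff (p : ℕ) : j.rc.Φ.A p ↔ p.Prime ∧ p.Coprime j.m := by
  have hpos := Nat.pos_of_ne_zero j.m0
  show p.Prime ∧ p % j.m ∈ (range j.m).filter _ ↔ _
  rw [mem_filter, mem_range, cop_mod]
  exact ⟨fun h => ⟨h.1, h.2.2⟩, fun h => ⟨h.1, Nat.mod_lt _ hpos, h.2⟩⟩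

theorem P_iff (p : ℕ) : j.rc.Φ.P p ↔ p.Prime ∧ p.Coprime j.m := by
  constructor
  · rintro (h | h)
    · exact (j.A_iff p).1 h
    · exact absurd h.2 (Finset.notMem_empty _)
  · intro h
    exact Or.inl ((j.A_iff p).2 h)

/-- the residue classes -/
abbrev I : Type := {r : ℕ // r ∈ (range j.m).filter fun r => r.Coprime j.m}

/-- the primes of a residue class -/
def cl (i : j.I) (p : ℕ) : Prop := p.Prime ∧ p % j.m = i

/-- the residue class of a number -/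
def ofN {n : ℕ} (hn : n.Coprime j.m) : j.I :=
  ⟨n % j.m, mem_filter.2 ⟨mem_range.2 (Nat.mod_lt _ (Nat.pos_of_ne_zero j.m0)), cop_mod.2 hn⟩⟩

theorem cl_cop {i : j.I} {p : ℕ} (h : j.cl i p) : p.Coprime j.m :=
  cop_mod.1 (h.2 ▸ (mem_filter.1 i.2).2)

theorem hm_i (i : j.I) : HM (j.cl i) := by
  have h1 := hm_cls (Nat.pos_of_ne_zero j.m0) {(i : ℕ)} (fun a ha => by
    rw [mem_singleton.1 ha]
    exact ⟨mem_range.1 (mem_filter.1 i.2).1, (mem_filter.1 i.2).2⟩) (singleton_nonempty _)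
  obtain ⟨θ, C, hθ, h2⟩ := h1
  refine ⟨θ, C, hθ, fun y hy => (h2 y hy).trans (le_of_eq ?_)⟩
  refine sum_congr ?_ fun _ _ => rfl
  ext p
  simp only [mem_filter, mem_singleton]
  unfold cl
  tauto

theorem reach : Rch j.rc.Φ (hF j.m) (hF j.m j.d) := by
  obtain ⟨p, -, hp, h1⟩ := Nat.forall_exists_prime_gt_and_modEq 0 j.m0 j.hd
  have h2 : p % j.m = j.d % j.m := h1
  have hc : p.Coprime j.m := cop_mod.1 (by rw [h2]; exact cop_mod.2 j.hd)
  refine ⟨{p}, fun q hq => ?_, ?_⟩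
  · rw [mem_singleton.1 hq]
    exact (j.P_iff p).2 ⟨hp, hc⟩
  · unfold GT
    rw [sum_singleton, ← hF_mod hc, h2, hF_mod j.hd]

theorem GT_iff {S : Finset ℕ} (hS : ∀ p ∈ S, j.rc.Φ.P p) :
    GT (hF j.m) (hF j.m j.d) S ↔ hF j.m (∏ p ∈ S, p) = hF j.m j.d := by
  unfold GT
  rw [hF_sum S fun p hp => ((j.P_iff p).1 (hS p hp)).2]

/-- the positive squarefree integers prime to `m` in the local class of `d` -/
def Dm (D : ℕ) : Prop := (Squarefree D ∧ D.Coprime j.m) ∧ hF j.m D = hF j.m j.d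

theorem Dm_iff (D : ℕ) : j.Dm D ↔ (Squarefree D ∧ ∀ p ∈ D.primeFactors, j.rc.Φ.P p) ∧
    GT (hF j.m) (hF j.m j.d) D.primeFactors := by
  unfold Dm
  constructor
  · rintro ⟨⟨h1, h2⟩, h3⟩
    have h4 : ∀ p ∈ D.primeFactors, j.rc.Φ.P p := fun p hp => (j.P_iff p).2
      ⟨Nat.prime_of_mem_primeFactors hp,
        Nat.Coprime.coprime_dvd_left (Nat.dvd_of_mem_primeFactors hp) h2⟩
    refine ⟨⟨h1, h4⟩, ?_⟩
    rw [j.GT_iff h4, Nat.prod_primeFactors_of_squarefree h1]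
    exact h3
  · rintro ⟨⟨h1, h2⟩, h3⟩
    rw [j.GT_iff h2, Nat.prod_primeFactors_of_squarefree h1] at h3
    refine ⟨⟨h1, ?_⟩, h3⟩
    rw [← Nat.prod_primeFactors_of_squarefree h1]
    exact Nat.Coprime.prod_left fun p hp => ((j.P_iff p).1 (h2 p hp)).2

/-- the systems -/
noncomputable abbrev sy (k : K) : Sys (j.c k).rc.Φ (GG (j.c k).T) (j.c k).FA :=
  (j.c k).sy (j.c k).L0

/-- the systems are not degenerate -/
theorem js : JS j.rc.Φ j.sy j.cl where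
  all := fun p hp => (j.A_iff p).2 ((j.P_iff p).1 hp)
  P := fun k p => (j.P_iff p).trans ((j.c k).P_iff p).symm
  E := fun k p => Iff.rfl
  good := fun k => (j.c k).good
  sep := fun k l hkl => by
    obtain ⟨p, h1, h2, h3, h4⟩ := ex_prime (j.sep k l hkl) j.m j.m0
    have : Fact p.Prime := ⟨h1⟩
    rw [Int.cast_mul] at h3 h4
    have k5 := left_ne_zero_of_mul h3
    have k6 := right_ne_zero_of_mul h3
    rw [ch_mul k5 k6, ← jc_prime j.m0 (j.hm k).dB h1 h2, ← jc_prime j.m0 (j.hm l).dB h1 h2] at h4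
    have hcl : ∀ q, j.cl (j.ofN h2) q → ∀ k', (j.c k').rc.Φ.A q ↔ jc j.m (j.B k') (hF j.m p) = 0 := by
      intro q hq k'
      have hqc := j.cl_cop hq
      rw [(j.c k').A_iff, (j.c k').act_iff hq.1 hqc]
      have e : hF j.m q = hF j.m p := by
        rw [← hF_mod hqc, hq.2]
        exact hF_mod h2
      show jc j.m (j.B k') (hF j.m q) = 0 ↔ _
      rw [e]
    refine ⟨j.ofN h2, {k' | jc j.m (j.B k') (hF j.m p) = 0}, ?_, fun q hq => ?_⟩
    · show (jc j.m (j.B k) (hF j.m p) = 0 ∧ ¬ jc j.m (j.B l) (hF j.m p) = 0) ∨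
        (¬ jc j.m (j.B k) (hF j.m p) = 0 ∧ jc j.m (j.B l) (hF j.m p) = 0)
      revert h4
      generalize jc j.m (j.B k) (hF j.m p) = x
      generalize jc j.m (j.B l) (hF j.m p) = y
      revert x y
      decide
    · ext k'
      exact hcl q hq k'

/-- the label -/
noncomputable def lb (p : ℕ) : Fin j.m × (K → ZMod 2) :=
  (⟨p % j.m, Nat.mod_lt _ (Nat.pos_of_ne_zero j.m0)⟩, fun k => fd (j.A k) (j.B k) p)

theorem lb_ok : JLb j.rc.Φ j.sy j.cl j.lb (hF j.m) := by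
  intro p q hp hq h
  obtain ⟨hp1, hp2⟩ := (j.P_iff p).1 hp
  obtain ⟨hq1, hq2⟩ := (j.P_iff q).1 hq
  have h1 : p % j.m = q % j.m := congrArg (fun t => (t.1 : ℕ)) h
  have h2 : ∀ k, fd (j.A k) (j.B k) p = fd (j.A k) (j.B k) q := fun k =>
    congrFun (congrArg (fun t => t.2) h) k
  have h3 : hF j.m p = hF j.m q := by rw [← hF_mod hp2, h1, hF_mod hq2]
  refine ⟨fun k => ?_, ?_, ?_, fun i => ?_, h3⟩
  · have h4 : (j.c k).lb p = (j.c k).lb q := Prod.ext (Fin.ext h1) (h2 k)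
    obtain ⟨k1, k2, -, -, -⟩ := (j.c k).lb_ok p q (((j.c k).P_iff p).2 ⟨hp1, hp2⟩)
      (((j.c k).P_iff q).2 ⟨hq1, hq2⟩) h4
    refine ⟨k1, k2, ?_⟩
    rw [(j.c k).A_iff, (j.c k).A_iff, (j.c k).act_iff hp1 hp2, (j.c k).act_iff hq1 hq2]
    show jc j.m (j.B k) (hF j.m p) = 0 ↔ jc j.m (j.B k) (hF j.m q) = 0
    rw [h3]
  · have h4 : p % 4 = q % 4 := by
      have h5 : 4 ∣ j.m := (by norm_num : 4 ∣ 8).trans j.m8
      rw [← Nat.mod_mod_of_dvd p h5, h1, Nat.mod_mod_of_dvd q h5]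
    unfold vm
    rw [h4]
  · show (p.Prime ∧ p % j.m = 1) ↔ (q.Prime ∧ q % j.m = 1)
    rw [h1]
    exact ⟨fun h => ⟨hq1, h.2⟩, fun h => ⟨hp1, h.2⟩⟩
  · unfold cl
    rw [h1]
    exact ⟨fun h => ⟨hq1, h.2⟩, fun h => ⟨hp1, h.2⟩⟩

/-- the dimensions of the spaces of the solutions are the `r k` -/
def Dr (r : K → ℕ) (S : Finset ℕ) : Prop := ∀ k, (j.c k).Dr (r k) S

/-- **the joint law for the systems** -/
theorem law0 [Fintype K] (r : K → ℕ) :
    Tendsto (fun X : ℕ => (((SS j.rc.Φ X).filter fun S => GT (hF j.m) (hF j.m j.d) S ∧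
        j.Dr r S).card : ℝ) /
      (((SS j.rc.Φ X).filter (GT (hF j.m) (hF j.m j.d))).card : ℝ)) atTop
      (nhds (∏ k, lam (j.c k).t (r k))) := by
  have hnz : NeZero j.m := ⟨j.m0⟩
  have hfin : ∀ k, Finite (j.c k).FA := fun k => (j.c k).finFA
  have hcard : ∀ k, (Nat.card (j.sy k).𝓛 : ℝ) = (j.c k).t * Nat.card (j.c k).FA := by
    intro k
    have h1 : 0 < Nat.card (j.c k).FA := Nat.card_pos
    have h2 : (0 : ℝ) < (Nat.card (j.c k).FA : ℝ) := by exact_mod_cast h1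
    unfold Cu.t
    rw [div_mul_cancel₀ _ h2.ne']
    rfl
  refine law_pos j.rc.ok (pos_prop Fm_two j.rc.ok (hF j.m) j.reach) ?_
  have hBX : ∀ ε : ℝ, 0 < ε → ∃ R, BX j.rc.Φ (NdK j.rc.Φ j.cl R) (GT (hF j.m) (hF j.m j.d))
      (j.Dr r) (∏ k, lam (j.c k).t (r k)) ε (Fintype.card (Fin j.m × (K → ZMod 2))) := fun ε hε =>
    t_JBX j.sy j.js (fun k => (j.c k).t_pos) hcard r (hF j.m j.d) j.lb_ok hε
  exact t_DQ j.rc.ok j.cl (fun i p h => (j.P_iff p).2 ⟨h.1, j.cl_cop h⟩) j.hm_i _ _ _ _ hBX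

end Jd

end Q44.BP
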