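import Pool.Agent.Q44.BP.Jd

/-!
# The joint law in a local class: the Selmer groups, and the smallest Selmer groups
-/

set_option autoImplicit false
set_option linter.unusedSectionVars false

open scoped Classical

namespace Q44.BP

open Finset Module Filter Topology
open Q44.BC (lm lam)
open Q44.TK (Fm hF hF_pos hF_mul hF_sum hF_eq hF_one Fm_two fin_Fm)
open Q44.BM (vm Fam RC Sys SS Ok HM GT Rch mem_SS pos_prop law_pos hm_cls)
open Q44.TI (pd SelS cop_mod cardf ratio)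
open Q44.BN

namespace Jd

variable {K : Type} [Fintype K] (j : Jd K)

theorem ncard {D : ℕ} (h : (Squarefree D ∧ ∀ p ∈ D.primeFactors, j.rc.Φ.P p) ∧
    GT (hF j.m) (hF j.m j.d) D.primeFactors) (k : K) :
    (SelS (j.A k * D) (j.B k * (D : ℤ) ^ 2)).Finite ∧
      (SelS (j.A k * D) (j.B k * (D : ℤ) ^ 2)).ncard =
        2 ^ (finrank (ZMod 2) (((j.c k).sy (j.c k).L0).Sel D.primeFactors) + 1) := by
  obtain ⟨⟨h1, h2⟩, h3⟩ := h
  have h4 := (j.c k).ncard_SelS (S := D.primeFactors)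
    (fun p hp => ((j.c k).P_iff p).2 ((j.P_iff p).1 (h2 p hp))) ((j.GT_iff h2).1 h3)
  have e : pd D.primeFactors = (D : ℤ) := by
    unfold pd
    rw [Nat.prod_primeFactors_of_squarefree h1]
  rw [e] at h4
  exact h4

/-- **the joint law in a local class** -/
theorem law (r : K → ℕ) :
    Tendsto (fun X : ℕ => (((Icc 1 X).filter fun D : ℕ => j.Dm D ∧
        ∀ k, (SelS (j.A k * D) (j.B k * (D : ℤ) ^ 2)).ncard = 2 ^ (r k + 1)).card : ℝ) /
      (((Icc 1 X).filter fun D : ℕ => j.Dm D).card : ℝ)) atTop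
      (nhds (∏ k, lam (j.c k).t (r k))) := by
  refine (j.law0 r).congr fun X => ?_
  rw [← card_nat j.rc.Φ X (fun S => GT (hF j.m) (hF j.m j.d) S ∧ j.Dr r S),
    ← card_nat j.rc.Φ X (GT (hF j.m) (hF j.m j.d))]
  refine ratio (fun D => ?_) (fun D => ?_) _
  · rw [j.Dm_iff, and_assoc (b := GT (hF j.m) (hF j.m j.d) D.primeFactors)]
    refine and_congr_right fun h1 => and_congr_right fun h2 => ?_
    unfold Dr Cu.Dr
    refine forall_congr' fun k => ?_
    rw [(j.ncard ⟨h1, h2⟩ k).2]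
    constructor
    · intro h
      rw [h]
    · intro h
      have := Nat.pow_right_injective (le_refl 2) h
      omega
  · exact (j.Dm_iff D).symm

/-- the set contains a prime of every residue class -/
def Full (S : Finset ℕ) : Prop := ∀ i : j.I, ∃ p ∈ S, j.cl i p

/-- the full sets have density one -/
theorem full_one :
    Tendsto (fun X : ℕ => (((SS j.rc.Φ X).filter fun S => GT (hF j.m) (hF j.m j.d) S ∧
        j.Full S).card : ℝ) /
      (((SS j.rc.Φ X).filter (GT (hF j.m) (hF j.m j.d))).card : ℝ)) atTop (𝓝 1) := by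
  have hnz : NeZero j.m := ⟨j.m0⟩
  refine law_pos j.rc.ok (pos_prop Fm_two j.rc.ok (hF j.m) j.reach) ?_
  refine t_DQ j.rc.ok j.cl (fun i p h => (j.P_iff p).2 ⟨h.1, j.cl_cop h⟩) j.hm_i _ _ 1 1 fun ε hε =>
    ⟨1, ?_⟩
  intro ι _ _ J1 C X κ S₀ hκ h1 h2 h3 h4 h5
  have key : (Fintype.piFinset C).filter (fun p => (NdK j.rc.Φ j.cl 1 S₀ (univ.image p) ∧
      GT (hF j.m) (hF j.m j.d) (S₀ ∪ univ.image p)) ∧ j.Full (S₀ ∪ univ.image p)) =
      (Fintype.piFinset C).filter (fun p => NdK j.rc.Φ j.cl 1 S₀ (univ.image p) ∧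
      GT (hF j.m) (hF j.m j.d) (S₀ ∪ univ.image p)) := by
    refine filter_congr fun p _ => ?_
    constructor
    · intro h
      exact h.1
    · intro h
      refine ⟨h, fun i => ?_⟩
      have h6 := h.1.2 i
      have h7 : 0 < ((univ.image p).filter fun q => j.cl i q).card := by omega
      obtain ⟨q, hq⟩ := card_pos.1 h7
      obtain ⟨h8, h9⟩ := mem_filter.1 hq
      exact ⟨q, mem_union_right _ h8, h9⟩
  rw [key, one_mul, sub_self, abs_zero]
  have : (0 : ℝ) ≤ ∏ j, (X j : ℝ) := prod_nonneg fun _ _ => Nat.cast_nonneg _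
  positivity

/-- the systems together with the full sets -/
theorem law_full (r : K → ℕ) :
    Tendsto (fun X : ℕ => (((SS j.rc.Φ X).filter fun S => GT (hF j.m) (hF j.m j.d) S ∧
        j.Dr r S ∧ j.Full S).card : ℝ) /
      (((SS j.rc.Φ X).filter (GT (hF j.m) (hF j.m j.d))).card : ℝ)) atTop
      (𝓝 (∏ k, lam (j.c k).t (r k))) :=
  squeeze (SS j.rc.Φ) (fun _ h => h.1) (fun _ h => h.1) (fun _ h h' => ⟨h.1, h.2, h'.2⟩)
    (fun _ h => ⟨h.1, h.2.1⟩) (j.law0 r) j.full_one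

/-- both Selmer groups of all the curves are as small as possible -/
def Sm (D : ℕ) : Prop := ∀ k, (j.c k).Sm D

/-- the sufficient condition -/
def Sf (D : ℕ) : Prop := j.Dr (fun _ => 0) D.primeFactors ∧ j.Full D.primeFactors

theorem Dm_c (k : K) {D : ℕ} (h : j.Dm D) : (j.c k).Dm D := h

theorem Sf_Sm (ht : ∀ k, (j.c k).t = 1) {D : ℕ} (hG : j.Dm D) (hP : j.Sf D) : j.Sm D := fun k =>
  (j.c k).Sf_Sm (ht k) (j.Dm_c k hG) ⟨hP.1 k, hP.2⟩

/-- the law of the sufficient condition -/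
theorem law_Sf (ht : ∀ k, (j.c k).t = 1) :
    Tendsto (fun X : ℕ => (((Icc 1 X).filter fun D : ℕ => j.Dm D ∧ j.Sf D).card : ℝ) /
      (((Icc 1 X).filter fun D : ℕ => j.Dm D).card : ℝ)) atTop
      (𝓝 (lam 1 0 ^ Fintype.card K)) := by
  have h := j.law_full fun _ => 0
  have e : ∏ k, lam (j.c k).t 0 = lam 1 0 ^ Fintype.card K := by
    rw [prod_congr rfl fun k _ => by rw [ht k], prod_const, card_univ]
  rw [e] at h
  refine h.congr fun X => ?_
  rw [← card_nat j.rc.Φ X (fun S => GT (hF j.m) (hF j.m j.d) S ∧ j.Dr (fun _ => 0) S ∧ j.Full S),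
    ← card_nat j.rc.Φ X (GT (hF j.m) (hF j.m j.d))]
  refine ratio (fun D => ?_) (fun D => ?_) _
  · rw [j.Dm_iff, and_assoc (b := GT (hF j.m) (hF j.m j.d) D.primeFactors)]
    rfl
  · exact (j.Dm_iff D).symm

/-- **all the Selmer groups are as small as possible** -/
theorem law_small (ht : ∀ k, (j.c k).t = 1) :
    Tendsto (fun X : ℕ => (((Icc 1 X).filter fun D : ℕ => j.Dm D ∧ j.Sm D).card : ℝ) /
      (((Icc 1 X).filter fun D : ℕ => j.Dm D).card : ℝ)) atTop
      (𝓝 (lam 1 0 ^ Fintype.card K)) := by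
  have h1 := j.law fun _ => 0
  have h2 := j.law_Sf ht
  have e : ∏ k, lam (j.c k).t 0 = lam 1 0 ^ Fintype.card K := by
    rw [prod_congr rfl fun k _ => by rw [ht k], prod_const, card_univ]
  rw [e] at h1
  refine between (fun X => Icc 1 X) h2 h1 (fun X D _ h => ⟨h.1, j.Sf_Sm ht h.1 h.2⟩)
    fun X D _ h => ⟨h.1, fun k => ?_⟩
  exact (h.2 k).1

/-- the local classes have positive density -/
theorem pos_cls : ∃ (η : ℝ) (X₀ : ℕ), 0 < η ∧ ∀ X : ℕ, X₀ ≤ X →
    η * (X : ℝ) ≤ (((Icc 1 X).filter fun D : ℕ => j.Dm D).card : ℝ) := by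
  have hnz : NeZero j.m := ⟨j.m0⟩
  obtain ⟨η, X₀, hη, h⟩ := pos_prop Fm_two j.rc.ok (hF j.m) j.reach
  obtain ⟨c, X₁, hc, hX₁⟩ := j.rc.ok.low
  have hδ : j.rc.δ = 1 := by
    unfold RC.δ
    have h1 : j.rc.𝒜 ∪ j.rc.ℬ = (range j.m).filter fun r => r.Coprime j.m := by
      show (range j.m).filter (fun r => r.Coprime j.m) ∪ ∅ = _
      rw [union_empty]
    have h2 : j.rc.m = j.m := rfl
    have h3 : ((range j.m).filter fun r => r.Coprime j.m).card = j.m.totient := by
      rw [Nat.totient_eq_card_coprime]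
      congr 1
      ext r
      rw [mem_filter, mem_filter, Nat.coprime_comm]
    rw [h1, h2, h3]
    have h4 : (0 : ℝ) < j.m.totient := by
      exact_mod_cast Nat.totient_pos.2 (Nat.pos_of_ne_zero j.m0)
    exact div_self h4.ne'
  refine ⟨η * c, max X₀ X₁, by positivity, fun X hX => ?_⟩
  have h1 := h X ((le_max_left _ _).trans hX)
  have h2 := hX₁ X ((le_max_right _ _).trans hX)
  rw [hδ, neg_add_cancel, Real.rpow_zero, mul_one] at h2
  rw [← card_nat j.rc.Φ X] at h1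
  have e1 : ((Icc 1 X).filter fun D : ℕ => (Squarefree D ∧ ∀ p ∈ D.primeFactors, j.rc.Φ.P p) ∧
      GT (hF j.m) (hF j.m j.d) D.primeFactors).card =
      ((Icc 1 X).filter fun D : ℕ => j.Dm D).card := cardf (fun D => (j.Dm_iff D).symm) _
  rw [e1] at h1
  refine le_trans ?_ h1
  calc η * c * (X : ℝ) = η * (c * X) := by ring
    _ ≤ _ := mul_le_mul_of_nonneg_left h2 hη.le

end Jd

end Q44.BP
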