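import Pool.Agent.Q44.BP.Pat

/-!
# The unified joint law
-/

set_option autoImplicit false
set_option linter.unusedSectionVars false

open scoped Classical

namespace Q44.BP

open Finset Module Filter Topology
open Q44.BC (lm lam)
open Q44.TI (pd SelS cop_mod cardf ratio)
open Q44.BN

/-- **the patterns**, with an additional event -/
theorem pattern2 {α : Type} (S : ℕ → Finset α) (G E : α → Prop) {K : Type} [Fintype K]
    (T : K → α → Prop) (κ c : ℝ)
    (h : ∀ B : Finset K, Tendsto (fun X : ℕ => (((S X).filter fun D => E D ∧ ∀ k ∈ B, T k D).card : ℝ) /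
      (((S X).filter fun D => G D).card : ℝ)) atTop (𝓝 (κ ^ B.card * c))) (A : Finset K) :
    Tendsto (fun X : ℕ => (((S X).filter fun D => E D ∧ ∀ k, (T k D ↔ k ∈ A)).card : ℝ) /
      (((S X).filter fun D => G D).card : ℝ)) atTop
      (𝓝 (κ ^ A.card * (1 - κ) ^ Aᶜ.card * c)) := by
  have h1 : Tendsto (fun X : ℕ => ∑ B ∈ Aᶜ.powerset, (-1 : ℝ) ^ B.card *
      ((((S X).filter fun D => E D ∧ ∀ k ∈ A ∪ B, T k D).card : ℝ) /
      (((S X).filter fun D => G D).card : ℝ))) atTop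
      (𝓝 (∑ B ∈ Aᶜ.powerset, (-1 : ℝ) ^ B.card * (κ ^ (A ∪ B).card * c))) :=
    tendsto_finsetSum _ fun B _ => (h (A ∪ B)).const_mul _
  have h2 : ∑ B ∈ Aᶜ.powerset, (-1 : ℝ) ^ B.card * (κ ^ (A ∪ B).card * c) =
      κ ^ A.card * (1 - κ) ^ Aᶜ.card * c := by
    have h3 := inc_exc A (fun _ : K => κ)
    simp only [prod_const] at h3
    rw [h3, sum_mul]
    exact sum_congr rfl fun B _ => by ring
  rw [h2] at h1
  refine h1.congr fun X => ?_
  have h4 : (((S X).filter fun D => E D ∧ ∀ k, (T k D ↔ k ∈ A)).card : ℝ) =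
      ∑ B ∈ Aᶜ.powerset, (-1 : ℝ) ^ B.card *
        (((S X).filter fun D => E D ∧ ∀ k ∈ A ∪ B, T k D).card : ℝ) := by
    obtain ⟨P1, hP1⟩ : ∃ P : α → Prop, ∀ D, P D ↔ ∀ k, (T k D ↔ k ∈ A) := ⟨_, fun _ => Iff.rfl⟩
    obtain ⟨P2, hP2⟩ : ∃ P : Finset K → α → Prop, ∀ B D, P B D ↔ ∀ k ∈ B, T k D :=
      ⟨_, fun _ _ => Iff.rfl⟩
    have key : ∀ D : α, (if P1 D then (1 : ℝ) else 0) =
        ∑ B ∈ Aᶜ.powerset, (-1 : ℝ) ^ B.card * (if P2 (A ∪ B) D then (1 : ℝ) else 0) := by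
      intro D
      have e1 : ∀ B : Finset K, (if P2 B D then (1 : ℝ) else 0) =
          ∏ k ∈ B, (if T k D then (1 : ℝ) else 0) := by
        intro B
        by_cases hB : ∀ k ∈ B, T k D
        · rw [if_pos ((hP2 B D).2 hB), prod_eq_one fun k hk => if_pos (hB k hk)]
        · rw [if_neg fun h => hB ((hP2 B D).1 h)]
          push Not at hB
          obtain ⟨k, hk, hk'⟩ := hB
          exact (prod_eq_zero hk (if_neg hk')).symm
      rw [sum_congr rfl fun B _ => by rw [e1], ← inc_exc]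
      by_cases hA : ∀ k, (T k D ↔ k ∈ A)
      · rw [if_pos ((hP1 D).2 hA), prod_eq_one fun k hk => if_pos ((hA k).2 hk), one_mul,
          prod_eq_one fun k hk => ?_]
        rw [if_neg fun h' => (Finset.mem_compl.1 hk) ((hA k).1 h'), sub_zero]
      · rw [if_neg fun h => hA ((hP1 D).1 h)]
        push Not at hA
        obtain ⟨k, hk⟩ := hA
        rcases hk with ⟨h5, h6⟩ | ⟨h5, h6⟩
        · rw [prod_eq_zero (s := Aᶜ) (Finset.mem_compl.2 h6), mul_zero]
          rw [if_pos h5, sub_self]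
        · rw [prod_eq_zero (s := A) h6, zero_mul]
          exact if_neg h5
    have e2 : ∀ (P : α → Prop), (((S X).filter fun D => E D ∧ P D).card : ℝ) =
        ∑ D ∈ (S X).filter (fun D => E D), (if P D then (1 : ℝ) else 0) := by
      intro P
      rw [← sum_filter, filter_filter]
      simp only [sum_const, nsmul_eq_mul, mul_one]
    have e3 : (((S X).filter fun D => E D ∧ ∀ k, (T k D ↔ k ∈ A)).card : ℝ) =
        (((S X).filter fun D => E D ∧ P1 D).card : ℝ) :=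
      congrArg Nat.cast (cardS (fun D => and_congr_right fun _ => (hP1 D).symm) _)
    rw [e3, e2, sum_congr rfl fun D _ => key D, sum_comm]
    refine sum_congr rfl fun B _ => ?_
    rw [← mul_sum, ← e2]
    exact congrArg (fun x : ℕ => (-1 : ℝ) ^ B.card * x)
      (cardS (fun D => and_congr_right fun _ => hP2 (A ∪ B) D) _)
  have h5 : ∑ B ∈ Aᶜ.powerset, (-1 : ℝ) ^ B.card *
      ((((S X).filter fun D => E D ∧ ∀ k ∈ A ∪ B, T k D).card : ℝ) /
      (((S X).filter fun D => G D).card : ℝ)) = (∑ B ∈ Aᶜ.powerset, (-1 : ℝ) ^ B.card *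
        (((S X).filter fun D => E D ∧ ∀ k ∈ A ∪ B, T k D).card : ℝ)) /
      (((S X).filter fun D => G D).card : ℝ) := by
    rw [sum_div]
    exact sum_congr rfl fun B _ => by rw [mul_div_assoc]
  rw [h5, ← h4]

namespace Cs

variable {K : Type} [Fintype K] (e : Cs K)

/-- the two isogenies: the coefficient `b` -/
def bb (s : Bool) (k : K) : ℤ := if s then e.b k else e.dual.b k

def aa (s : Bool) (k : K) : ℤ := if s then e.a k else e.dual.a k

theorem bb_eq (s : Bool) (k : K) : ∃ u v : ℤ, u ≠ 0 ∧ v ≠ 0 ∧ e.bb s k * u ^ 2 = e.b k * v ^ 2 := by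
  cases s
  · obtain ⟨t, ht⟩ := e.hs k
    have h0 : e.b k * (e.a k ^ 2 - 4 * e.b k) ≠ 0 := mul_ne_zero (e.b0 k) (e.hc k)
    refine ⟨e.b k, t, e.b0 k, ?_, ?_⟩
    · rintro rfl
      apply h0
      rw [ht, mul_zero]
    · show (e.a k ^ 2 - 4 * e.b k) * e.b k ^ 2 = _
      linear_combination e.b k * ht
  · exact ⟨1, 1, one_ne_zero, one_ne_zero, rfl⟩

/-- a choice of one of the two isogenies for every curve -/
def mix (s : K → Bool) : Cs K where
  a := fun k => e.aa (s k) k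
  b := fun k => e.bb (s k) k
  n := e.n
  hb := fun k => by
    show ¬ IsSquare (e.bb (s k) k)
    cases s k
    · exact e.dual.hb k
    · exact e.hb k
  hc := fun k => by
    show e.aa (s k) k ^ 2 - 4 * e.bb (s k) k ≠ 0
    cases s k
    · exact e.dual.hc k
    · exact e.hc k
  hs := fun k => by
    show IsSquare (e.bb (s k) k * (e.aa (s k) k ^ 2 - 4 * e.bb (s k) k))
    cases s k
    · exact e.dual.hs k
    · exact e.hs k
  sep := fun k l hkl h => by
    obtain ⟨u, v, hu, hv, huv⟩ := e.bb_eq (s k) k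
    obtain ⟨u', v', hu', hv', huv'⟩ := e.bb_eq (s l) l
    apply e.sep k l hkl
    rw [← Cd.sq_iff (mul_ne_zero hv hv')]
    obtain ⟨t, ht⟩ := h
    refine ⟨t * (u * u'), ?_⟩
    have e1 : e.b k * e.b l * (v * v') ^ 2 = (e.b k * v ^ 2) * (e.b l * v' ^ 2) := by ring
    rw [e1, ← huv, ← huv']
    linear_combination (u * u') ^ 2 * ht
  n0 := e.n0
  n2 := e.n2
  hn := fun k p hp h => by
    revert h
    show (p : ℤ) ∣ e.bb (s k) k * (e.aa (s k) k ^ 2 - 4 * e.bb (s k) k) → _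
    cases s k
    · exact e.dual.hn k p hp
    · exact e.hn k p hp

/-- the number of the elements of the Selmer group -/
noncomputable def sz (s : Bool) (k : K) (D : ℤ) : ℕ := if s then (e.cd k).nS D else (e.cd k).nS' D

/-- the constant -/
noncomputable def ta (s : Bool) (k : K) (D : ℤ) : ℝ := if s then e.tau k D else e.tau' k D

theorem dual_a (k : K) (D : ℤ) : e.dual.a k * D = -2 * (e.a k * D) := by
  show -2 * e.a k * D = _
  ring

theorem dual_b (k : K) (D : ℤ) : e.dual.b k * D ^ 2 = (e.a k * D) ^ 2 - 4 * (e.b k * D ^ 2) := by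
  show (e.a k ^ 2 - 4 * e.b k) * D ^ 2 = _
  ring

theorem dual_tau (k : K) (D : ℤ) : e.dual.tau k D = e.tau' k D := by
  unfold tau tau'
  rw [e.dual_a, e.dual_b]
  rfl

/-- **the joint law for a choice of the isogenies** -/
theorem law_mix {D₀ : ℤ} (h : Squarefree D₀) (s : K → Bool) (r : K → ℕ) :
    e.Prp D₀ (fun D => ∀ k, e.sz (s k) k D = 2 ^ (r k + 1)) (∏ k, lam (e.ta (s k) k D₀) (r k)) := by
  have h1 := (e.mix s).law h r
  have e4 : ∏ k, lam ((e.mix s).tau k D₀) (r k) = ∏ k, lam (e.ta (s k) k D₀) (r k) := by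
    refine prod_congr rfl fun k _ => ?_
    have : (e.mix s).tau k D₀ = e.ta (s k) k D₀ := by
      show tm e.n.primeFactors (e.aa (s k) k * D₀) (e.bb (s k) k * D₀ ^ 2) = _
      cases s k
      · exact e.dual_tau k D₀
      · rfl
    rw [this]
  rw [e4] at h1
  refine h1.congr fun X => ?_
  refine congrArg₂ (fun x y : ℕ => (x : ℝ) / (y : ℝ)) (cardS (fun D => ?_) _) rfl
  refine and_congr_right fun _ => forall_congr' fun k => ?_
  have : (SelS ((e.mix s).a k * D) ((e.mix s).b k * D ^ 2)).ncard = e.sz (s k) k D := by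
    show (SelS (e.aa (s k) k * D) (e.bb (s k) k * D ^ 2)).ncard = _
    cases s k
    · show (SelS (e.dual.a k * D) (e.dual.b k * D ^ 2)).ncard = _
      rw [e.dual_a, e.dual_b]
      rfl
    · rfl
  rw [this]

/-- on a subset -/
theorem law_on {D₀ : ℤ} (h : Squarefree D₀) (U : Finset K) (s : K → Bool) (r : K → ℕ) :
    e.Prp D₀ (fun D => ∀ k ∈ U, e.sz (s k) k D = 2 ^ (r k + 1))
      (∏ k ∈ U, lam (e.ta (s k) k D₀) (r k)) := by
  have h1 := (e.sub U).law_mix h (fun k => s k) (fun k => r k)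
  have e1 : ∏ k : U, lam ((e.sub U).ta (s k) k D₀) (r k) = ∏ k ∈ U, lam (e.ta (s k) k D₀) (r k) :=
    Finset.prod_coe_sort U fun k => lam (e.ta (s k) k D₀) (r k)
  rw [e1] at h1
  refine h1.congr fun X => ?_
  refine congrArg₂ (fun x y : ℕ => (x : ℝ) / (y : ℝ)) (cardS (fun D => ?_) _) rfl
  refine and_congr_right fun _ => ?_
  exact ⟨fun h k hk => h ⟨k, hk⟩, fun h k => h k k.2⟩

/-- the exceptional set has proportion zero -/
theorem bad_zero {D₀ : ℤ} (h : Squarefree D₀) {k : K} (ht : e.tau k D₀ = 1) (ht' : e.tau' k D₀ = 1) :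
    e.Prp D₀ (fun D => (e.cd k).nS' D = 2 ∧ (e.cd k).rs D ≠ 1) 0 := by
  have h1 := (e.sub {k}).law_rs h (fun l => by
    obtain ⟨l, hl⟩ := l
    rw [mem_singleton] at hl
    subst hl
    exact ht) (fun l => by
    obtain ⟨l, hl⟩ := l
    rw [mem_singleton] at hl
    subst hl
    exact ht')
  rw [Fintype.card_coe, card_singleton, pow_one] at h1
  have h2 := e.law_on h {k} (fun _ => false) (fun _ => 0)
  rw [prod_singleton] at h2
  have e0 : e.ta false k D₀ = 1 := ht'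
  rw [e0] at h2
  have h1' : e.Prp D₀ (fun D => ∀ l, ((e.sub {k}).cd l).rs D = 1) (lam 1 0) := h1
  have h3 := h2.sub h1'
  rw [sub_self] at h3
  refine h3.congr fun X => ?_
  rw [← sub_div]
  congr 1
  obtain ⟨P, hP⟩ : ∃ P : ℤ → Prop, ∀ D, P D ↔ (e.cd k).rs D = 1 := ⟨_, fun _ => Iff.rfl⟩
  obtain ⟨Q, hQ⟩ : ∃ Q : ℤ → Prop, ∀ D, Q D ↔ (e.cd k).nS' D = 2 := ⟨_, fun _ => Iff.rfl⟩
  have g1 : (((Sq X).filter fun D => SameM e.n D₀ D ∧
      ∀ l ∈ ({k} : Finset K), e.sz false l D = 2 ^ (0 + 1)).card : ℝ) =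
      (((Sq X).filter fun D => SameM e.n D₀ D ∧ Q D).card : ℝ) := by
    refine congrArg Nat.cast (cardS (fun D => and_congr_right fun _ => ?_) _)
    rw [hQ]
    exact ⟨fun h => h k (mem_singleton_self k), fun h l hl => by
      rw [mem_singleton.1 hl]
      exact h⟩
  have g2 : (((Sq X).filter fun D => SameM e.n D₀ D ∧
      ∀ l, ((e.sub {k}).cd l).rs D = 1).card : ℝ) =
      (((Sq X).filter fun D => (SameM e.n D₀ D ∧ Q D) ∧ P D).card : ℝ) := by
    refine congrArg Nat.cast ?_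
    congr 1
    ext D
    rw [mem_filter, mem_filter]
    refine and_congr_right fun hD => ?_
    have hsq := (mem_Sq.1 hD).2
    constructor
    · rintro ⟨k1, k2⟩
      have k3 : (e.cd k).rs D = 1 := k2 ⟨k, mem_singleton_self k⟩
      refine ⟨⟨k1, ?_⟩, (hP D).2 k3⟩
      rw [hQ]
      have k4 := (e.cd k).nS'_le hsq
      obtain ⟨r, hr⟩ := ((e.cd k).pow_nS hsq).2.2.2
      rw [k3, hr] at k4
      have k5 : r = 0 := by
        by_contra h0
        have : 2 ^ 2 ≤ 2 ^ (r + 1) := Nat.pow_le_pow_right (by norm_num) (by omega)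
        omega
      rw [k5] at hr
      exact hr
    · rintro ⟨⟨k1, -⟩, k2⟩
      refine ⟨k1, fun l => ?_⟩
      obtain ⟨l, hl⟩ := l
      rw [mem_singleton] at hl
      subst hl
      exact (hP D).1 k2
  have g3 : (((Sq X).filter fun D => SameM e.n D₀ D ∧
      ((e.cd k).nS' D = 2 ∧ (e.cd k).rs D ≠ 1)).card : ℝ) =
      (((Sq X).filter fun D => (SameM e.n D₀ D ∧ Q D) ∧ ¬ P D).card : ℝ) := by
    refine congrArg Nat.cast (cardS (fun D => ?_) _)
    rw [hQ, hP, and_assoc]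
  have g4 : (((Sq X).filter fun D => (SameM e.n D₀ D ∧ Q D) ∧ P D).card : ℝ) +
      (((Sq X).filter fun D => (SameM e.n D₀ D ∧ Q D) ∧ ¬ P D).card : ℝ) =
      (((Sq X).filter fun D => SameM e.n D₀ D ∧ Q D).card : ℝ) := by
    have k := card_filter_add_card_filter_not (s := (Sq X).filter fun D => SameM e.n D₀ D ∧ Q D)
      (fun D => P D)
    rw [filter_filter, filter_filter] at k
    rw [← k, Nat.cast_add]
  have k1 : (((Sq X).filter fun D => SameM e.n D₀ D ∧
      ∀ l ∈ ({k} : Finset K), e.sz false l D = 2 ^ (0 + 1)).card : ℝ) -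
      (((Sq X).filter fun D => SameM e.n D₀ D ∧
      ∀ l, ((e.sub {k}).cd l).rs D = 1).card : ℝ) =
      (((Sq X).filter fun D => SameM e.n D₀ D ∧
      ((e.cd k).nS' D = 2 ∧ (e.cd k).rs D ≠ 1)).card : ℝ) := by
    rw [g1, g2, g3, ← g4]
    ring
  refine Eq.trans ?_ (k1.trans ?_)
  · exact congrArg₂ (fun x y : ℕ => (x : ℝ) - (y : ℝ)) (cardS (fun D => Iff.rfl) _)
      (cardS (fun D => Iff.rfl) _)
  · exact congrArg Nat.cast (cardS (fun D => Iff.rfl) _)

/-- the trivial groups for the curves of `B` and the Selmer groups for the curves of `C` -/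
theorem law_triv {D₀ : ℤ} (h : Squarefree D₀) {B C : Finset K} (hBC : Disjoint B C)
    (ht : ∀ k ∈ B, e.tau k D₀ = 1) (ht' : ∀ k ∈ B, e.tau' k D₀ = 1) (s : K → Bool) (r : K → ℕ) :
    e.Prp D₀ (fun D => (∀ k ∈ C, e.sz (s k) k D = 2 ^ (r k + 1)) ∧ ∀ k ∈ B, (e.cd k).rs D = 1)
      (lam 1 0 ^ B.card * ∏ k ∈ C, lam (e.ta (s k) k D₀) (r k)) := by
  have hd : ∀ k ∈ C, k ∉ B := fun k hk hk' => (Finset.disjoint_left.1 hBC) hk' hk
  have h1 := e.law_on h (B ∪ C) (fun k => if k ∈ B then false else s k)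
    (fun k => if k ∈ B then 0 else r k)
  have e1 : ∏ k ∈ B ∪ C, lam (e.ta (if k ∈ B then false else s k) k D₀) (if k ∈ B then 0 else r k) =
      lam 1 0 ^ B.card * ∏ k ∈ C, lam (e.ta (s k) k D₀) (r k) := by
    rw [prod_union hBC]
    congr 1
    · rw [← prod_const]
      refine prod_congr rfl fun k hk => ?_
      rw [if_pos hk, if_pos hk]
      exact congrArg (fun x => lam x 0) (ht' k hk)
    · refine prod_congr rfl fun k hk => ?_
      rw [if_neg (hd k hk), if_neg (hd k hk)]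
  rw [e1] at h1
  obtain ⟨P1, hP1⟩ : ∃ P : ℤ → Prop, ∀ D, P D ↔ ∀ k ∈ B ∪ C,
      e.sz (if k ∈ B then false else s k) k D = 2 ^ ((if k ∈ B then 0 else r k) + 1) :=
    ⟨_, fun _ => Iff.rfl⟩
  obtain ⟨P2, hP2⟩ : ∃ P : ℤ → Prop, ∀ D, P D ↔ (∀ k ∈ C, e.sz (s k) k D = 2 ^ (r k + 1)) ∧
      ∀ k ∈ B, (e.cd k).rs D = 1 := ⟨_, fun _ => Iff.rfl⟩
  have h2 : Tendsto (fun X : ℕ => (((Sq X).filter fun D => SameM e.n D₀ D ∧ P1 D).card : ℝ) /
      (((Sq X).filter fun D => SameM e.n D₀ D).card : ℝ)) atTop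
      (𝓝 (lam 1 0 ^ B.card * ∏ k ∈ C, lam (e.ta (s k) k D₀) (r k))) := by
    refine h1.congr fun X => congrArg₂ (fun x y : ℕ => (x : ℝ) / (y : ℝ)) (cardS (fun D => ?_) _) rfl
    exact and_congr_right fun _ => (hP1 D).symm
  have h3 : Tendsto (fun X : ℕ => (((Sq X).filter fun D => SameM e.n D₀ D ∧ P1 D).card : ℝ) /
      (((Sq X).filter fun D => SameM e.n D₀ D).card : ℝ) - ∑ k ∈ B,
      (((Sq X).filter fun D => SameM e.n D₀ D ∧ ((e.cd k).nS' D = 2 ∧ (e.cd k).rs D ≠ 1)).card : ℝ) /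
      (((Sq X).filter fun D => SameM e.n D₀ D).card : ℝ)) atTop
      (𝓝 (lam 1 0 ^ B.card * ∏ k ∈ C, lam (e.ta (s k) k D₀) (r k))) := by
    have h4 : Tendsto (fun X : ℕ => ∑ k ∈ B,
      (((Sq X).filter fun D => SameM e.n D₀ D ∧ ((e.cd k).nS' D = 2 ∧ (e.cd k).rs D ≠ 1)).card : ℝ) /
      (((Sq X).filter fun D => SameM e.n D₀ D).card : ℝ)) atTop (𝓝 (∑ _k ∈ B, (0 : ℝ))) := by
      refine tendsto_finsetSum _ fun k hk => ?_
      refine (e.bad_zero h (ht k hk) (ht' k hk)).congr fun X => ?_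
      exact congrArg₂ (fun x y : ℕ => (x : ℝ) / (y : ℝ)) (cardS (fun D => Iff.rfl) _) rfl
    have h5 := h2.sub h4
    rw [sum_const_zero, sub_zero] at h5
    exact h5
  have key : ∀ D : ℤ, Squarefree D → P2 D → P1 D := by
    intro D hsq hD
    rw [hP2] at hD
    rw [hP1]
    intro k hk
    by_cases hkB : k ∈ B
    · rw [if_pos hkB, if_pos hkB]
      have k3 := hD.2 k hkB
      have k4 := (e.cd k).nS'_le hsq
      obtain ⟨r, hr⟩ := ((e.cd k).pow_nS hsq).2.2.2
      rw [k3, hr] at k4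
      have k5 : r = 0 := by
        by_contra h0
        have : 2 ^ 2 ≤ 2 ^ (r + 1) := Nat.pow_le_pow_right (by norm_num) (by omega)
        omega
      rw [k5] at hr
      exact hr
    · rw [if_neg hkB, if_neg hkB]
      exact hD.1 k ((mem_union.1 hk).resolve_left hkB)
  have fin : Tendsto (fun X : ℕ => (((Sq X).filter fun D => SameM e.n D₀ D ∧ P2 D).card : ℝ) /
      (((Sq X).filter fun D => SameM e.n D₀ D).card : ℝ)) atTop
      (𝓝 (lam 1 0 ^ B.card * ∏ k ∈ C, lam (e.ta (s k) k D₀) (r k))) := by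
    refine tendsto_of_tendsto_of_tendsto_of_le_of_le h3 h2 (fun X => ?_) fun X => ?_
    · show _ - _ ≤ _
      rw [sub_le_iff_le_add, ← sum_div, ← add_div]
      refine div_le_div_of_nonneg_right ?_ (Nat.cast_nonneg _)
      rw [← Nat.cast_sum, ← Nat.cast_add]
      refine Nat.cast_le.2 ?_
      refine le_trans (card_le_card (t := ((Sq X).filter fun D => SameM e.n D₀ D ∧ P2 D) ∪
        B.biUnion fun k => (Sq X).filter fun D => SameM e.n D₀ D ∧
          ((e.cd k).nS' D = 2 ∧ (e.cd k).rs D ≠ 1)) fun D hD => ?_) ((card_union_le _ _).trans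
          (Nat.add_le_add_left card_biUnion_le _))
      rw [mem_filter] at hD
      obtain ⟨hD0, hD1, hD2⟩ := hD
      rw [hP1] at hD2
      by_cases hB : ∀ k ∈ B, (e.cd k).rs D = 1
      · refine mem_union_left _ (mem_filter.2 ⟨hD0, hD1, (hP2 D).2 ⟨fun k hk => ?_, hB⟩⟩)
        have := hD2 k (mem_union_right _ hk)
        rwa [if_neg (hd k hk), if_neg (hd k hk)] at this
      · push Not at hB
        obtain ⟨k, hk, hk'⟩ := hB
        refine mem_union_right _ (mem_biUnion.2 ⟨k, hk, mem_filter.2 ⟨hD0, hD1, ?_, hk'⟩⟩)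
        have := hD2 k (mem_union_left _ hk)
        rw [if_pos hk, if_pos hk] at this
        exact this
    · refine div_le_div_of_nonneg_right ?_ (Nat.cast_nonneg _)
      refine Nat.cast_le.2 (card_le_card fun D hD => ?_)
      rw [mem_filter] at hD ⊢
      exact ⟨hD.1, hD.2.1, key D (mem_Sq.1 hD.1).2 hD.2.2⟩
  refine fin.congr fun X => congrArg₂ (fun x y : ℕ => (x : ℝ) / (y : ℝ)) (cardS (fun D => ?_) _) rfl
  exact and_congr_right fun _ => hP2 D

/-- **the unified joint law** -/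
theorem law_joint {D₀ : ℤ} (h : Squarefree D₀) {J A : Finset K} (hA : A ⊆ J)
    (ht : ∀ k ∈ J, e.tau k D₀ = 1) (ht' : ∀ k ∈ J, e.tau' k D₀ = 1) (s : K → Bool) (r : K → ℕ) :
    e.Prp D₀ (fun D => (∀ k ∈ J, ((e.cd k).rs D = 1 ↔ k ∈ A)) ∧
        ∀ k, k ∉ J → e.sz (s k) k D = 2 ^ (r k + 1))
      (lam 1 0 ^ A.card * (1 - lam 1 0) ^ (J \ A).card *
        ∏ k ∈ Jᶜ, lam (e.ta (s k) k D₀) (r k)) := by
  have key := pattern2 Sq (fun D => SameM e.n D₀ D)
    (fun D => SameM e.n D₀ D ∧ ∀ k ∈ Jᶜ, e.sz (s k) k D = 2 ^ (r k + 1))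
    (K := J) (fun k D => (e.cd k).rs D = 1) (lam 1 0) (∏ k ∈ Jᶜ, lam (e.ta (s k) k D₀) (r k))
    (fun B => by
      have hB : ∀ k, k ∈ B.map (Function.Embedding.subtype _) ↔ ∃ hk : k ∈ J, (⟨k, hk⟩ : J) ∈ B := by
        intro k
        rw [Finset.mem_map]
        constructor
        · rintro ⟨⟨l, hl⟩, h1, rfl⟩
          exact ⟨hl, h1⟩
        · rintro ⟨hk, h1⟩
          exact ⟨⟨k, hk⟩, h1, rfl⟩
      have hdis : Disjoint (B.map (Function.Embedding.subtype _)) Jᶜ := by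
        rw [Finset.disjoint_left]
        intro k hk hk'
        obtain ⟨h1, -⟩ := (hB k).1 hk
        exact (Finset.mem_compl.1 hk') h1
      have h1 := e.law_triv h hdis (fun k hk => ht k ((hB k).1 hk).1)
        (fun k hk => ht' k ((hB k).1 hk).1) s r
      rw [card_map] at h1
      refine h1.congr fun X => ?_
      refine congrArg₂ (fun x y : ℕ => (x : ℝ) / (y : ℝ)) (cardS (fun D => ?_) _) rfl
      rw [and_assoc]
      refine and_congr_right fun _ => and_congr_right fun _ => ?_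
      exact ⟨fun h k hk => h k ((hB k).2 ⟨k.2, hk⟩), fun h k hk => h ⟨k, ((hB k).1 hk).1⟩
        ((hB k).1 hk).2⟩)
    (univ.filter fun k : J => (k : K) ∈ A)
  have c1 : (univ.filter fun k : J => (k : K) ∈ A).card = A.card := by
    rw [← card_map (Function.Embedding.subtype _)]
    congr 1
    ext k
    rw [Finset.mem_map]
    constructor
    · rintro ⟨⟨l, hl⟩, h1, rfl⟩
      exact (mem_filter.1 h1).2
    · intro hk
      exact ⟨⟨k, hA hk⟩, mem_filter.2 ⟨mem_univ _, hk⟩, rfl⟩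
  have c2 : J.card - A.card = (J \ A).card := (card_sdiff_of_subset hA).symm
  rw [@Finset.card_compl J (fun a b => Classical.propDecidable (a = b)) _, Fintype.card_coe, c1,
    c2] at key
  refine key.congr fun X => ?_
  refine congrArg₂ (fun x y : ℕ => (x : ℝ) / (y : ℝ)) (cardS (fun D => ?_) _) rfl
  constructor
  · rintro ⟨⟨k1, k2⟩, k3⟩
    refine ⟨k1, fun k hk => ?_, fun k hk => k2 k (Finset.mem_compl.2 hk)⟩
    rw [k3 ⟨k, hk⟩, mem_filter]
    exact ⟨fun h => h.2, fun h => ⟨mem_univ _, h⟩⟩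
  · rintro ⟨k1, k2, k3⟩
    refine ⟨⟨k1, fun k hk => k3 k (Finset.mem_compl.1 hk)⟩, fun k => ?_⟩
    rw [k2 k k.2, mem_filter]
    exact ⟨fun h => ⟨mem_univ _, h⟩, fun h => h.2⟩

/-- **trivial groups for the curves of `J` and large groups for the others** -/
theorem mixed {D₀ : ℤ} (h : Squarefree D₀) (J : Finset K) (ht : ∀ k ∈ J, e.tau k D₀ = 1)
    (ht' : ∀ k ∈ J, e.tau' k D₀ = 1) (T : K → ℕ) : ∃ η : ℝ, 0 < η ∧ ∀ᶠ X : ℕ in atTop,
    η * (X : ℝ) ≤ (((Sq X).filter fun D => SameM e.n D₀ D ∧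
      ((∀ k ∈ J, (e.cd k).rs D = 1) ∧ ∀ k, k ∉ J → 2 ^ T k ≤ (e.cd k).rs D)).card : ℝ) := by
  have hex : ∀ k, ∃ r, 0 < lam (e.tau' k D₀) r ∧ T k ≤ r := fun k =>
    ((lam_pos_ev (e.tau'_pos h k)).and (eventually_ge_atTop (T k))).exists
  choose r hr hrT using hex
  obtain ⟨η, X₀, hη, hX₀⟩ := e.density h
  set c : ℝ := lam 1 0 ^ J.card * ∏ k ∈ Jᶜ, lam (e.ta false k D₀) (r k) with hc
  have hl : 0 < lam 1 0 := by
    have := lam_one.1
    linarith
  have hc0 : 0 < c := mul_pos (pow_pos hl _) (prod_pos fun k _ => hr k)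
  refine ⟨η * (c / 2), by positivity, ?_⟩
  have hJ : Disjoint J Jᶜ := disjoint_compl_right
  filter_upwards [(e.law_triv h hJ ht ht' (fun _ => false) r).eventually
    (lt_mem_nhds (show c / 2 < c by linarith)),
    eventually_ge_atTop X₀, eventually_ge_atTop 1] with X hX hX0 hX1
  have h1 := hX₀ X hX0
  have hX1' : (1 : ℝ) ≤ X := by exact_mod_cast hX1
  have hN : (0 : ℝ) < (((Sq X).filter fun D => SameM e.n D₀ D).card : ℝ) := by
    refine lt_of_lt_of_le ?_ h1
    positivity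
  rw [lt_div_iff₀ hN] at hX
  have h2 : (((Sq X).filter fun D => SameM e.n D₀ D ∧ ((∀ k ∈ Jᶜ, e.sz false k D = 2 ^ (r k + 1)) ∧
      ∀ k ∈ J, (e.cd k).rs D = 1)).card : ℝ) ≤
      (((Sq X).filter fun D => SameM e.n D₀ D ∧
      ((∀ k ∈ J, (e.cd k).rs D = 1) ∧ ∀ k, k ∉ J → 2 ^ T k ≤ (e.cd k).rs D)).card : ℝ) := by
    refine Nat.cast_le.2 (card_le_card fun D hD => ?_)
    rw [mem_filter] at hD ⊢
    refine ⟨hD.1, hD.2.1, hD.2.2.2, fun k hk => ?_⟩
    have h3 := (e.cd k).nS'_le (mem_Sq.1 hD.1).2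
    have h4 : (e.cd k).nS' D = 2 ^ (r k + 1) := hD.2.2.1 k (Finset.mem_compl.2 hk)
    rw [h4, pow_succ] at h3
    have h5 : 2 ^ T k ≤ 2 ^ r k := Nat.pow_le_pow_right (by norm_num) (hrT k)
    omega
  have h3 : η * (c / 2) * X = c / 2 * (η * X) := by ring
  rw [h3]
  have h4 : c / 2 * (η * X) ≤ c / 2 * (((Sq X).filter fun D => SameM e.n D₀ D).card : ℝ) :=
    mul_le_mul_of_nonneg_left h1 (by positivity)
  refine h4.trans (hX.le.trans (le_trans (le_of_eq ?_) h2))
  exact congrArg Nat.cast (cardS (fun D => Iff.rfl) _)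

end Cs

end Q44.BP
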