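import Pool.Agent.Q44.BP.Cs

/-!
# The exact patterns of the trivial groups, and large values
-/

set_option autoImplicit false
set_option linter.unusedSectionVars false

open scoped Classical

namespace Q44.BP

open Finset Module Filter Topology
open Q44.BC (lm lam)
open Q44.TI (pd SelS cop_mod cardf ratio)
open Q44.BN

/-- inclusion and exclusion -/
theorem inc_exc {K : Type} [Fintype K] (A : Finset K) (t : K → ℝ) :
    (∏ k ∈ A, t k) * ∏ k ∈ Aᶜ, (1 - t k) =
      ∑ B ∈ Aᶜ.powerset, (-1) ^ B.card * ∏ k ∈ A ∪ B, t k := by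
  have h1 : ∏ k ∈ Aᶜ, (1 - t k) = ∑ B ∈ Aᶜ.powerset, (-1) ^ B.card * ∏ k ∈ B, t k := by
    have h2 : ∏ k ∈ Aᶜ, (1 - t k) = ∏ k ∈ Aᶜ, (-1 * t k + 1) :=
      prod_congr rfl fun k _ => by ring
    rw [h2, prod_add]
    refine sum_congr rfl fun B _ => ?_
    rw [prod_const_one, mul_one, prod_mul_distrib, prod_const]
  rw [h1, mul_sum]
  refine sum_congr rfl fun B hB => ?_
  have hd : Disjoint A B := by
    rw [Finset.disjoint_left]
    intro x hx hx'
    exact (Finset.mem_compl.1 (mem_powerset.1 hB hx')) hx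
  rw [prod_union hd]
  ring

/-- **the patterns** -/
theorem pattern {α : Type} (S : ℕ → Finset α) (G : α → Prop) {K : Type} [Fintype K]
    (T : K → α → Prop) (κ : ℝ)
    (h : ∀ B : Finset K, Tendsto (fun X : ℕ => (((S X).filter fun D => G D ∧ ∀ k ∈ B, T k D).card : ℝ) /
      (((S X).filter fun D => G D).card : ℝ)) atTop (𝓝 (κ ^ B.card))) (A : Finset K) :
    Tendsto (fun X : ℕ => (((S X).filter fun D => G D ∧ ∀ k, (T k D ↔ k ∈ A)).card : ℝ) /
      (((S X).filter fun D => G D).card : ℝ)) atTop (𝓝 (κ ^ A.card * (1 - κ) ^ Aᶜ.card)) := by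
  have h1 : Tendsto (fun X : ℕ => ∑ B ∈ Aᶜ.powerset, (-1 : ℝ) ^ B.card *
      ((((S X).filter fun D => G D ∧ ∀ k ∈ A ∪ B, T k D).card : ℝ) /
      (((S X).filter fun D => G D).card : ℝ))) atTop
      (𝓝 (∑ B ∈ Aᶜ.powerset, (-1 : ℝ) ^ B.card * κ ^ (A ∪ B).card)) :=
    tendsto_finsetSum _ fun B _ => (h (A ∪ B)).const_mul _
  have h2 : ∑ B ∈ Aᶜ.powerset, (-1 : ℝ) ^ B.card * κ ^ (A ∪ B).card =
      κ ^ A.card * (1 - κ) ^ Aᶜ.card := by
    have h3 := inc_exc A (fun _ : K => κ)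
    simp only [prod_const] at h3
    exact h3.symm
  rw [h2] at h1
  refine h1.congr fun X => ?_
  have h4 : (((S X).filter fun D => G D ∧ ∀ k, (T k D ↔ k ∈ A)).card : ℝ) =
      ∑ B ∈ Aᶜ.powerset, (-1 : ℝ) ^ B.card *
        (((S X).filter fun D => G D ∧ ∀ k ∈ A ∪ B, T k D).card : ℝ) := by
    obtain ⟨P1, hP1⟩ : ∃ P : α → Prop, ∀ D, P D ↔ ∀ k, (T k D ↔ k ∈ A) := ⟨_, fun _ => Iff.rfl⟩
    obtain ⟨P2, hP2⟩ : ∃ P : Finset K → α → Prop, ∀ B D, P B D ↔ ∀ k ∈ B, T k D :=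
      ⟨_, fun _ _ => Iff.rfl⟩
    have key : ∀ D : α, (if P1 D then (1 : ℝ) else 0) =
        ∑ B ∈ Aᶜ.powerset, (-1 : ℝ) ^ B.card * (if P2 (A ∪ B) D then (1 : ℝ) else 0) := by
      intro D
      have e1 : ∀ B : Finset K, (if P2 B D then (1 : ℝ) else 0) =
          ∏ k ∈ B, (if T k D then (1 : ℝ) else 0) := by
        intro B
        by_cases hB : ∀ k ∈ B, T k D
        · rw [if_pos ((hP2 B D).2 hB), prod_eq_one fun k hk => if_pos (hB k hk)]
        · rw [if_neg fun h => hB ((hP2 B D).1 h)]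
          push Not at hB
          obtain ⟨k, hk, hk'⟩ := hB
          exact (prod_eq_zero hk (if_neg hk')).symm
      rw [sum_congr rfl fun B _ => by rw [e1], ← inc_exc]
      by_cases hA : ∀ k, (T k D ↔ k ∈ A)
      · rw [if_pos ((hP1 D).2 hA), prod_eq_one fun k hk => if_pos ((hA k).2 hk), one_mul,
          prod_eq_one fun k hk => ?_]
        rw [if_neg fun h' => (Finset.mem_compl.1 hk) ((hA k).1 h'), sub_zero]
      · rw [if_neg fun h => hA ((hP1 D).1 h)]
        push Not at hA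
        obtain ⟨k, hk⟩ := hA
        rcases hk with ⟨h5, h6⟩ | ⟨h5, h6⟩
        · rw [prod_eq_zero (s := Aᶜ) (Finset.mem_compl.2 h6), mul_zero]
          rw [if_pos h5, sub_self]
        · rw [prod_eq_zero (s := A) h6, zero_mul]
          exact if_neg h5
    have e2 : ∀ (P : α → Prop), (((S X).filter fun D => G D ∧ P D).card : ℝ) =
        ∑ D ∈ (S X).filter (fun D => G D), (if P D then (1 : ℝ) else 0) := by
      intro P
      rw [← sum_filter, filter_filter]
      simp only [sum_const, nsmul_eq_mul, mul_one]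
    have e3 : (((S X).filter fun D => G D ∧ ∀ k, (T k D ↔ k ∈ A)).card : ℝ) =
        (((S X).filter fun D => G D ∧ P1 D).card : ℝ) :=
      congrArg Nat.cast (cardS (fun D => and_congr_right fun _ => (hP1 D).symm) _)
    rw [e3, e2, sum_congr rfl fun D _ => key D, sum_comm]
    refine sum_congr rfl fun B _ => ?_
    rw [← mul_sum, ← e2]
    exact congrArg (fun x : ℕ => (-1 : ℝ) ^ B.card * x)
      (cardS (fun D => and_congr_right fun _ => hP2 (A ∪ B) D) _)
  have h5 : ∑ B ∈ Aᶜ.powerset, (-1 : ℝ) ^ B.card *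
      ((((S X).filter fun D => G D ∧ ∀ k ∈ A ∪ B, T k D).card : ℝ) /
      (((S X).filter fun D => G D).card : ℝ)) = (∑ B ∈ Aᶜ.powerset, (-1 : ℝ) ^ B.card *
        (((S X).filter fun D => G D ∧ ∀ k ∈ A ∪ B, T k D).card : ℝ)) /
      (((S X).filter fun D => G D).card : ℝ) := by
    rw [sum_div]
    exact sum_congr rfl fun B _ => by rw [mul_div_assoc]
  rw [h5, ← h4]

namespace Cs

variable {K : Type} [Fintype K] (e : Cs K)

/-- the subfamilies -/
def sub (A : Finset K) : Cs A where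
  a := fun k => e.a k
  b := fun k => e.b k
  n := e.n
  hb := fun k => e.hb k
  hc := fun k => e.hc k
  hs := fun k => e.hs k
  sep := fun k l h => e.sep k l fun h' => h (Subtype.ext h')
  n0 := e.n0
  n2 := e.n2
  hn := fun k => e.hn k

theorem law_rs_sub {D₀ : ℤ} (h : Squarefree D₀) (ht : ∀ k, e.tau k D₀ = 1)
    (ht' : ∀ k, e.tau' k D₀ = 1) (A : Finset K) :
    e.Prp D₀ (fun D => ∀ k ∈ A, (e.cd k).rs D = 1) (lam 1 0 ^ A.card) := by
  have h1 := (e.sub A).law_rs h (fun k => ht k) (fun k => ht' k)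
  rw [Fintype.card_coe] at h1
  refine h1.congr fun X => ?_
  refine congrArg₂ (fun x y : ℕ => (x : ℝ) / (y : ℝ)) (cardS (fun D => ?_) _) rfl
  refine and_congr_right fun _ => ?_
  exact ⟨fun h k hk => h ⟨k, hk⟩, fun h k => h k k.2⟩

/-- **the exact pattern of the curves with trivial groups** -/
theorem law_pat {D₀ : ℤ} (h : Squarefree D₀) (ht : ∀ k, e.tau k D₀ = 1)
    (ht' : ∀ k, e.tau' k D₀ = 1) (A : Finset K) :
    e.Prp D₀ (fun D => ∀ k, ((e.cd k).rs D = 1 ↔ k ∈ A))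
      (lam 1 0 ^ A.card * (1 - lam 1 0) ^ Aᶜ.card) := by
  have h1 := pattern Sq (fun D => SameM e.n D₀ D) (fun k D => (e.cd k).rs D = 1) (lam 1 0)
    (fun B => (e.law_rs_sub h ht ht' B).congr fun X =>
      congrArg₂ (fun x y : ℕ => (x : ℝ) / (y : ℝ)) (cardS (fun D => Iff.rfl) _) rfl) A
  refine h1.congr fun X => ?_
  exact congrArg₂ (fun x y : ℕ => (x : ℝ) / (y : ℝ)) (cardS (fun D => Iff.rfl) _) rfl

/-- the constants of the dual curves are positive -/
theorem tau'_pos {D₀ : ℤ} (h : Squarefree D₀) (k : K) : 0 < e.tau' k D₀ := by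
  have h1 := e.dual.tau_pos h k
  have e1 : e.dual.a k * D₀ = -2 * (e.a k * D₀) := by
    show -2 * e.a k * D₀ = _
    ring
  have e2 : e.dual.b k * D₀ ^ 2 = (e.a k * D₀) ^ 2 - 4 * (e.b k * D₀ ^ 2) := by
    show (e.a k ^ 2 - 4 * e.b k) * D₀ ^ 2 = _
    ring
  unfold tau at h1
  rw [e1, e2] at h1
  exact h1

/-- **large values for all the curves** -/
theorem large {D₀ : ℤ} (h : Squarefree D₀) (T : K → ℕ) : ∃ η : ℝ, 0 < η ∧ ∀ᶠ X : ℕ in atTop,
    η * (X : ℝ) ≤ (((Sq X).filter fun D => SameM e.n D₀ D ∧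
      ∀ k, 2 ^ T k ≤ (e.cd k).rs D).card : ℝ) := by
  have hex : ∀ k, ∃ r, 0 < lam (e.tau' k D₀) r ∧ T k ≤ r := fun k =>
    ((lam_pos_ev (e.tau'_pos h k)).and (eventually_ge_atTop (T k))).exists
  choose r hr hrT using hex
  obtain ⟨η, X₀, hη, hX₀⟩ := e.density h
  set c : ℝ := ∏ k, lam (e.tau' k D₀) (r k) with hc
  have hc0 : 0 < c := prod_pos fun k _ => hr k
  refine ⟨η * (c / 2), by positivity, ?_⟩
  filter_upwards [(e.law_dual h r).eventually (lt_mem_nhds (show c / 2 < c by linarith)),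
    eventually_ge_atTop X₀, eventually_ge_atTop 1] with X hX hX0 hX1
  have h1 := hX₀ X hX0
  have hX1' : (1 : ℝ) ≤ X := by exact_mod_cast hX1
  have hN : (0 : ℝ) < (((Sq X).filter fun D => SameM e.n D₀ D).card : ℝ) := by
    refine lt_of_lt_of_le ?_ h1
    positivity
  rw [lt_div_iff₀ hN] at hX
  have h2 : (((Sq X).filter fun D => SameM e.n D₀ D ∧ ∀ k, (e.cd k).nS' D = 2 ^ (r k + 1)).card : ℝ) ≤
      (((Sq X).filter fun D => SameM e.n D₀ D ∧ ∀ k, 2 ^ T k ≤ (e.cd k).rs D).card : ℝ) := by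
    refine Nat.cast_le.2 (card_le_card fun D hD => ?_)
    rw [mem_filter] at hD ⊢
    refine ⟨hD.1, hD.2.1, fun k => ?_⟩
    have h3 := (e.cd k).nS'_le (mem_Sq.1 hD.1).2
    rw [hD.2.2 k, pow_succ] at h3
    have h4 : 2 ^ T k ≤ 2 ^ r k := Nat.pow_le_pow_right (by norm_num) (hrT k)
    omega
  have h3 : η * (c / 2) * X = c / 2 * (η * X) := by ring
  rw [h3]
  have h4 : c / 2 * (η * X) ≤ c / 2 * (((Sq X).filter fun D => SameM e.n D₀ D).card : ℝ) :=
    mul_le_mul_of_nonneg_left h1 (by positivity)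
  refine h4.trans (hX.le.trans (le_trans (le_of_eq ?_) h2))
  exact congrArg Nat.cast (cardS (fun D => Iff.rfl) _)

end Cs

end Q44.BP
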